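import Pool.Agent.H97.EM.TE

/-! Atomic models. -/

namespace Pool.Agent.H97.EM

private def bl (s n : ℕ) : List ℕ := (List.range n).map fun i => s + i

private theorem at_pick_app (a I J : List ℕ) : pick a (I ++ J) = pick a I ++ pick a J := by
  simp [pick]

private theorem pick_bl (a b c : List ℕ) : pick (a ++ b ++ c) (bl a.length b.length) = b := by
  unfold pick bl
  rw [List.map_map]
  refine List.ext_getElem (by simp) fun i h1 h2 => ?_
  have h3 : a.length + i < (a ++ b ++ c).length := by
    simp only [List.length_append]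
    omega
  rw [List.getElem_map, List.getElem_range, Function.comp_apply, List.getD_eq_getElem _ _ h3,
    List.getElem_append_left (by rw [List.length_append]; omega),
    List.getElem_append_right (by omega)]
  congr 1
  omega

private theorem pick_x (x y z : List ℕ) : pick (x ++ y ++ z) (bl 0 x.length) = x := by
  have h := pick_bl [] x (y ++ z)
  simpa using h

private theorem pick_y (x y z : List ℕ) : pick (x ++ y ++ z) (bl x.length y.length) = y :=
  pick_bl x y z

private theorem pick_z (x y z : List ℕ) :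
    pick (x ++ y ++ z) (bl (x.length + y.length) z.length) = z := by
  have h := pick_bl (x ++ y) z []
  simpa using h

private theorem mem_bl {s n i : ℕ} (h : i ∈ bl s n) : i < s + n := by
  unfold bl at h
  rw [List.mem_map] at h
  obtain ⟨j, hj, rfl⟩ := h
  rw [List.mem_range] at hj
  omega

private theorem bl_ne {s n : ℕ} (hn : n ≠ 0) : bl s n ≠ [] := by
  intro h
  have h1 := congrArg List.length h
  unfold bl at h1
  rw [List.length_map, List.length_range, List.length_nil] at h1
  exact hn h1

private theorem ev_renc {M : Str} {φ : Fml} {a I : List ℕ} (hI : I ≠ [])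
    (hlt : ∀ i ∈ I, i < a.length) : Ev M (renc φ I) a ↔ Ev M φ (pick a I) := by
  unfold Ev
  rw [sat_renc, ext_pick hI hlt]

private theorem app_ne {a b : List ℕ} (h : a ≠ []) : a ++ b ≠ [] :=
  fun h0 => h (List.append_eq_nil_iff.1 h0).1

/-- one direction for all formulas is enough -/
private theorem te_one {M N : Str} {a b : List ℕ} (ha : a ≠ []) (hl : a.length = b.length)
    (h : ∀ φ, Ev M φ a → Ev N φ b) : TE M a N b := by
  refine ⟨ha, hl, fun φ => ⟨h φ, fun h1 => ?_⟩⟩
  by_contra h2
  exact h (.neg φ) h2 h1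

/-- Over a realisation of its type the tuples of an atomic model are realised everywhere.
Take the `θ` of `Y ++ Z`; `∃ z θ` holds at `bb ++ Y`, so at `b ++ A`; for every `φ` the formula
`∃ z (θ ∧ ± φ)` has the same truth value at both. -/
theorem Atomic.extend {B N : Str} {bb b : List ℕ} (hat : Atomic B bb) {A Y : List ℕ}
    (hb : b.length = bb.length) (h : TE N (b ++ A) B (bb ++ Y)) (Z : List ℕ) :
    ∃ W : List ℕ, W.length = Z.length ∧ TE N (b ++ A ++ W) B (bb ++ Y ++ Z) := by
  obtain ⟨θ, h1, h2⟩ := hat (Y ++ Z)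
  have hne : b ++ A ≠ [] := h.1
  have hl : (b ++ A).length = (bb ++ Y).length := h.2.1
  have hne' : bb ++ Y ≠ [] := by
    intro h0
    rw [h0, List.length_nil, List.length_eq_zero_iff] at hl
    exact hne hl
  have h3 : Ev N (exs (b ++ A).length Z.length θ) (b ++ A) := by
    rw [h.2.2, hl, ev_exs _ _ hne']
    refine ⟨Z, rfl, ?_⟩
    rw [List.append_assoc]
    exact h1
  rw [ev_exs _ _ hne] at h3
  obtain ⟨W, hW, h4⟩ := h3
  refine ⟨W, hW, te_one (app_ne hne) ?_ fun φ h5 => ?_⟩
  · rw [List.length_append (as := b ++ A), List.length_append (as := bb ++ Y), hl, hW]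
  · have h6 : Ev N (exs (b ++ A).length Z.length (.and θ φ)) (b ++ A) := by
      rw [ev_exs _ _ hne]
      exact ⟨W, hW, h4, h5⟩
    rw [h.2.2, hl, ev_exs _ _ hne'] at h6
    obtain ⟨Z', hZ', h7, h8⟩ := h6
    have h9 : TE B (bb ++ (Y ++ Z')) B (bb ++ (Y ++ Z)) := by
      refine h2 (Y ++ Z') ?_ ?_
      · rw [List.length_append, List.length_append, hZ']
      · rw [← List.append_assoc]
        exact h7
    rw [List.append_assoc]
    rw [List.append_assoc] at h8
    exact (h9.2.2 φ).1 h8

theorem Atomic.iso {B N : Str} {bb : List ℕ} (hat : Atomic B bb) (hbb : bb ≠ [])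
    {σ : Equiv.Perm ℕ} (h : ∀ r l, B r l ↔ N r (l.map σ)) : Atomic N (bb.map σ) := by
  intro Z
  have hmap : ∀ Z : List ℕ, (bb ++ Z.map σ.symm).map σ = bb.map σ ++ Z := by
    intro Z
    rw [List.map_append, List.map_map]
    have h0 : (σ : ℕ → ℕ) ∘ σ.symm = id := by
      funext x
      simp
    rw [h0, List.map_id]
  have hte : ∀ Z : List ℕ, TE B (bb ++ Z.map σ.symm) N (bb.map σ ++ Z) := by
    intro Z
    have h0 := te_iso h (a := bb ++ Z.map σ.symm) (app_ne hbb)
    rw [hmap] at h0
    exact h0
  obtain ⟨θ, h1, h2⟩ := hat (Z.map σ.symm)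
  refine ⟨θ, ((hte Z).2.2 θ).1 h1, fun Z' hZ' h3 => ?_⟩
  have h4 := h2 (Z'.map σ.symm) (by rw [List.length_map, List.length_map, hZ'])
    (((hte Z').2.2 θ).2 h3)
  exact ((hte Z').symm.trans h4).trans (hte Z)

/-- Atomic over a longer tuple. -/
theorem Atomic.more {B : Str} {bb : List ℕ} (hat : Atomic B bb) (c : List ℕ) :
    Atomic B (bb ++ c) := by
  intro Z
  obtain ⟨θ, h1, h2⟩ := hat (c ++ Z)
  refine ⟨θ, by rw [List.append_assoc]; exact h1, fun Z' hZ' h3 => ?_⟩
  rw [List.append_assoc, List.append_assoc]
  rw [List.append_assoc] at h3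
  exact h2 (c ++ Z') (by rw [List.length_append, List.length_append, hZ']) h3

/-- If `B` is atomic over `bb` and `bb` is isolated over `c` (a part of `B`), then `B` is atomic
over `c`. -/
theorem Atomic.change {B : Str} {bb c : List ℕ} (hat : Atomic B bb) (hc : c ≠ [])
    {θ : Fml} (h1 : Ev B θ (c ++ bb))
    (h2 : ∀ b' : List ℕ, b'.length = bb.length → Ev B θ (c ++ b') → TE B (c ++ b') B (c ++ bb)) :
    Atomic B c := by
  intro Z
  obtain ⟨η, h3, h4⟩ := hat (c ++ Z)
  have hp : c.length ≠ 0 := fun h0 => hc (List.length_eq_zero_iff.1 h0)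
  -- at `c ++ z ++ y`
  have e1 : ∀ (ψ : Fml) (z y : List ℕ),
      Ev B (renc ψ (bl 0 c.length ++ bl (c.length + z.length) y.length)) (c ++ z ++ y) ↔
        Ev B ψ (c ++ y) := by
    intro ψ z y
    rw [ev_renc, at_pick_app, pick_x, pick_z]
    · exact app_ne (bl_ne hp)
    · intro i hi
      rw [List.mem_append] at hi
      simp only [List.length_append]
      rcases hi with hi | hi
      · have := mem_bl hi
        omega
      · have := mem_bl hi
        omega
  have e2 : ∀ (ψ : Fml) (z y : List ℕ),
      Ev B (renc ψ (bl (c.length + z.length) y.length ++ (bl 0 c.length ++ bl c.length z.length)))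
        (c ++ z ++ y) ↔ Ev B ψ (y ++ (c ++ z)) := by
    intro ψ z y
    rw [ev_renc, at_pick_app, at_pick_app, pick_x, pick_z, pick_y]
    · intro h0
      exact app_ne (bl_ne hp) (List.append_eq_nil_iff.1 h0).2
    · intro i hi
      simp only [List.mem_append] at hi
      simp only [List.length_append]
      rcases hi with hi | hi | hi
      · have := mem_bl hi
        omega
      · have := mem_bl hi
        omega
      · have := mem_bl hi
        omega
  have e3 : ∀ (ψ : Fml) (z y : List ℕ),
      Ev B (renc ψ (bl c.length z.length ++ (bl 0 c.length ++ bl (c.length + z.length) y.length)))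
        (c ++ z ++ y) ↔ Ev B ψ (z ++ (c ++ y)) := by
    intro ψ z y
    rw [ev_renc, at_pick_app, at_pick_app, pick_x, pick_z, pick_y]
    · intro h0
      exact app_ne (bl_ne hp) (List.append_eq_nil_iff.1 h0).2
    · intro i hi
      simp only [List.mem_append] at hi
      simp only [List.length_append]
      rcases hi with hi | hi | hi
      · have := mem_bl hi
        omega
      · have := mem_bl hi
        omega
      · have := mem_bl hi
        omega
  refine ⟨exs (c ++ Z).length bb.length (.and
    (renc θ (bl 0 c.length ++ bl (c.length + Z.length) bb.length))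
    (renc η (bl (c.length + Z.length) bb.length ++ (bl 0 c.length ++ bl c.length Z.length)))),
    ?_, ?_⟩
  · rw [ev_exs _ _ (app_ne hc)]
    exact ⟨bb, rfl, (e1 θ Z bb).2 h1, (e2 η Z bb).2 h3⟩
  · intro Z' hZ' h5
    have hlen : (c ++ Z).length = (c ++ Z').length := by
      rw [List.length_append, List.length_append, hZ']
    rw [hlen, ev_exs _ _ (app_ne hc)] at h5
    obtain ⟨b', hb', h6, h7⟩ := h5
    rw [← hZ', ← hb'] at h6 h7
    have h8 := (e1 θ Z' b').1 h6
    have h9 := (e2 η Z' b').1 h7
    have h10 := h2 b' hb' h8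
    refine te_one (app_ne hc) hlen.symm fun φ h11 => ?_
    have h12 : Ev B (exs (c ++ b').length Z'.length (.and
        (renc η (bl c.length b'.length ++ (bl 0 c.length ++
          bl (c.length + b'.length) Z'.length)))
        (renc φ (bl 0 c.length ++ bl (c.length + b'.length) Z'.length)))) (c ++ b') := by
      rw [ev_exs _ _ (app_ne hc)]
      exact ⟨Z', rfl, (e3 η b' Z').2 h9, (e1 φ b' Z').2 h11⟩
    rw [h10.2.2] at h12
    have hlen2 : (c ++ b').length = (c ++ bb).length := h10.2.1
    rw [hlen2, ev_exs _ _ (app_ne hc)] at h12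
    obtain ⟨Z'', hZ'', h13, h14⟩ := h12
    rw [← hZ'', hb'] at h13 h14
    have h15 := (e3 η bb Z'').1 h13
    have h16 := (e1 φ bb Z'').1 h14
    have h17 := h4 (c ++ Z'') (by rw [List.length_append, List.length_append, hZ'', hZ']) h15
    exact ((h17.right rfl (app_ne hc)).2.2 φ).1 h16

end Pool.Agent.H97.EM
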