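import Pool.Agent.H97.EM.At1

/-! Atomic models: uniqueness and embeddings. -/

namespace Pool.Agent.H97.EM

/-- a chain of lists -/
private theorem chain {R : List (ℕ × ℕ) → Prop} (h0 : R []) {Q : ℕ → List (ℕ × ℕ) → Prop}
    (hs : ∀ T n, R T → ∃ t, R (T ++ t) ∧ t ≠ [] ∧ Q n t) :
    ∃ F : ℕ → ℕ × ℕ, (∀ n, ∃ m, n ≤ m ∧ R ((List.range m).map F)) ∧
      ∀ n, ∃ t, Q n t ∧ ∀ p ∈ t, ∃ i, F i = p := by
  classical
  choose! t ht1 ht2 ht3 using hs
  let L : ℕ → List (ℕ × ℕ) := fun n => Nat.rec [] (fun n T => T ++ t T n) n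
  have hL1 : ∀ n, L (n + 1) = L n ++ t (L n) n := fun n => rfl
  have hR : ∀ n, R (L n) := by
    intro n
    induction n with
    | zero => exact h0
    | succ n ih =>
      rw [hL1]
      exact ht1 _ _ ih
  have hpre : ∀ m k, L m <+: L (m + k) := by
    intro m k
    induction k with
    | zero => exact List.prefix_rfl
    | succ k ih => exact ih.trans ⟨_, (hL1 (m + k)).symm⟩
  have hlen : ∀ n, n ≤ (L n).length := by
    intro n
    induction n with
    | zero => exact Nat.zero_le _
    | succ n ih =>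
      rw [hL1, List.length_append]
      have h1 : 0 < (t (L n) n).length := List.length_pos_iff.2 (ht2 _ _ (hR n))
      omega
  have hF : ∀ n i (hi : i < (L n).length), (L (i + 1)).getD i (0, 0) = (L n)[i] := by
    intro n i hi
    have h1 : i < (L (i + 1)).length := hlen (i + 1)
    rw [List.getD_eq_getElem _ _ h1]
    rcases Nat.le_total (i + 1) n with h2 | h2
    · obtain ⟨k, rfl⟩ := Nat.exists_eq_add_of_le h2
      exact (hpre (i + 1) k).getElem h1
    · obtain ⟨k, hk⟩ := Nat.exists_eq_add_of_le h2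
      have h3 := (hpre n k).getElem hi
      rw [h3]
      congr 1
      rw [hk]
  refine ⟨fun i => (L (i + 1)).getD i (0, 0), fun n => ⟨(L n).length, hlen n, ?_⟩, fun n => ?_⟩
  · have h1 : (List.range (L n).length).map (fun i => (L (i + 1)).getD i (0, 0)) = L n := by
      refine List.ext_getElem (by simp) fun i h2 h3 => ?_
      rw [List.getElem_map, List.getElem_range]
      exact hF n i h3
    rw [h1]
    exact hR n
  · refine ⟨t (L n) n, ht3 _ _ (hR n), fun p hp => ?_⟩
    have h1 : p ∈ L (n + 1) := by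
      rw [hL1, List.mem_append]
      exact Or.inr hp
    obtain ⟨i, hi, rfl⟩ := List.getElem_of_mem h1
    exact ⟨i, hF (n + 1) i hi⟩

/-- the types of the sequences are equal -/
private theorem seq_sat {N B : Str} {U V : ℕ → ℕ}
    (h : ∀ n, ∃ m, n ≤ m ∧ TE N ((List.range m).map U) B ((List.range m).map V)) (φ : Fml)
    (ρ : ℕ → ℕ) : Sat N φ (U ∘ ρ) ↔ Sat B φ (V ∘ ρ) := by
  obtain ⟨φ', hφ'⟩ := ren_exists φ ρ
  rw [← hφ' N U, ← hφ' B V]
  obtain ⟨m, hm, h1⟩ := h (Encodable.encode φ' + 1)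
  have key : ∀ (M : Str) (X : ℕ → ℕ), Ev M φ' ((List.range m).map X) ↔ Sat M φ' X := by
    intro M X
    refine ev_of_sat (fun i hi => ?_) fun i hi => ?_
    · rw [List.getD_eq_getElem _ _ hi, List.getElem_map, List.getElem_range]
    · have h2 := fv_le φ' i hi
      rw [List.length_map, List.length_range]
      omega
  rw [← key, ← key]
  exact h1.2.2 φ'

private theorem map_zip {b bb : List ℕ} (h : b.length = bb.length) :
    (b.zip bb).map Prod.fst = b ∧ (b.zip bb).map Prod.snd = bb :=
  ⟨List.map_fst_zip h.le, List.map_snd_zip h.ge⟩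

/-- Uniqueness (back and forth, both universes are `ℕ`). -/
theorem Atomic.unique {B N : Str} {bb b : List ℕ} (hat : Atomic B bb) (hat' : Atomic N b)
    (h : TE N b B bb) : Iso N B := by
  classical
  have hb : b.length = bb.length := h.2.1
  obtain ⟨F, hF1, hF2⟩ := chain
    (R := fun T => TE N (b ++ T.map Prod.fst) B (bb ++ T.map Prod.snd))
    (Q := fun n t => n ∈ t.map Prod.fst ∧ n ∈ t.map Prod.snd) (by simpa using h) (by
      intro T n hT
      obtain ⟨W, hW, h1⟩ := hat.extend hb hT [n]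
      obtain ⟨w, rfl⟩ := List.length_eq_one_iff.1 hW
      rw [List.append_assoc b, List.append_assoc bb] at h1
      obtain ⟨W', hW', h2⟩ := hat'.extend hb.symm h1.symm [n]
      obtain ⟨w', rfl⟩ := List.length_eq_one_iff.1 hW'
      refine ⟨[(w, n), (n, w')], ?_, by simp, by simp, by simp⟩
      have h3 := h2.symm
      simpa [List.append_assoc] using h3)
  -- put the names in front
  have key : ∀ m, TE N (b ++ ((List.range m).map F).map Prod.fst) B
      (bb ++ ((List.range m).map F).map Prod.snd) →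
      TE N ((List.range m).map fun i => (F i).1) B ((List.range m).map fun i => (F i).2) ∨ m = 0 := by
    intro m hm
    by_cases h0 : m = 0
    · exact Or.inr h0
    · left
      have h1 := hm.right hb (by
        intro h2
        have h3 := congrArg List.length h2
        simp at h3
        exact h0 h3)
      simpa [List.map_map, Function.comp_def] using h1
  have hS := seq_sat (N := N) (B := B) (U := fun i => (F i).1) (V := fun i => (F i).2) (by
    intro n
    obtain ⟨m, hm, h1⟩ := hF1 (n + 1)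
    refine ⟨m, by omega, ?_⟩
    rcases key m h1 with h2 | h2
    · exact h2
    · omega)
  have hU : ∀ n, ∃ i, (F i).1 = n := by
    intro n
    obtain ⟨t, ⟨h1, -⟩, h2⟩ := hF2 n
    obtain ⟨p, hp, h3⟩ := List.mem_map.1 h1
    obtain ⟨i, hi⟩ := h2 p hp
    exact ⟨i, by rw [hi]; exact h3⟩
  have hV : ∀ n, ∃ i, (F i).2 = n := by
    intro n
    obtain ⟨t, ⟨-, h1⟩, h2⟩ := hF2 n
    obtain ⟨p, hp, h3⟩ := List.mem_map.1 h1
    obtain ⟨i, hi⟩ := h2 p hp
    exact ⟨i, by rw [hi]; exact h3⟩
  have heq : ∀ i j, (F i).1 = (F j).1 ↔ (F i).2 = (F j).2 := by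
    intro i j
    have h1 := hS (.eq 0 1) (fun k => if k = 0 then i else j)
    simpa [Sat] using h1
  choose s hs using hU
  have he : ∀ i, (F (s (F i).1)).2 = (F i).2 := fun i => (heq _ _).1 (hs _)
  refine iso_of_sat (fun x => (F (s x)).2) ⟨fun x y hxy => ?_, fun y => ?_⟩ fun φ v => ?_
  · have h1 := (heq _ _).2 hxy
    rw [hs, hs] at h1
    exact h1
  · obtain ⟨j, hj⟩ := hV y
    exact ⟨(F j).1, (he j).trans hj⟩
  · have h1 := hS φ (s ∘ v)
    have h2 : (fun i => (F i).1) ∘ (s ∘ v) = v := by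
      funext i
      exact hs (v i)
    rw [h2] at h1
    exact h1

/-- The forth part: an elementary embedding. -/
theorem Atomic.emb {B N : Str} {bb b : List ℕ} (hat : Atomic B bb) (h : TE N b B bb) :
    ∃ ι : ℕ → ℕ, (∀ φ v, Sat B φ v ↔ Sat N φ (ι ∘ v)) ∧ bb.map ι = b := by
  classical
  have hb : b.length = bb.length := h.2.1
  obtain ⟨F, hF1, hF2⟩ := chain
    (R := fun T => TE N (T.map Prod.fst) B (T.map Prod.snd) ∧ b.zip bb <+: T ∨
      T = []) (Q := fun n t => n ∈ t.map Prod.snd ∧ True) (Or.inr rfl) (by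
      intro T n hT
      have hbase : ∀ T : List (ℕ × ℕ), TE N (b ++ T.map Prod.fst) B (bb ++ T.map Prod.snd) →
          ∃ w, TE N (b ++ (T ++ [(w, n)]).map Prod.fst) B (bb ++ (T ++ [(w, n)]).map Prod.snd) := by
        intro T hT
        obtain ⟨W, hW, h1⟩ := hat.extend hb hT [n]
        obtain ⟨w, rfl⟩ := List.length_eq_one_iff.1 hW
        refine ⟨w, ?_⟩
        simpa [List.append_assoc] using h1
      have hmap : ∀ T : List (ℕ × ℕ), (b.zip bb ++ T).map Prod.fst = b ++ T.map Prod.fst ∧
          (b.zip bb ++ T).map Prod.snd = bb ++ T.map Prod.snd := by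
        intro T
        rw [List.map_append, List.map_append, (map_zip hb).1, (map_zip hb).2]
        exact ⟨rfl, rfl⟩
      rcases hT with ⟨h1, ⟨T', rfl⟩⟩ | rfl
      · rw [(hmap T').1, (hmap T').2] at h1
        obtain ⟨w, h2⟩ := hbase T' h1
        refine ⟨[(w, n)], Or.inl ⟨?_, ⟨T' ++ [(w, n)], by rw [List.append_assoc]⟩⟩, by simp, by simp⟩
        rw [List.append_assoc, (hmap _).1, (hmap _).2]
        exact h2
      · obtain ⟨w, h2⟩ := hbase [] (by simpa using h)
        refine ⟨b.zip bb ++ [(w, n)], Or.inl ⟨?_, ⟨[(w, n)], by simp⟩⟩, by simp, by simp⟩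
        rw [List.nil_append, (hmap _).1, (hmap _).2]
        simpa using h2)
  have hF3 : ∀ n, ∃ m, n ≤ m ∧ TE N ((List.range m).map fun i => (F i).1) B
      ((List.range m).map fun i => (F i).2) ∧ b.zip bb <+: (List.range m).map F := by
    intro n
    obtain ⟨m, hm, h1⟩ := hF1 (n + 1)
    refine ⟨m, by omega, ?_⟩
    rcases h1 with ⟨h1, h2⟩ | h1
    · refine ⟨?_, h2⟩
      simpa [List.map_map, Function.comp_def] using h1
    · exfalso
      have h3 := congrArg List.length h1
      simp at h3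
      omega
  have hS := seq_sat (N := N) (B := B) (U := fun i => (F i).1) (V := fun i => (F i).2) (by
    intro n
    obtain ⟨m, hm, h1, -⟩ := hF3 n
    exact ⟨m, hm, h1⟩)
  have hV : ∀ n, ∃ i, (F i).2 = n := by
    intro n
    obtain ⟨t, ⟨h1, -⟩, h2⟩ := hF2 n
    obtain ⟨p, hp, h3⟩ := List.mem_map.1 h1
    obtain ⟨i, hi⟩ := h2 p hp
    exact ⟨i, by rw [hi]; exact h3⟩
  have heq : ∀ i j, (F i).1 = (F j).1 ↔ (F i).2 = (F j).2 := by
    intro i j
    have h1 := hS (.eq 0 1) (fun k => if k = 0 then i else j)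
    simpa [Sat] using h1
  choose s hs using hV
  refine ⟨fun x => (F (s x)).1, fun φ v => ?_, ?_⟩
  · have h1 := hS φ (s ∘ v)
    have h2 : (fun i => (F i).2) ∘ (s ∘ v) = v := by
      funext i
      exact hs (v i)
    rw [h2] at h1
    exact h1.symm
  · obtain ⟨m, -, -, h1⟩ := hF3 0
    have h2 : ∀ p ∈ b.zip bb, (F (s p.2)).1 = p.1 := by
      intro p hp
      obtain ⟨i, -, hi⟩ := List.mem_map.1 (h1.subset hp)
      rw [← hi]
      exact (heq _ _).2 (hs _)
    have h3 : (b.zip bb).map (fun p => (F (s p.2)).1) = (b.zip bb).map Prod.fst :=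
      List.map_congr_left h2
    rw [(map_zip hb).1] at h3
    have h4 : (b.zip bb).map (fun p => (F (s p.2)).1) =
        ((b.zip bb).map Prod.snd).map fun x => (F (s x)).1 := by
      rw [List.map_map]
      rfl
    rw [h4, (map_zip hb).2] at h3
    exact h3

end Pool.Agent.H97.EM
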