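import Pool.Agent.H97.EM.TE

/-! Atomicity from cofinally many tuples. -/

namespace Pool.Agent.H97.EM

private def bk (s n : ℕ) : List ℕ := (List.range n).map fun i => s + i

private theorem pick_bk (a b c : List ℕ) : pick (a ++ b ++ c) (bk a.length b.length) = b := by
  unfold pick bk
  rw [List.map_map]
  refine List.ext_getElem (by simp) fun i h1 h2 => ?_
  have h3 : a.length + i < (a ++ b ++ c).length := by
    simp only [List.length_append]
    omega
  rw [List.getElem_map, List.getElem_range, Function.comp_apply, List.getD_eq_getElem _ _ h3,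
    List.getElem_append_left (by rw [List.length_append]; omega),
    List.getElem_append_right (by omega)]
  congr 1
  omega

private theorem pick_last (a b : List ℕ) : pick (a ++ b) (bk a.length b.length) = b := by
  have h := pick_bk a b []
  simpa using h

private theorem pick_first (a b : List ℕ) : pick (a ++ b) (bk 0 a.length) = a := by
  have h := pick_bk [] a b
  simpa using h

private theorem mem_bk {s n i : ℕ} (h : i ∈ bk s n) : i < s + n := by
  unfold bk at h
  rw [List.mem_map] at h
  obtain ⟨j, hj, rfl⟩ := h
  rw [List.mem_range] at hj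
  omega

private theorem bk_ne {s n : ℕ} (hn : n ≠ 0) : bk s n ≠ [] := by
  intro h
  have h1 := congrArg List.length h
  unfold bk at h1
  rw [List.length_map, List.length_range, List.length_nil] at h1
  exact hn h1

private theorem ev_ren {M : Str} {φ : Fml} {a I : List ℕ} (hI : I ≠ [])
    (hlt : ∀ i ∈ I, i < a.length) : Ev M (renc φ I) a ↔ Ev M φ (pick a I) := by
  unfold Ev
  rw [sat_renc, ext_pick hI hlt]

private theorem ev_eqs (M : Str) (a : List ℕ) (L : List (ℕ × ℕ))
    (hL : ∀ p ∈ L, p.1 < a.length ∧ p.2 < a.length) :
    Ev M (conj (L.map fun p => Fml.eq p.1 p.2)) a ↔ ∀ p ∈ L, a.getD p.1 0 = a.getD p.2 0 := by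
  have hx : ∀ i, i < a.length → ext a i = a.getD i 0 := by
    intro i hi
    unfold ext
    rw [List.getD_eq_getElem _ _ hi, List.getD_eq_getElem _ _ hi]
  unfold Ev
  rw [sat_conj]
  constructor
  · intro h p hp
    have h1 := h _ (List.mem_map.2 ⟨p, hp, rfl⟩)
    have h2 := hL p hp
    simp only [Sat] at h1
    rw [hx _ h2.1, hx _ h2.2] at h1
    exact h1
  · intro h φ hφ
    rw [List.mem_map] at hφ
    obtain ⟨p, hp, rfl⟩ := hφ
    have h2 := hL p hp
    simp only [Sat]
    rw [hx _ h2.1, hx _ h2.2]
    exact h p hp

private theorem getD_app_left (a b : List ℕ) {i : ℕ} (hi : i < a.length) :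
    (a ++ b).getD i 0 = a.getD i 0 := by
  rw [List.getD_append _ _ _ _ hi]

private theorem getD_app_right (a b : List ℕ) (i : ℕ) :
    (a ++ b).getD (a.length + i) 0 = b.getD i 0 := by
  rw [List.getD_append_right _ _ _ _ (by omega)]
  congr 1
  omega

/-- It is enough to isolate cofinally many tuples: if `Z = pick (bb ++ W) J` and `θ` isolates
`bb ++ W` over `bb` then `Z` is isolated over `bb` by the formula
`∃ x_(K), .., x_(K+n-1) (θ(x_K, .., x_(K+n-1)) ∧ ⋀_(i<k) x_i = x_(K+i) ∧
⋀_j x_(k+j) = x_(K+J_j))`, where `k = bb.length`, `K = k + Z.length`, `n = k + W.length`;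
the renamed `θ` is `renc θ [K, .., K+n-1]`. -/
theorem atomic_of_cofinal {B : Str} {bb : List ℕ} (hbb : bb ≠ [])
    (h : ∀ Z : List ℕ, ∃ W J : List ℕ, (∀ j ∈ J, j < (bb ++ W).length) ∧
      pick (bb ++ W) J = Z ∧ ∃ θ : Fml, Ev B θ (bb ++ W) ∧
        ∀ W' : List ℕ, W'.length = W.length → Ev B θ (bb ++ W') →
          TE B (bb ++ W') B (bb ++ W)) : Atomic B bb := by
  intro Z
  obtain ⟨W, J, hJ, hpick, θ, hθ, hiso⟩ := h Z
  have hk : 0 < bb.length := List.length_pos_iff.2 hbb
  have hlZ : J.length = Z.length := by
    rw [← hpick]
    simp [pick]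
  have hJb : ∀ j (hj : j < J.length), J.getD j 0 < (bb ++ W).length := by
    intro j hj
    rw [List.getD_eq_getElem _ _ hj]
    exact hJ _ (List.getElem_mem hj)
  let K := bb.length + Z.length
  let n := (bb ++ W).length
  let L : List (ℕ × ℕ) := ((List.range bb.length).map fun i => (i, K + i)) ++
    ((List.range Z.length).map fun j => (bb.length + j, K + J.getD j 0))
  let φ : Fml := .and (renc θ (bk K n)) (conj (L.map fun p => Fml.eq p.1 p.2))
  have hn : n ≠ 0 := by
    have h1 : n = bb.length + W.length := List.length_append
    omega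
  -- the meaning of the matrix of the formula
  have key : ∀ Z' w : List ℕ, Z'.length = Z.length → w.length = n →
      (Ev B φ (bb ++ Z' ++ w) ↔ Ev B θ w ∧ w.take bb.length = bb ∧ pick w J = Z') := by
    intro Z' w hZ' hw
    have hK : K = (bb ++ Z').length := by
      rw [List.length_append, hZ']
    have hn' : n = bb.length + W.length := List.length_append
    have hL : ∀ p ∈ L, p.1 < (bb ++ Z' ++ w).length ∧ p.2 < (bb ++ Z' ++ w).length := by
      intro p hp
      simp only [List.length_append, hZ', hw]
      rcases List.mem_append.1 hp with hp | hp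
      · rw [List.mem_map] at hp
        obtain ⟨i, hi, rfl⟩ := hp
        rw [List.mem_range] at hi
        simp only [K]
        omega
      · rw [List.mem_map] at hp
        obtain ⟨j, hj, rfl⟩ := hp
        rw [List.mem_range] at hj
        have h1 := hJb j (by rw [hlZ]; exact hj)
        simp only [K]
        change _ ∧ _
        change J.getD j 0 < n at h1
        omega
    have h1 : Ev B φ (bb ++ Z' ++ w) ↔ Ev B (renc θ (bk K n)) (bb ++ Z' ++ w) ∧
        Ev B (conj (L.map fun p => Fml.eq p.1 p.2)) (bb ++ Z' ++ w) := Iff.rfl
    have h2 : pick (bb ++ Z' ++ w) (bk K n) = w := by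
      rw [hK, ← hw]
      exact pick_last _ _
    rw [h1, ev_ren (bk_ne hn) (fun i hi => by
      have := mem_bk hi
      rw [List.length_append, ← hK, hw]
      exact this), h2, ev_eqs _ _ _ hL]
    refine and_congr_right fun _ => ?_
    constructor
    · intro h3
      constructor
      · refine List.ext_getElem (by rw [List.length_take, hw, hn']; omega) fun i h4 h5 => ?_
        have h6 := h3 (i, K + i) (List.mem_append_left _ (List.mem_map.2
          ⟨i, List.mem_range.2 h5, rfl⟩))
        simp only at h6
        rw [hK, getD_app_right, List.append_assoc, getD_app_left _ _ h5,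
          List.getD_eq_getElem _ _ h5, List.getD_eq_getElem _ _ (by rw [hw, hn']; omega)] at h6
        rw [List.getElem_take]
        exact h6.symm
      · refine List.ext_getElem (by simp [pick, hlZ, hZ']) fun j h4 h5 => ?_
        have hjZ : j < Z.length := by rw [← hZ']; exact h5
        have hjJ : j < J.length := by rw [hlZ]; exact hjZ
        have h6 := h3 (bb.length + j, K + J.getD j 0) (List.mem_append_right _ (List.mem_map.2
          ⟨j, List.mem_range.2 hjZ, rfl⟩))
        simp only at h6
        rw [hK, getD_app_right, List.append_assoc, getD_app_right, getD_app_left _ _ h5,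
          List.getD_eq_getElem _ _ h5, List.getD_eq_getElem J _ hjJ] at h6
        unfold pick
        rw [List.getElem_map]
        exact h6.symm
    · rintro ⟨h3, h4⟩ p hp
      rcases List.mem_append.1 hp with hp | hp
      · rw [List.mem_map] at hp
        obtain ⟨i, hi, rfl⟩ := hp
        rw [List.mem_range] at hi
        simp only
        rw [hK, getD_app_right, List.append_assoc, getD_app_left _ _ hi]
        conv_lhs => rw [← h3]
        rw [List.getD_eq_getElem _ _ (by rw [List.length_take, hw, hn']; omega),
          List.getElem_take, List.getD_eq_getElem _ _ (by rw [hw, hn']; omega)]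
      · rw [List.mem_map] at hp
        obtain ⟨j, hj, rfl⟩ := hp
        rw [List.mem_range] at hj
        have hjJ : j < J.length := by rw [hlZ]; exact hj
        have hjZ : j < Z'.length := by rw [hZ']; exact hj
        simp only
        rw [hK, getD_app_right, List.append_assoc, getD_app_right, getD_app_left _ _ hjZ]
        conv_lhs => rw [← h4]
        unfold pick
        rw [List.getD_eq_getElem _ _ (by simpa using hjJ), List.getElem_map,
          List.getD_eq_getElem J _ hjJ]
  have hne : ∀ Z' : List ℕ, bb ++ Z' ≠ [] := fun Z' h0 => hbb (List.append_eq_nil_iff.1 h0).1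
  refine ⟨exs K n φ, ?_, ?_⟩
  · have hK : K = (bb ++ Z).length := List.length_append.symm
    rw [hK, ev_exs _ _ (hne Z)]
    refine ⟨bb ++ W, rfl, ?_⟩
    rw [key Z (bb ++ W) rfl rfl]
    exact ⟨hθ, by simp, hpick⟩
  · intro Z' hZ' hev
    have hK : K = (bb ++ Z').length := by
      rw [List.length_append, hZ']
    rw [hK, ev_exs _ _ (hne Z')] at hev
    obtain ⟨w, hw, hev⟩ := hev
    rw [key Z' w hZ' hw] at hev
    obtain ⟨h1, h2, h3⟩ := hev
    obtain ⟨W', rfl⟩ : ∃ W', w = bb ++ W' := by
      refine ⟨w.drop bb.length, ?_⟩
      conv_lhs => rw [← List.take_append_drop bb.length w, h2]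
    have hW' : W'.length = W.length := by
      have h4 : n = bb.length + W.length := List.length_append
      rw [List.length_append] at hw
      omega
    have h5 := hiso W' hW' h1
    have h6 := h5.pick (I := bk 0 bb.length ++ J) (by
      intro h0
      exact bk_ne (by omega) (List.append_eq_nil_iff.1 h0).1) (by
      intro i hi
      rcases List.mem_append.1 hi with hi | hi
      · have := mem_bk hi
        rw [List.length_append]
        omega
      · have := hJ i hi
        rw [List.length_append] at this ⊢
        omega)
    have h7 : ∀ a I J : List ℕ, pick a (I ++ J) = pick a I ++ pick a J := by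
      intro a I J
      simp [pick]
    rw [h7, h7, pick_first, pick_first, h3, hpick] at h6
    exact h6

end Pool.Agent.H97.EM
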