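import Pool.Agent.H97.EM.Hen2a

/-! The model of a Henkin set: term model. -/

namespace Pool.Agent.H97.EM

private theorem upd_comp (f : ℕ → ℕ) (ρ : ℕ → ℕ) (i j : ℕ) :
    f ∘ Function.update ρ i j = Function.update (f ∘ ρ) i (f j) := by
  funext x
  by_cases hx : x = i
  · subst hx; simp
  · simp [Function.update_of_ne hx]

/-- `P φ ρ`: the formula `φ(v ∘ ρ)` is in `Γ`. -/
private def PP (M : Str) (Γ : Set Fml) (φ : Fml) (ρ : ℕ → ℕ) : Prop :=
  ∃ ψ ∈ Γ, ∀ v, Sat M ψ v ↔ Sat M φ (v ∘ ρ)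

private theorem pp_of {M : Str} {Γ : Set Fml} (h : Hen M Γ) {φ ψ : Fml} {ρ : ℕ → ℕ}
    (hp : PP M Γ φ ρ) (hψ : ∀ v, Sat M ψ v ↔ Sat M φ (v ∘ ρ)) : ψ ∈ Γ := by
  obtain ⟨χ, hχ, h1⟩ := hp
  refine h.cons (F := [χ]) (by simpa using hχ) ?_
  intro v hv
  rw [hψ, ← h1]
  exact hv χ (by simp)

private theorem pp_neg {M : Str} {Γ : Set Fml} (h : Hen M Γ) {φ : Fml} {ρ : ℕ → ℕ} :
    PP M Γ φ.neg ρ ↔ ¬ PP M Γ φ ρ := by
  obtain ⟨φ', h'⟩ := ren_exists φ ρ
  have e1 : PP M Γ φ.neg ρ ↔ φ'.neg ∈ Γ := by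
    constructor
    · intro hp
      exact pp_of h hp (fun v => by simp only [Sat]; rw [h' M v])
    · intro hp
      exact ⟨_, hp, fun v => by simp only [Sat]; rw [h' M v]⟩
  have e2 : PP M Γ φ ρ ↔ φ' ∈ Γ := by
    constructor
    · intro hp
      exact pp_of h hp (fun v => h' M v)
    · intro hp
      exact ⟨_, hp, fun v => h' M v⟩
  rw [e1, e2, h.neg_iff]

private theorem pp_and {M : Str} {Γ : Set Fml} (h : Hen M Γ) {φ ψ : Fml} {ρ : ℕ → ℕ} :
    PP M Γ (φ.and ψ) ρ ↔ PP M Γ φ ρ ∧ PP M Γ ψ ρ := by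
  obtain ⟨φ', h1⟩ := ren_exists φ ρ
  obtain ⟨ψ', h2⟩ := ren_exists ψ ρ
  constructor
  · rintro ⟨χ, hχ, h3⟩
    constructor
    · refine ⟨φ', h.cons (F := [χ]) (by simpa using hχ) ?_, fun v => h1 M v⟩
      intro v hv
      have h4 := (h3 v).1 (hv χ (by simp))
      rw [h1 M v]
      exact h4.1
    · refine ⟨ψ', h.cons (F := [χ]) (by simpa using hχ) ?_, fun v => h2 M v⟩
      intro v hv
      have h4 := (h3 v).1 (hv χ (by simp))
      rw [h2 M v]
      exact h4.2
  · rintro ⟨hp, hq⟩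
    have h3 : φ' ∈ Γ := pp_of h hp (fun v => h1 M v)
    have h4 : ψ' ∈ Γ := pp_of h hq (fun v => h2 M v)
    refine ⟨φ'.and ψ', h.cons (F := [φ', ψ']) ?_ ?_, ?_⟩
    · intro x hx
      simp only [List.mem_cons, List.not_mem_nil, or_false] at hx
      rcases hx with rfl | rfl
      · exact h3
      · exact h4
    · intro v hv
      exact ⟨hv _ (by simp), hv _ (by simp)⟩
    · intro v
      simp only [Sat]
      rw [h1 M v, h2 M v]

private theorem pp_ex {M : Str} {Γ : Set Fml} (h : Hen M Γ) {φ : Fml} {i : ℕ} {ρ : ℕ → ℕ} :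
    PP M Γ (.ex i φ) ρ ↔ ∃ j, PP M Γ φ (Function.update ρ i j) := by
  constructor
  · rintro ⟨ψ, hm, hψ⟩
    obtain ⟨j, hj⟩ := h.wit' i φ ρ hψ hm
    obtain ⟨χ, hχ⟩ := ren_exists φ (Function.update ρ i j)
    exact ⟨j, χ, hj χ (fun v => hχ M v), fun v => hχ M v⟩
  · rintro ⟨j, χ, hm, hχ⟩
    obtain ⟨ψ, hψ⟩ := ren_exists (.ex i φ) ρ
    refine ⟨ψ, h.cons (F := [χ]) (by simpa using hm) ?_, fun v => hψ M v⟩
    intro v hv
    have h3 := (hχ v).1 (hv χ (by simp))
    rw [hψ M v]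
    rw [upd_comp] at h3
    exact ⟨v j, h3⟩

private theorem e_exists {M : Str} {Γ : Set Fml} (h : Hen M Γ) :
    ∃ e : ℕ → ℕ, Function.Surjective e ∧ ∀ i j, e i = e j ↔ Fml.eq i j ∈ Γ := by
  classical
  have hrefl : ∀ i, Fml.eq i i ∈ Γ := fun i =>
    h.cons (F := []) (by simp) (fun v _ => rfl)
  have hsymm : ∀ i j, Fml.eq i j ∈ Γ → Fml.eq j i ∈ Γ := fun i j hij =>
    h.cons (F := [Fml.eq i j]) (by simpa using hij)
      (fun v hv => (hv (Fml.eq i j) (by simp) : v i = v j).symm)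
  have htrans : ∀ i j k, Fml.eq i j ∈ Γ → Fml.eq j k ∈ Γ → Fml.eq i k ∈ Γ := by
    intro i j k hij hjk
    refine h.cons (F := [Fml.eq i j, Fml.eq j k]) ?_ ?_
    · intro x hx
      simp only [List.mem_cons, List.not_mem_nil, or_false] at hx
      rcases hx with rfl | rfl
      · exact hij
      · exact hjk
    · intro v hv
      have h1 : v i = v j := hv (Fml.eq i j) (by simp)
      have h2 : v j = v k := hv (Fml.eq j k) (by simp)
      exact h1.trans h2
  let S : Setoid ℕ :=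
    { r := fun i j => Fml.eq i j ∈ Γ
      iseqv := ⟨hrefl, fun {i j} => hsymm i j, fun {i j k} => htrans i j k⟩ }
  have : Countable (Quotient S) := inferInstance
  have : Infinite (Quotient S) := by
    by_contra hfin
    rw [not_infinite_iff_finite] at hfin
    have := Fintype.ofFinite (Quotient S)
    obtain ⟨j, hj⟩ := h.inf ((Finset.univ : Finset (Quotient S)).toList.map Quotient.out)
    have h1 := hj (Quotient.out (Quotient.mk S j)) (by
      apply List.mem_map_of_mem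
      simp)
    rw [h.neg_iff] at h1
    apply h1
    have h2 : Quotient.mk S (Quotient.out (Quotient.mk S j)) = Quotient.mk S j :=
      Quotient.out_eq _
    have h3 : S.r (Quotient.out (Quotient.mk S j)) j := Quotient.exact h2
    exact hsymm _ _ h3
  obtain ⟨d⟩ := nonempty_denumerable (Quotient S)
  refine ⟨fun i => (Denumerable.eqv (Quotient S)) (Quotient.mk S i), ?_, ?_⟩
  · intro n
    obtain ⟨i, hi⟩ := Quotient.exists_rep ((Denumerable.eqv (Quotient S)).symm n)
    refine ⟨i, ?_⟩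
    show (Denumerable.eqv (Quotient S)) (Quotient.mk S i) = n
    rw [hi]; simp
  · intro i j
    show (Denumerable.eqv (Quotient S)) (Quotient.mk S i) =
      (Denumerable.eqv (Quotient S)) (Quotient.mk S j) ↔ _
    rw [(Denumerable.eqv (Quotient S)).injective.eq_iff]
    constructor
    · intro h1
      exact (Quotient.exact h1 : S.r i j)
    · intro h1
      exact Quotient.sound (h1 : S.r i j)

private theorem rel_congr {M : Str} {Γ : Set Fml} (h : Hen M Γ) {r : ℕ} {I J : List ℕ}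
    (hIJ : List.Forall₂ (fun i j => Fml.eq i j ∈ Γ) I J) (hI : Fml.rel r I ∈ Γ) :
    Fml.rel r J ∈ Γ := by
  refine h.cons (F := Fml.rel r I :: (I.zip J).map fun p => Fml.eq p.1 p.2) ?_ ?_
  · intro φ hφ
    rcases List.mem_cons.1 hφ with rfl | hφ
    · exact hI
    · obtain ⟨p, hp, rfl⟩ := List.mem_map.1 hφ
      exact (List.forall₂_zip hIJ hp)
  · intro v hv
    have h1 : M r (I.map v) := hv (Fml.rel r I) (by simp)
    have h2 : I.map v = J.map v := by
      have h3 : ∀ p ∈ I.zip J, v p.1 = v p.2 := by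
        intro p hp
        exact hv (Fml.eq p.1 p.2) (List.mem_cons_of_mem _ (List.mem_map.2 ⟨p, hp, rfl⟩))
      clear hv h1 hI
      induction hIJ with
      | nil => rfl
      | cons hab _ ih =>
        simp only [List.map_cons]
        rw [ih (fun p hp => h3 p (by simp [hp]))]
        congr 1
        exact h3 (_, _) (by simp)
    show M r (J.map v)
    rw [← h2]; exact h1

/-- The term model: classes of variables, `i ~ j` iff `x_i = x_j` is in `Γ`; infinitely many
classes, numbered by `ℕ`; truth lemma by induction on `φ` for all renamings. -/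
theorem Hen.model {M : Str} {Γ : Set Fml} (h : Hen M Γ) :
    ∃ (K : Str) (e : ℕ → ℕ), Function.Surjective e ∧ ∀ φ, φ ∈ Γ ↔ Sat K φ e := by
  obtain ⟨e, hes, he⟩ := e_exists h
  let K : Str := fun r l => ∃ I : List ℕ, I.map e = l ∧ Fml.rel r I ∈ Γ
  have key : ∀ (φ : Fml) (ρ : ℕ → ℕ), PP M Γ φ ρ ↔ Sat K φ (e ∘ ρ) := by
    intro φ
    induction φ with
    | eq i j =>
      intro ρ
      have e1 : PP M Γ (.eq i j) ρ ↔ Fml.eq (ρ i) (ρ j) ∈ Γ :=
        ⟨fun hp => pp_of h hp (fun v => Iff.rfl), fun hp => ⟨_, hp, fun v => Iff.rfl⟩⟩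
      rw [e1, ← he]
      rfl
    | rel r l =>
      intro ρ
      have e1 : PP M Γ (.rel r l) ρ ↔ Fml.rel r (l.map ρ) ∈ Γ := by
        have h0 : ∀ v, Sat M (.rel r (l.map ρ)) v ↔ Sat M (.rel r l) (v ∘ ρ) := by
          intro v
          simp only [Sat, List.map_map]
        exact ⟨fun hp => pp_of h hp h0, fun hp => ⟨_, hp, h0⟩⟩
      rw [e1]
      constructor
      · intro h1
        exact ⟨l.map ρ, by simp, h1⟩
      · rintro ⟨I, hI, h1⟩
        refine rel_congr h ?_ h1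
        have h2 : I.map e = (l.map ρ).map e := by rw [hI]; simp
        have h3 : List.Forall₂ (fun a b => e a = e b) I (l.map ρ) := by
          have := h2
          rw [← List.forall₂_eq_eq_eq, List.forall₂_map_left_iff, List.forall₂_map_right_iff] at this
          exact this
        exact h3.imp (fun a b hab => (he a b).1 hab)
    | neg φ ih =>
      intro ρ
      rw [pp_neg h, ih]
      rfl
    | and φ ψ ih1 ih2 =>
      intro ρ
      rw [pp_and h, ih1, ih2]
      rfl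
    | ex i φ ih =>
      intro ρ
      rw [pp_ex h]
      constructor
      · rintro ⟨j, hj⟩
        rw [ih, upd_comp] at hj
        exact ⟨e j, hj⟩
      · rintro ⟨a, ha⟩
        obtain ⟨j, rfl⟩ := hes a
        refine ⟨j, ?_⟩
        rw [ih, upd_comp]
        exact ha
  refine ⟨K, e, hes, fun φ => ?_⟩
  have h1 := key φ id
  rw [Function.comp_id] at h1
  rw [← h1]
  exact ⟨fun hp => ⟨φ, hp, fun v => Iff.rfl⟩, fun hp => pp_of h hp (fun v => Iff.rfl)⟩

theorem Hen.isModel {M K : Str} {Γ T : Set Fml} {e : ℕ → ℕ} (h : Hen M Γ)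
    (hT : ∀ φ ∈ T, φ.fv = ∅) (hM : IsModel M T) (hK : ∀ φ, φ ∈ Γ ↔ Sat K φ e) : IsModel K T := by
  intro φ hφ v
  have h1 : φ ∈ Γ := h.cons (F := []) (by simp) (fun v _ => hM φ hφ v)
  have h2 := (hK φ).1 h1
  refine (sat_congr K φ v e ?_).2 h2
  rw [hT φ hφ]
  simp

end Pool.Agent.H97.EM
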