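import Pool.Agent.H97.EM.Hen1
import Pool.Agent.H97.EM.Hen2b

/-! Compactness for finitely many variables. -/

namespace Pool.Agent.H97.EM

/-- `Con δ` := every finite subset of `Γ0` together with `δ` is satisfiable in `M`. -/
private theorem conP_aux {M : Str} (k : ℕ)
    (Γ0 : Set Fml) (hfv : ∀ φ ∈ Γ0, ∀ i ∈ φ.fv, i < k)
    (hfin : ∀ F : List Fml, (∀ φ ∈ F, φ ∈ Γ0) → ∃ v, ∀ φ ∈ F, Sat M φ v) :
    ConP M k (fun δ => ∀ F : List Fml, (∀ φ ∈ F, φ ∈ Γ0) →
      ∃ v, Sat M δ v ∧ ∀ φ ∈ F, Sat M φ v) where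
  top := by
    intro F hF
    obtain ⟨v, hv⟩ := hfin F hF
    exact ⟨v, sat_top M v, hv⟩
  sat := by
    intro δ hδ
    obtain ⟨v, hv, -⟩ := hδ [] (by simp)
    exact ⟨v, hv⟩
  split := by
    intro δ φ hδ
    by_contra hcon
    push Not at hcon
    obtain ⟨⟨F1, hF1, h1⟩, ⟨F2, hF2, h2⟩⟩ := hcon
    obtain ⟨v, hv, hvF⟩ := hδ (F1 ++ F2) (by
      intro ψ hψ
      rcases List.mem_append.1 hψ with h | h
      · exact hF1 ψ h
      · exact hF2 ψ h)
    by_cases hφ : Sat M φ v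
    · obtain ⟨ψ, hψ, hψ'⟩ := h1 v ⟨hv, hφ⟩
      exact hψ' (hvF ψ (List.mem_append_left _ hψ))
    · obtain ⟨ψ, hψ, hψ'⟩ := h2 v ⟨hv, hφ⟩
      exact hψ' (hvF ψ (List.mem_append_right _ hψ))
  hen := by
    intro δ φ i n hkn hin hδn hφn hδ himp F hF
    obtain ⟨v, hv, hvF⟩ := hδ F hF
    obtain ⟨a, ha⟩ := himp v hv
    refine ⟨Function.update v n a, ⟨?_, a, ?_, ?_⟩, ?_⟩
    · refine (sat_congr M δ v _ ?_).1 hv
      intro j hj
      rw [Function.update_of_ne (Nat.ne_of_lt (hδn j hj))]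
    · show Function.update (Function.update v n a) i a i
        = Function.update (Function.update v n a) i a n
      rw [Function.update_self, Function.update_of_ne (Nat.ne_of_gt hin), Function.update_self]
    · refine (sat_congr M φ (Function.update v i a) _ ?_).1 ha
      intro j hj
      by_cases hji : j = i
      · subst hji
        rw [Function.update_self, Function.update_self]
      · rw [Function.update_of_ne hji, Function.update_of_ne hji,
          Function.update_of_ne (Nat.ne_of_lt (hφn j hj))]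
    · intro ψ hψ
      refine (sat_congr M ψ v _ ?_).1 (hvF ψ hψ)
      intro j hj
      rw [Function.update_of_ne (Nat.ne_of_lt (lt_of_lt_of_le (hfv ψ (hF ψ hψ) j hj) hkn))]

/-- `Con δ` := every finite subset of `Γ0` together with `δ` is satisfiable in `M`. -/
theorem compact {M : Str} {T : Set Fml} (hT : ∀ φ ∈ T, φ.fv = ∅) (hM : IsModel M T) (k : ℕ)
    (Γ0 : Set Fml) (hfv : ∀ φ ∈ Γ0, ∀ i ∈ φ.fv, i < k)
    (hfin : ∀ F : List Fml, (∀ φ ∈ F, φ ∈ Γ0) → ∃ v, ∀ φ ∈ F, Sat M φ v) :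
    ∃ K : Str, IsModel K T ∧ ∃ e : ℕ → ℕ, Function.Surjective e ∧ ∀ φ ∈ Γ0, Sat K φ e := by
  obtain ⟨Γ, hΓ, hcon, -⟩ := completion (conP_aux (M := M) k Γ0 hfv hfin)
  obtain ⟨K, e, he, hK⟩ := hΓ.model
  refine ⟨K, hΓ.isModel hT hM hK, e, he, fun φ hφ => ?_⟩
  rcases hΓ.comp φ with h | h
  · exact (hK φ).1 h
  · exfalso
    obtain ⟨δ, hδ, himp⟩ := hcon [φ.neg] (by
      intro ψ hψ
      rw [List.mem_singleton.1 hψ]
      exact h)
    obtain ⟨v, hv, hvF⟩ := hδ [φ] (by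
      intro ψ hψ
      rw [List.mem_singleton.1 hψ]
      exact hφ)
    exact himp v hv φ.neg (List.mem_singleton.2 rfl) (hvF φ (List.mem_singleton.2 rfl))

end Pool.Agent.H97.EM
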