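import Mathlib

/-! Unbounded search with a guarantee. -/

namespace Pool.Agent.H97.EM

/-- (`Computable.partrec`, `Partrec.rfind`, `Partrec.of_eq`.) -/
theorem find_comp {α : Type*} [Primcodable α] {P : α → ℕ → Bool} (hP : Computable₂ P)
    (h : ∀ a, ∃ n, P a n = true) : Computable fun a => Nat.find (h a) := by
  have h1 : Partrec fun a => Nat.rfind (fun n => (Part.some (P a n) : Part Bool)) :=
    Partrec.rfind (p := fun a n => (Part.some (P a n) : Part Bool)) hP.partrec₂
  refine Partrec.of_eq (f := fun a => Nat.rfind (fun n => (Part.some (P a n) : Part Bool)))
    (g := fun a => (Part.some (Nat.find (h a)) : Part ℕ)) h1 ?_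
  intro a
  rw [Part.eq_some_iff]
  rw [Nat.mem_rfind]
  constructor
  · have := Nat.find_spec (h a)
    rw [this]
    exact Part.mem_some _
  · intro m hm
    have := Nat.find_min (h a) hm
    have h2 : P a m = false := by
      cases hb : P a m
      · rfl
      · exact absurd hb this
    rw [h2]
    exact Part.mem_some _

/-- A computable predicate is decided by a computable function. -/
theorem comp_decide {α : Type*} [Primcodable α] {p : α → Prop} (hp : ComputablePred p) :
    ∃ f : α → Bool, Computable f ∧ ∀ a, f a = true ↔ p a := by
  obtain ⟨D, hD⟩ := hp
  exact ⟨fun a => decide (p a), hD, fun a => by simp⟩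

theorem compPred_of {α : Type*} [Primcodable α] {p : α → Prop} {f : α → Bool} (hf : Computable f)
    (h : ∀ a, f a = true ↔ p a) : ComputablePred p := by
  refine ⟨fun a => decidable_of_iff _ (h a), ?_⟩
  refine hf.of_eq ?_
  intro a
  rw [Bool.eq_iff_iff]
  simp [h a]

/-- Bounded universal quantifier over a computable predicate. -/
theorem ball_comp {α : Type*} [Primcodable α] {P : α → ℕ → Bool} (hP : Computable₂ P)
    {n : α → ℕ} (hn : Computable n) :
    Computable fun a => (List.range (n a)).all fun k => P a k := by
  have h1 : Computable fun a => (Nat.rec (motive := fun _ => Bool) true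
      (fun k ih => ih && P a k) (n a) : Bool) := by
    refine Computable.nat_rec (f := n) (g := fun _ => true)
      (h := fun a (q : ℕ × Bool) => q.2 && P a q.1) hn (Computable.const true) ?_
    have h2 : Computable fun x : α × (ℕ × Bool) => (x.2.2, P x.1 x.2.1) :=
      Computable.pair (Computable.snd.comp Computable.snd)
        (hP.comp Computable.fst (Computable.fst.comp Computable.snd))
    exact (Primrec.and.to_comp.comp (Computable.snd.comp Computable.snd)
        (hP.comp Computable.fst (Computable.fst.comp Computable.snd)) :
        Computable fun x : α × (ℕ × Bool) => (x.2.2 && P x.1 x.2.1))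
  refine h1.of_eq ?_
  intro a
  generalize n a = N
  induction N with
  | zero => simp
  | succ N ih =>
    rw [List.range_succ, List.all_append, ← ih]
    simp

/-- Bounded search. -/
theorem bfind_comp {α : Type*} [Primcodable α] {P : α → ℕ → Bool} (hP : Computable₂ P)
    {n : α → ℕ} (hn : Computable n) :
    Computable fun a => (List.range (n a)).find? fun k => P a k := by
  have h1 : Computable fun a => (Nat.rec (motive := fun _ => Option ℕ) none
      (fun k ih => (Option.casesOn ih (cond (P a k) (some k) none) fun y => some y : Option ℕ))
      (n a) : Option ℕ) := by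
    refine Computable.nat_rec (f := n) (g := fun _ => (none : Option ℕ))
      (h := fun a (q : ℕ × Option ℕ) =>
        (Option.casesOn q.2 (cond (P a q.1) (some q.1) none) fun y => some y : Option ℕ))
      hn (Computable.const none) ?_
    refine (Computable.option_casesOn (o := fun x : α × (ℕ × Option ℕ) => x.2.2)
      (f := fun x : α × (ℕ × Option ℕ) => cond (P x.1 x.2.1) (some x.2.1) none)
      (g := fun (_ : α × (ℕ × Option ℕ)) (y : ℕ) => some y)
      (Computable.snd.comp Computable.snd) ?_ ?_)
    · exact Computable.cond (hP.comp Computable.fst (Computable.fst.comp Computable.snd))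
        (Computable.option_some.comp (Computable.fst.comp Computable.snd)) (Computable.const none)
    · exact (Computable.option_some.comp Computable.snd).to₂
  refine h1.of_eq ?_
  intro a
  generalize n a = N
  induction N with
  | zero => simp
  | succ N ih =>
    rw [List.range_succ, List.find?_append, ← ih]
    simp only []
    generalize (Nat.rec (motive := fun _ => Option ℕ) none
      (fun k ih => (Option.casesOn ih (cond (P a k) (some k) none) fun y => some y : Option ℕ))
      N : Option ℕ) = w
    cases w with
    | none =>
      cases hb : P a N <;> simp [hb]
    | some y => simp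

end Pool.Agent.H97.EM
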