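import Pool.Agent.H97.EM.Sem

/-! The free variables are computable. -/

namespace Pool.Agent.H97.EM

/-- The free variables as a list with repetitions. -/
private def fvl : Fml → List ℕ
  | .eq i j => [i, j]
  | .rel _ l => l
  | .neg φ => fvl φ
  | .and φ ψ => fvl φ ++ fvl ψ
  | .ex i φ => (fvl φ).filter (fun a => a ≠ i)

private theorem mem_fvl (φ : Fml) : ∀ i, i ∈ fvl φ ↔ i ∈ φ.fv := by
  induction φ with
  | eq a b => intro i; simp [fvl, Fml.fv]
  | rel r l => intro i; simp [fvl, Fml.fv]
  | neg φ ih => intro i; simp only [fvl, Fml.fv]; exact ih i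
  | and φ ψ ih1 ih2 => intro i; simp [fvl, Fml.fv, ih1, ih2]
  | ex j φ ih => intro i; simp [fvl, Fml.fv, ih, and_comm]

/-- The step function of the course of values recursion. -/
private def stp (L : List (List ℕ)) : List ℕ :=
  if L.length % 5 = 0 then [(L.length / 5).unpair.1, (L.length / 5).unpair.2]
  else if L.length % 5 = 1 then Denumerable.ofNat (List ℕ) (L.length / 5).unpair.2
  else if L.length % 5 = 2 then L.getD (L.length / 5) []
  else if L.length % 5 = 3 then
    L.getD (L.length / 5).unpair.1 [] ++ L.getD (L.length / 5).unpair.2 []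
  else (L.getD (L.length / 5).unpair.2 []).filter (fun a => a ≠ (L.length / 5).unpair.1)

private theorem getD_map_range (f : ℕ → List ℕ) {n q : ℕ} (h : q < n) :
    ((List.range n).map f).getD q [] = f q := by
  rw [List.getD_eq_getElem?_getD]
  simp [h]

private theorem stp_map (n : ℕ) :
    stp ((List.range n).map fun m => fvl (Fml.dec m)) = fvl (Fml.dec n) := by
  have hl := Nat.unpair_left_le (n / 5)
  have hr := Nat.unpair_right_le (n / 5)
  unfold stp
  simp only [List.length_map, List.length_range]
  rw [Fml.dec]
  by_cases h0 : n % 5 = 0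
  · simp only [h0, if_true, fvl]
  by_cases h1 : n % 5 = 1
  · simp only [h1, if_true, fvl]
    rfl
  by_cases h2 : n % 5 = 2
  · rw [getD_map_range _ (show n / 5 < n by omega)]
    simp only [h0, h1, h2, if_true, if_false, dif_pos, fvl]
    rfl
  by_cases h3 : n % 5 = 3
  · rw [getD_map_range _ (show (n / 5).unpair.1 < n by omega),
      getD_map_range _ (show (n / 5).unpair.2 < n by omega)]
    rw [if_neg h0, if_neg h1, if_neg h2, if_pos h3, if_neg h0, if_neg h1, dif_neg h2, dif_pos h3]
    rfl
  · have h4 : n % 5 = 4 := by omega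
    rw [getD_map_range _ (show (n / 5).unpair.2 < n by omega)]
    rw [if_neg h0, if_neg h1, if_neg h2, if_neg h3, if_neg h0, if_neg h1, dif_neg h2, dif_neg h3,
      dif_pos h4]
    rfl

private theorem stp_primrec : Primrec stp := by
  have hn : Primrec fun L : List (List ℕ) => L.length := Primrec.list_length
  have hm : Primrec fun L : List (List ℕ) => L.length % 5 :=
    Primrec.nat_mod.comp hn (Primrec.const 5)
  have hq : Primrec fun L : List (List ℕ) => L.length / 5 :=
    Primrec.nat_div.comp hn (Primrec.const 5)
  have hu : Primrec fun L : List (List ℕ) => (L.length / 5).unpair := Primrec.unpair.comp hq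
  have hu1 : Primrec fun L : List (List ℕ) => (L.length / 5).unpair.1 := Primrec.fst.comp hu
  have hu2 : Primrec fun L : List (List ℕ) => (L.length / 5).unpair.2 := Primrec.snd.comp hu
  have hc : ∀ k : ℕ, PrimrecPred fun L : List (List ℕ) => L.length % 5 = k := fun k =>
    PrimrecRel.comp Primrec.eq hm (Primrec.const k)
  have hne : PrimrecRel fun a b : ℕ => a ≠ b := PrimrecPred.not Primrec.eq
  refine Primrec.ite (hc 0) ?_ (Primrec.ite (hc 1) ?_ (Primrec.ite (hc 2) ?_
    (Primrec.ite (hc 3) ?_ ?_)))
  · exact Primrec.list_cons.comp hu1 (Primrec.list_cons.comp hu2 (Primrec.const []))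
  · exact (Primrec.ofNat (List ℕ)).comp hu2
  · exact (Primrec.list_getD []).comp Primrec.id hq
  · exact Primrec.list_append.comp ((Primrec.list_getD []).comp Primrec.id hu1)
      ((Primrec.list_getD []).comp Primrec.id hu2)
  · exact hne.listFilter.comp ((Primrec.list_getD []).comp Primrec.id hu2) hu1

private theorem fvl_primrec : Primrec fvl := by
  have h1 : Primrec₂ fun (_ : Unit) (n : ℕ) => fvl (Fml.dec n) := by
    refine Primrec.nat_strong_rec (fun (_ : Unit) (n : ℕ) => fvl (Fml.dec n))
      (g := fun _ L => some (stp L)) ?_ ?_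
    · exact Primrec.option_some.comp (stp_primrec.comp Primrec.snd)
    · intro a n
      exact congrArg some (stp_map n)
  have h2 : Primrec fun φ : Fml => fvl (Fml.dec (Encodable.encode φ)) :=
    h1.comp (Primrec.const ()) Primrec.encode
  refine h2.of_eq fun φ => ?_
  rw [encode_eq, Fml.dec_enc]

/-- Course of values recursion on the Goedel number (`Primrec.nat_strong_rec`): for instance
compute a list of the free variables (`Fml.fv` as a list with repetitions, erasing by filter),
or directly the truth value of `∀ i ∈ φ.fv, i < n` through: the list of all `i ≤ encode φ` which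
are free in `φ`. -/
theorem fv_lt_primrec : PrimrecPred fun p : Fml × ℕ => ∀ i ∈ p.1.fv, i < p.2 := by
  have h1 : PrimrecRel fun (L : List ℕ) (b : ℕ) => ∀ a ∈ L, a < b :=
    PrimrecRel.forall_mem_list Primrec.nat_lt
  have h2 : PrimrecPred fun p : Fml × ℕ => ∀ i ∈ fvl p.1, i < p.2 :=
    h1.comp (fvl_primrec.comp Primrec.fst) Primrec.snd
  refine h2.of_eq fun p => ?_
  constructor
  · intro h i hi
    exact h i ((mem_fvl p.1 i).2 hi)
  · intro h i hi
    exact h i ((mem_fvl p.1 i).1 hi)

end Pool.Agent.H97.EM
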