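import Pool.Agent.H97.EM.Prim
import Pool.Agent.H97.EM.Find
import Pool.Agent.H97.EM.FvP

/-! Official and internal notions. -/

namespace Pool.Agent.H97.EM

private def pad (p : Fml × List ℕ) : Fml × List ℕ :=
  (p.1, p.2 ++ (List.range (Encodable.encode p.1 + 1)).map fun _ => p.2.headD 0)

private theorem pad_primrec : Primrec pad := by
  have h1 : Primrec fun p : Fml × List ℕ => List.range (Encodable.encode p.1 + 1) :=
    Primrec.list_range.comp (Primrec.succ.comp (Primrec.encode.comp Primrec.fst))
  have h2 : Primrec fun p : Fml × List ℕ => p.2.headD 0 := by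
    refine (Primrec.option_getD.comp (Primrec.list_head?.comp Primrec.snd)
      (Primrec.const 0)).of_eq ?_
    intro p
    cases p.2 <;> rfl
  have h3 : Primrec fun p : Fml × List ℕ =>
      (List.range (Encodable.encode p.1 + 1)).map fun _ => p.2.headD 0 :=
    Primrec.list_map h1 (h2.comp Primrec.fst).to₂
  exact Primrec.pair Primrec.fst (Primrec.list_append.comp Primrec.snd h3)

private theorem holds_pad (N : Str) (p : Fml × List ℕ) :
    Holds N (pad p).1 (pad p).2 ↔ Ev N p.1 p.2 := by
  obtain ⟨φ, a⟩ := p
  have hlen : (pad (φ, a)).2.length = a.length + (Encodable.encode φ + 1) := by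
    simp [pad]
  have hget : ∀ i ∈ φ.fv, (pad (φ, a)).2.getD i 0 = ext a i := by
    intro i hi
    have hle := fv_le φ i hi
    simp only [pad, ext]
    rcases lt_or_ge i a.length with h | h
    · rw [List.getD_append _ _ _ _ h, List.getD_eq_getElem _ _ h, List.getD_eq_getElem _ _ h]
    · rw [List.getD_append_right _ _ _ _ h, List.getD_eq_default _ _ h]
      rw [List.getD_eq_getElem _ _ (by simp; omega)]
      simp
  have h0 : (pad (φ, a)).1 = φ := rfl
  simp only [Holds, Ev]
  rw [h0]
  rw [sat_congr N φ (fun i => (pad (φ, a)).2.getD i 0) (ext a) hget]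
  constructor
  · exact fun h => h.2
  · intro h
    refine ⟨fun i hi => ?_, h⟩
    have hle := fv_le φ i hi
    rw [hlen]
    omega

private theorem holds_iff_ev (N : Str) (φ : Fml) (a : List ℕ) :
    Holds N φ a ↔ (∀ i ∈ φ.fv, i < a.length) ∧ Ev N φ a := by
  refine and_congr_right fun h => ?_
  refine sat_congr N φ _ _ fun i hi => ?_
  have hl := h i hi
  simp only [ext]
  rw [List.getD_eq_getElem _ _ hl, List.getD_eq_getElem _ _ hl]

/-- For lists which are long enough `Ev` and `Holds` agree; pad `a` with its head to the length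
`encode φ + 1`. -/
theorem compStr_of_holds {N : Str}
    (h : ComputablePred fun p : Fml × List ℕ => Holds N p.1 p.2) : CompStr N := by
  obtain ⟨f, hf, hff⟩ := comp_decide h
  refine compPred_of (f := fun p : Fml × List ℕ => f (pad p)) (hf.comp pad_primrec.to_comp) ?_
  intro p
  rw [hff]
  exact holds_pad N p

/-- Converse: `Holds N φ a` iff the free variables are below `a.length` and `Ev N φ a`
(`a ≠ []`; for `a = []` and no free variables `Ev N φ []` is the truth of the sentence). -/
theorem holds_of_compStr {N : Str} (h : CompStr N) :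
    ComputablePred fun p : Fml × List ℕ => Holds N p.1 p.2 := by
  obtain ⟨f, hf, hff⟩ := comp_decide h
  obtain ⟨D, hD⟩ := fv_lt_primrec
  have h1 : Primrec fun p : Fml × List ℕ => decide (∀ i ∈ p.1.fv, i < p.2.length) :=
    (hD.comp (Primrec.pair Primrec.fst (Primrec.list_length.comp Primrec.snd))).of_eq
      fun p => by congr
  refine compPred_of (f := fun p : Fml × List ℕ =>
    decide (∀ i ∈ p.1.fv, i < p.2.length) && f p) (Primrec.and.to_comp.comp h1.to_comp hf) ?_
  intro p
  rw [Bool.and_eq_true, hff, decide_eq_true_iff]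
  exact (holds_iff_ev N p.1 p.2).symm

theorem decModel_of_iso {M N : Str} (h : Iso M N) (hN : CompStr N) : DecModel M :=
  ⟨N, h, holds_of_compStr hN⟩

theorem exists_compStr {M : Str} (h : DecModel M) : ∃ N, Iso M N ∧ CompStr N := by
  obtain ⟨N, hi, hN⟩ := h
  exact ⟨N, hi, compStr_of_holds hN⟩

end Pool.Agent.H97.EM
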