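import Pool.Agent.H97.EM.Enu1

/-! From a decidable enumeration with repetitions to a decidable copy. -/

namespace Pool.Agent.H97.EM

private theorem comp_map {f : ℕ → ℕ} (hf : Computable f) :
    Computable fun l : List ℕ => l.map f := by
  have h1 : Computable₂ fun (l : List ℕ) (p : ℕ × List ℕ) =>
      p.2 ++ [f (l.getD p.1 0)] := by
    have ha : Computable fun q : List ℕ × (ℕ × List ℕ) => q.1.getD q.2.1 0 :=
      (Primrec.list_getD 0).to_comp.comp Computable.fst (Computable.fst.comp Computable.snd)
    exact Computable.list_append.comp (Computable.snd.comp Computable.snd)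
      (Computable.list_cons.comp (hf.comp ha) (Computable.const []))
  have h2 : Computable fun l : List ℕ =>
      (Nat.rec [] (fun k acc => acc ++ [f (l.getD k 0)]) l.length : List ℕ) :=
    Computable.nat_rec (f := fun l : List ℕ => l.length) (g := fun _ => ([] : List ℕ))
      (h := fun l p => p.2 ++ [f (l.getD p.1 0)])
      Computable.list_length (Computable.const []) h1
  refine h2.of_eq fun l => ?_
  have key : ∀ n, n ≤ l.length →
      (Nat.rec [] (fun k acc => acc ++ [f (l.getD k 0)]) n : List ℕ) = (l.take n).map f := by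
    intro n
    induction n with
    | zero => intro _; simp
    | succ n ih =>
      intro hn
      have hn' : n < l.length := hn
      show (Nat.rec [] (fun k acc => acc ++ [f (l.getD k 0)]) n : List ℕ) ++ [f (l.getD n 0)] = _
      rw [ih (le_of_lt hn'), List.take_succ_eq_append_getElem hn', List.map_append,
        List.getD_eq_getElem _ _ hn']
      rfl
  rw [key l.length le_rfl, List.take_length]

/-- Keep the indices `i` with `e i ≠ e j` for all `j < i`: a computable sequence `new`, strictly
increasing, `new 0 = 0`; `N' r l := N r (l.map (e ∘ new))`. -/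
theorem enum_dec {N : Str} {e : ℕ → ℕ} (he : Function.Surjective e)
    (h : ComputablePred fun φ : Fml => Sat N φ e) : ∃ N', Iso N N' ∧ CompStr N' := by
  classical
  obtain ⟨f, hf, hff⟩ := comp_decide h
  -- the test for new indices
  have hQ : Computable₂ fun (i j : ℕ) => !f (Fml.eq i j) := by
    have h1 : Computable fun p : ℕ × ℕ => Fml.eq p.1 p.2 := eq_primrec.to_comp
    exact (Primrec.not.to_comp).comp (hf.comp h1)
  have hN : Computable fun i : ℕ => (List.range i).all fun j => !f (Fml.eq i j) :=
    ball_comp (P := fun i j => !f (Fml.eq i j)) hQ (n := fun i => i) Computable.id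
  obtain ⟨isNew, hisNew⟩ : ∃ g : ℕ → Bool, g = fun i => (List.range i).all fun j => !f (Fml.eq i j) :=
    ⟨_, rfl⟩
  have hNc : Computable isNew := by rw [hisNew]; exact hN
  have isNew_iff : ∀ i, isNew i = true ↔ ∀ j < i, e i ≠ e j := by
    intro i
    rw [hisNew]
    simp only [List.all_eq_true, List.mem_range, Bool.not_eq_true']
    constructor
    · intro H j hj hij
      have h1 := H j hj
      have h2 : f (Fml.eq i j) = true := (hff _).2 hij
      rw [h1] at h2
      exact absurd h2 (by simp)
    · intro H j hj
      cases hb : f (Fml.eq i j) with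
      | false => rfl
      | true => exact absurd ((hff _).1 hb) (H j hj)
  -- every value has a first index
  have first : ∀ y, ∃ n, isNew n = true ∧ e n = y := by
    intro y
    refine ⟨Nat.find (he y), ?_, Nat.find_spec (he y)⟩
    rw [isNew_iff]
    intro j hj hij
    exact Nat.find_min (he y) hj (hij.symm.trans (Nat.find_spec (he y)))
  have unb : ∀ m : ℕ, ∃ n, (decide (m < n) && isNew n) = true := by
    intro m
    obtain ⟨y, hy⟩ := Infinite.exists_notMem_finset ((Finset.range (m + 1)).image e)
    obtain ⟨n, hn, hny⟩ := first y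
    refine ⟨n, ?_⟩
    rw [Bool.and_eq_true]
    refine ⟨?_, hn⟩
    rw [decide_eq_true_iff]
    by_contra hlt
    apply hy
    rw [Finset.mem_image]
    exact ⟨n, Finset.mem_range.2 (by omega), hny⟩
  have hP : Computable₂ fun (m n : ℕ) => (decide (m < n) && isNew n) := by
    have h1 : Computable fun p : ℕ × ℕ => decide (p.1 < p.2) :=
      (Primrec.nat_lt).decide.to_comp
    have h2 : Computable fun p : ℕ × ℕ => isNew p.2 := hNc.comp Computable.snd
    exact (Primrec.and.to_comp).comp h1 h2
  have hnx := find_comp hP unb
  obtain ⟨nxt, hnxt⟩ : ∃ g : ℕ → ℕ, g = fun a => Nat.find (unb a) := ⟨_, rfl⟩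
  have hnc : Computable nxt := by rw [hnxt]; exact hnx
  have nxt_spec : ∀ m, m < nxt m ∧ isNew (nxt m) = true := by
    intro m
    have h1 := Nat.find_spec (unb m)
    rw [Bool.and_eq_true, decide_eq_true_iff] at h1
    rw [hnxt]
    exact h1
  have nxt_min : ∀ m n, m < n → isNew n = true → nxt m ≤ n := by
    intro m n h1 h2
    rw [hnxt]
    apply Nat.find_min'
    rw [Bool.and_eq_true, decide_eq_true_iff]
    exact ⟨h1, h2⟩
  -- the sequence
  obtain ⟨new, hnew⟩ : ∃ g : ℕ → ℕ, g = fun k => (Nat.rec 0 (fun _ x => nxt x) k : ℕ) := ⟨_, rfl⟩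
  have new0 : new 0 = 0 := by rw [hnew]; rfl
  have newS : ∀ k, new (k + 1) = nxt (new k) := by intro k; rw [hnew]
  have newc : Computable new := by
    rw [hnew]
    have h1 : Computable₂ fun (_ : ℕ) (p : ℕ × ℕ) => nxt p.2 :=
      hnc.comp (Computable.snd.comp Computable.snd)
    exact Computable.nat_rec (f := fun k : ℕ => k) (g := fun _ => (0 : ℕ))
      (h := fun _ p => nxt p.2) Computable.id (Computable.const 0) h1
  have new_new : ∀ k, isNew (new k) = true := by
    intro k
    cases k with
    | zero =>
      rw [new0, isNew_iff]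
      intro j hj
      exact absurd hj (Nat.not_lt_zero j)
    | succ k => rw [newS]; exact (nxt_spec _).2
  have new_lt : ∀ k, new k < new (k + 1) := by
    intro k; rw [newS]; exact (nxt_spec _).1
  have new_mono : StrictMono new := strictMono_nat_of_lt_succ new_lt
  have new_surj : ∀ i, isNew i = true → ∃ k, new k = i := by
    intro i hi
    have hex : ∃ k, i ≤ new k := ⟨i, new_mono.id_le i⟩
    have hk := Nat.find_spec hex
    refine ⟨Nat.find hex, ?_⟩
    cases hk' : Nat.find hex with
    | zero =>
      rw [hk', new0] at hk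
      rw [new0]
      omega
    | succ k =>
      have h1 : ¬ i ≤ new k := Nat.find_min hex (by omega)
      rw [hk', newS] at hk
      rw [newS]
      exact le_antisymm (nxt_min _ _ (by omega) hi) hk
  have Einj : Function.Injective (e ∘ new) := by
    intro a b hab
    by_contra hne
    rcases lt_or_gt_of_ne hne with hlt | hlt
    · exact (isNew_iff _).1 (new_new b) _ (new_mono hlt) hab.symm
    · exact (isNew_iff _).1 (new_new a) _ (new_mono hlt) hab
  have Esurj : Function.Surjective (e ∘ new) := by
    intro y
    obtain ⟨n, hn, hny⟩ := first y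
    obtain ⟨k, hk⟩ := new_surj n hn
    exact ⟨k, by simp [hk, hny]⟩
  let E : Equiv.Perm ℕ := Equiv.ofBijective (e ∘ new) ⟨Einj, Esurj⟩
  have hE : ∀ x, E x = e (new x) := fun x => rfl
  let N' : Str := fun r l => N r (l.map E)
  have hiso : ∀ r l, N' r l ↔ N r (l.map E) := fun r l => Iff.rfl
  refine ⟨N', iso_symm ⟨E, hiso⟩, ?_⟩
  have hm : Computable fun p : Fml × List ℕ => (p.1, p.2.map new) :=
    Computable.fst.pair ((comp_map newc).comp Computable.snd)
  obtain ⟨g, hg, hgg⟩ := comp_decide (enum_ev h)
  refine compPred_of (f := fun p => g (p.1, p.2.map new)) (hg.comp hm) ?_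
  intro p
  rw [hgg]
  show Sat N p.1 (e ∘ ext (p.2.map new)) ↔ Sat N' p.1 (ext p.2)
  rw [sat_iso hiso p.1 (ext p.2)]
  have : (⇑E ∘ ext p.2) = e ∘ ext (p.2.map new) := by
    funext i
    show E (ext p.2 i) = e (ext (p.2.map new) i)
    rw [hE]
    congr 1
    unfold ext
    cases hp : p.2 with
    | nil => simp [new0]
    | cons a t =>
      simp only [List.map_cons, List.headD_cons]
      rw [← List.map_cons, List.getD_map]
  rw [this]

end Pool.Agent.H97.EM
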