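import Pool.Agent.H97.EM.K
import Pool.Agent.H97.EM.Gr.Main

/-! Covering of the countable models by decidable almost prime models. -/

namespace Pool.Agent.H97.EM

private theorem pick_range (x : List ℕ) : pick x (List.range x.length) = x := by
  unfold pick
  refine List.ext_getElem (by simp) fun i h1 h2 => ?_
  rw [List.getElem_map, List.getElem_range, List.getD_eq_getElem _ _ h2]

private theorem pick_app (a I J : List ℕ) : pick a (I ++ J) = pick a I ++ pick a J := by
  unfold pick
  rw [List.map_append]

private theorem pick_left (x y : List ℕ) {I : List ℕ} (h : ∀ i ∈ I, i < x.length) :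
    pick (x ++ y) I = pick x I := by
  unfold pick
  refine List.map_congr_left fun i hi => ?_
  rw [List.getD_append _ _ _ _ (h i hi)]

private theorem pick_shift (x y I : List ℕ) :
    pick (x ++ y) (I.map fun i => i + x.length) = pick y I := by
  unfold pick
  rw [List.map_map]
  refine List.map_congr_left fun i _ => ?_
  simp only [Function.comp_apply]
  rw [List.getD_append_right _ _ _ _ (Nat.le_add_left _ _), Nat.add_sub_cancel]

theorem pick_flatten (L : List (List ℕ)) (x : List ℕ) (hx : x ∈ L) :
    ∃ I : List ℕ, (∀ i ∈ I, i < L.flatten.length) ∧ pick L.flatten I = x := by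
  induction L with
  | nil => exact absurd hx List.not_mem_nil
  | cons y L ih =>
    rw [List.flatten_cons]
    rcases List.mem_cons.1 hx with rfl | hx
    · refine ⟨List.range x.length, fun i hi => ?_, ?_⟩
      · have := List.mem_range.1 hi
        rw [List.length_append]
        omega
      · rw [pick_left _ _ fun i hi => List.mem_range.1 hi, pick_range]
    · obtain ⟨I, hI, hp⟩ := ih hx
      refine ⟨I.map fun i => i + y.length, fun i hi => ?_, ?_⟩
      · obtain ⟨j, hj, rfl⟩ := List.mem_map.1 hi
        have := hI j hj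
        rw [List.length_append]
        omega
      · rw [pick_shift, hp]

/-- Let `K` be the model of `exists_full` and `F` the finite list of models. For every `G ∈ F` for
which there are a decidable `B ≅ G` and `bb ≠ []` with `Atomic B bb`, choose such a pair
`(B_G, b_G)`. Suppose that the statement fails; then for each of these `G` there is a tuple `A_G`
of `N` for which the condition of `Cov B_G b_G N` fails. Let `A` be the concatenation of all `A_G`
and `[0]`. By `exists_atomic` there are `(B', c)` with `B'` decidable and atomic over `c`,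
`TE N A B' c`. Then `B' ≅ G` for some `G ∈ F`, so `(B_G, b_G)` exists and `B_G ≅ B'`; let
`c'` be the image of `c` in `B_G`. `Atomic.extend` (for `B_G` over `c'`, with `Z = b_G`) gives `W`
in `N` with `TE N (A ++ W) B_G (c' ++ b_G)`, and `TE.pick` gives the condition for `A_G`,
a contradiction. -/
theorem exists_cov {T : Set Fml} (hc : IsComplete T) (hf : FinMany T) (ht : CompTypes T)
    {N : Str} (hN : IsModel N T) : ∃ (B : Str) (bb : List ℕ), bb ≠ [] ∧ IsModel B T ∧
      CompStr B ∧ Atomic B bb ∧ Cov B bb N := by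
  classical
  by_contra hcon
  obtain ⟨K, hK, hKc, hfull⟩ := exists_full hc hf ht
  obtain ⟨F, hF⟩ := hf
  have hch : ∀ G : Str, ∃ (B : Str) (bb A : List ℕ),
      (∃ (B : Str) (bb : List ℕ), Iso B G ∧ bb ≠ [] ∧ IsModel B T ∧ CompStr B ∧ Atomic B bb) →
      (Iso B G ∧ bb ≠ [] ∧ ¬ ∃ b Y : List ℕ, b.length = bb.length ∧ Y.length = A.length ∧
        TE N (b ++ A) B (bb ++ Y)) := by
    intro G
    by_cases hP : ∃ (B : Str) (bb : List ℕ), Iso B G ∧ bb ≠ [] ∧ IsModel B T ∧ CompStr B ∧
      Atomic B bb
    · obtain ⟨B, bb, h1, h2, h3, h4, h5⟩ := hP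
      have h6 : ¬ Cov B bb N := fun h6 => hcon ⟨B, bb, h2, h3, h4, h5, h6⟩
      unfold Cov at h6
      push Not at h6
      obtain ⟨A, hA⟩ := h6
      refine ⟨B, bb, A, fun _ => ⟨h1, h2, ?_⟩⟩
      rintro ⟨b, Y, e1, e2, e3⟩
      exact hA b Y e1 e2 e3
    · exact ⟨G, [], [], fun h => absurd h hP⟩
  choose B bb A hA using hch
  obtain ⟨L, hL⟩ : ∃ L : List (List ℕ), L = F.map A ++ [[0]] := ⟨_, rfl⟩
  have hne : L.flatten ≠ [] := by
    intro h
    have h1 : [0] ∈ L := by
      rw [hL]
      simp
    have h2 := List.flatten_eq_nil_iff.1 h _ h1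
    simp at h2
  obtain ⟨B', c, hB'm, hB'c, hte, hat⟩ := exists_atomic hc.sent hK hKc hfull N hN L.flatten hne
  have hc0 : c ≠ [] := by
    intro h
    have h1 := hte.2.1
    rw [h, List.length_nil] at h1
    exact hne (List.length_eq_zero_iff.1 h1)
  obtain ⟨G, hG, hiso⟩ := hF B' hB'm
  obtain ⟨hBG, hbb, hno⟩ := hA G ⟨B', c, hiso, hc0, hB'm, hB'c, hat⟩
  obtain ⟨σ, hσ⟩ := iso_trans hiso (iso_symm hBG)
  have hat' : Atomic (B G) (c.map σ) := hat.iso hc0 hσ
  have hte' : TE N L.flatten (B G) (c.map σ) := hte.trans (te_iso hσ hc0)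
  obtain ⟨W, hW, hTW⟩ := hat'.extend (b := L.flatten) (A := []) (Y := []) hte'.2.1
    (by rw [List.append_nil, List.append_nil]; exact hte') (bb G)
  rw [List.append_nil, List.append_nil] at hTW
  have hAG : A G ∈ L := by
    rw [hL]
    exact List.mem_append_left _ (List.mem_map_of_mem hG)
  obtain ⟨I, hI, hp⟩ := pick_flatten L (A G) hAG
  have hbl : 0 < (bb G).length := List.length_pos_iff.2 hbb
  obtain ⟨J, hJ⟩ : ∃ J : List ℕ, J = (List.range W.length).map fun i => i + L.flatten.length :=
    ⟨_, rfl⟩
  have hJW : pick (L.flatten ++ W) J = W := by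
    rw [hJ, pick_shift, pick_range]
  have hJb : pick (c.map σ ++ bb G) J = bb G := by
    rw [hJ, hte'.2.1, hW, pick_shift, pick_range]
  have hT2 := hTW.pick (I := J ++ I) (by
    intro h
    have h1 := congrArg List.length h
    rw [List.length_append, hJ, List.length_map, List.length_range, hW, List.length_nil] at h1
    omega) (by
    intro i hi
    rw [List.length_append]
    rcases List.mem_append.1 hi with hi | hi
    · rw [hJ] at hi
      obtain ⟨j, hj, rfl⟩ := List.mem_map.1 hi
      have := List.mem_range.1 hj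
      omega
    · have := hI i hi
      omega)
  rw [pick_app, pick_app, hJW, hJb, pick_left _ _ hI, hp] at hT2
  refine hno ⟨W, pick (c.map σ ++ bb G) I, hW, ?_, hT2⟩
  rw [← hp]
  simp [pick]

end Pool.Agent.H97.EM
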