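import Mathlib

/-!
MP_6c31bc_lc. Formulas of the language with one relation symbol `R_(r,n)` of arity `n` for every
`r n : ℕ` (every countable relational language is a part of it), structures with universe `ℕ`,
satisfaction, Goedel numbers.
-/

namespace Pool.Agent.H97.EM

/-- First order formulas; the variables are `x_0, x_1, ..`. -/
inductive Fml : Type
  | eq (i j : ℕ) : Fml
  | rel (r : ℕ) (l : List ℕ) : Fml
  | neg (φ : Fml) : Fml
  | and (φ ψ : Fml) : Fml
  | ex (i : ℕ) (φ : Fml) : Fml
  deriving DecidableEq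

/-- Structures with universe `ℕ`: `M r l` says that the symbol `R_(r,n)`, `n = l.length`, holds
at the tuple `l`. -/
abbrev Str := ℕ → List ℕ → Prop

/-- Satisfaction of a formula at an assignment of the variables. -/
def Sat (M : Str) : Fml → (ℕ → ℕ) → Prop
  | .eq i j, v => v i = v j
  | .rel r l, v => M r (l.map v)
  | .neg φ, v => ¬ Sat M φ v
  | .and φ ψ, v => Sat M φ v ∧ Sat M ψ v
  | .ex i φ, v => ∃ a, Sat M φ (Function.update v i a)

/-- The free variables. -/
def Fml.fv : Fml → Finset ℕ
  | .eq i j => {i, j}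
  | .rel _ l => l.toFinset
  | .neg φ => φ.fv
  | .and φ ψ => φ.fv ∪ ψ.fv
  | .ex i φ => φ.fv.erase i

/-- The Goedel number. -/
def Fml.enc : Fml → ℕ
  | .eq i j => 5 * Nat.pair i j
  | .rel r l => 5 * Nat.pair r (Encodable.encode l) + 1
  | .neg φ => 5 * φ.enc + 2
  | .and φ ψ => 5 * Nat.pair φ.enc ψ.enc + 3
  | .ex i φ => 5 * Nat.pair i φ.enc + 4

/-- The formula with a given number. -/
def Fml.dec (n : ℕ) : Fml :=
  if n % 5 = 0 then .eq (n / 5).unpair.1 (n / 5).unpair.2
  else if n % 5 = 1 then .rel (n / 5).unpair.1 (Denumerable.ofNat (List ℕ) (n / 5).unpair.2)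
  else if h2 : n % 5 = 2 then .neg (Fml.dec (n / 5))
  else if h3 : n % 5 = 3 then .and (Fml.dec (n / 5).unpair.1) (Fml.dec (n / 5).unpair.2)
  else if h4 : n % 5 = 4 then .ex (n / 5).unpair.1 (Fml.dec (n / 5).unpair.2)
  else .eq 0 0
termination_by n
decreasing_by
  · omega
  · have := Nat.unpair_left_le (n / 5); omega
  · have := Nat.unpair_right_le (n / 5); omega
  · have := Nat.unpair_right_le (n / 5); omega

theorem Fml.dec_enc (φ : Fml) : Fml.dec φ.enc = φ := by
  induction φ with
  | eq i j =>
    rw [Fml.dec]; simp only [Fml.enc]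
    have h0 : 5 * Nat.pair i j % 5 = 0 := by omega
    have h1 : 5 * Nat.pair i j / 5 = Nat.pair i j := by omega
    simp [h0, h1]
  | rel r l =>
    rw [Fml.dec]; simp only [Fml.enc]
    have h0 : (5 * Nat.pair r (Encodable.encode l) + 1) % 5 = 1 := by omega
    have h1 : (5 * Nat.pair r (Encodable.encode l) + 1) / 5 = Nat.pair r (Encodable.encode l) := by
      omega
    simp [h0, h1]
  | neg φ ih =>
    rw [Fml.dec]; simp only [Fml.enc]
    have h0 : (5 * φ.enc + 2) % 5 = 2 := by omega
    have h1 : (5 * φ.enc + 2) / 5 = φ.enc := by omega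
    simp [h0, h1, ih]
  | and φ ψ ih1 ih2 =>
    rw [Fml.dec]; simp only [Fml.enc]
    have h0 : (5 * Nat.pair φ.enc ψ.enc + 3) % 5 = 3 := by omega
    have h1 : (5 * Nat.pair φ.enc ψ.enc + 3) / 5 = Nat.pair φ.enc ψ.enc := by omega
    simp [h0, h1, ih1, ih2]
  | ex i φ ih =>
    rw [Fml.dec]; simp only [Fml.enc]
    have h0 : (5 * Nat.pair i φ.enc + 4) % 5 = 4 := by omega
    have h1 : (5 * Nat.pair i φ.enc + 4) / 5 = Nat.pair i φ.enc := by omega
    simp [h0, h1, ih]

theorem Fml.enc_dec (n : ℕ) : (Fml.dec n).enc = n := by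
  induction n using Nat.strong_induction_on with
  | _ n ih =>
    rw [Fml.dec]
    split_ifs with h0 h1 h2 h3 h4
    · simp only [Fml.enc, Nat.pair_unpair]; omega
    · simp only [Fml.enc, Denumerable.encode_ofNat, Nat.pair_unpair]; omega
    · simp only [Fml.enc]; rw [ih _ (by omega)]; omega
    · have hl := Nat.unpair_left_le (n / 5)
      have hr := Nat.unpair_right_le (n / 5)
      simp only [Fml.enc]; rw [ih _ (by omega), ih _ (by omega), Nat.pair_unpair]; omega
    · have hr := Nat.unpair_right_le (n / 5)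
      simp only [Fml.enc]; rw [ih _ (by omega), Nat.pair_unpair]; omega
    · omega

instance : Denumerable Fml :=
  Denumerable.mk' ⟨Fml.enc, Fml.dec, Fml.dec_enc, Fml.enc_dec⟩

theorem encode_eq (φ : Fml) : Encodable.encode φ = φ.enc := rfl

/-- `φ` holds in `M` at the tuple `a` and its free variables are among `x_0, .., x_(n-1)`,
`n = a.length`. -/
def Holds (M : Str) (φ : Fml) (a : List ℕ) : Prop :=
  (∀ i ∈ φ.fv, i < a.length) ∧ Sat M φ (fun i => a.getD i 0)

/-- `M` is a model of the set `T` of sentences. -/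
def IsModel (M : Str) (T : Set Fml) : Prop := ∀ φ ∈ T, ∀ v, Sat M φ v

/-- `T` is a complete theory with a model with universe `ℕ`. -/
structure IsComplete (T : Set Fml) : Prop where
  sent : ∀ φ ∈ T, φ.fv = ∅
  cons : ∃ M, IsModel M T
  comp : ∀ φ : Fml, φ.fv = ∅ → φ ∈ T ∨ φ.neg ∈ T

/-- Isomorphism of structures with universe `ℕ`. -/
def Iso (M N : Str) : Prop := ∃ σ : Equiv.Perm ℕ, ∀ r l, M r l ↔ N r (l.map σ)

/-- Ehrenfeucht theories: finitely many countable models up to isomorphism. -/
def FinMany (T : Set Fml) : Prop := ∃ F : List Str, ∀ M, IsModel M T → ∃ N ∈ F, Iso M N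

/-- Every complete type of `T` is a computable set of formulas. -/
def CompTypes (T : Set Fml) : Prop :=
  ∀ M, IsModel M T → ∀ a : List ℕ, ComputablePred fun φ : Fml => Holds M φ a

/-- `M` has an isomorphic copy with universe `ℕ` whose elementary diagram is computable. -/
def DecModel (M : Str) : Prop :=
  ∃ N, Iso M N ∧ ComputablePred fun p : Fml × List ℕ => Holds N p.1 p.2

/-! ### Internal notions -/

/-- The assignment belonging to a list: the variables beyond the length get the head. -/
def ext (a : List ℕ) : ℕ → ℕ := fun i => a.getD i (a.headD 0)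

/-- Truth at a list. -/
def Ev (M : Str) (φ : Fml) (a : List ℕ) : Prop := Sat M φ (ext a)

/-- Decidable structure, internal form. -/
def CompStr (B : Str) : Prop := ComputablePred fun p : Fml × List ℕ => Ev B p.1 p.2

/-- Equality of types of nonempty tuples of the same length. -/
def TE (M : Str) (a : List ℕ) (N : Str) (b : List ℕ) : Prop :=
  a ≠ [] ∧ a.length = b.length ∧ ∀ φ, Ev M φ a ↔ Ev N φ b

/-- The entries of `a` at the positions `I`. -/
def pick (a I : List ℕ) : List ℕ := I.map fun i => a.getD i 0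

/-- `B` is atomic over the tuple `b`. -/
def Atomic (B : Str) (b : List ℕ) : Prop :=
  ∀ Z : List ℕ, ∃ θ : Fml, Ev B θ (b ++ Z) ∧
    ∀ Z' : List ℕ, Z'.length = Z.length → Ev B θ (b ++ Z') → TE B (b ++ Z') B (b ++ Z)

/-- Every finite tuple of `N` lies in the range of an elementary embedding of `(B, bb)`: there is
a realisation of the type of `bb` over which the tuple has the type of a tuple of `B` over `bb`. -/
def Cov (B : Str) (bb : List ℕ) (N : Str) : Prop :=
  ∀ A : List ℕ, ∃ b Y : List ℕ, b.length = bb.length ∧ Y.length = A.length ∧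
    TE N (b ++ A) B (bb ++ Y)

/-- Limit computable functions. -/
def LimComp {α β : Type*} [Primcodable α] [Primcodable β] (f : α → β) : Prop :=
  ∃ g : α → ℕ → β, Computable₂ g ∧ ∀ a, ∃ s₀, ∀ s, s₀ ≤ s → g a s = f a

/-! ### Operations on formulas -/

/-- Literals. -/
def lit (b : Bool) (φ : Fml) : Fml := bif b then φ else .neg φ

/-- `∃ x_m .. ∃ x_(m+k-1) φ`. -/
def exs (m k : ℕ) (φ : Fml) : Fml := (List.range k).foldr (fun i ψ => Fml.ex (m + i) ψ) φ

/-- A true formula. -/
def top : Fml := .eq 0 0

/-- Conjunction of a list. -/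
def conj (F : List Fml) : Fml := F.foldr Fml.and top

/-- The conjunction of the decisions `σ` about the formulas number `0, .., σ.length - 1`. -/
def cs (σ : List Bool) : Fml :=
  (List.range σ.length).foldr
    (fun c ψ => Fml.and (lit (σ.getD c false) (Denumerable.ofNat Fml c)) ψ) top

end Pool.Agent.H97.EM
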