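import Pool.Agent.H97.EM.TE
import Pool.Agent.H97.EM.Conv

/-! From a decidable enumeration with repetitions to a decidable copy. -/

namespace Pool.Agent.H97.EM

/-- Truth at all renamings is computable: `Sat N φ (e ∘ ext I) ↔ Sat N (renc φ I) e`. -/
theorem enum_ev {N : Str} {e : ℕ → ℕ} (h : ComputablePred fun φ : Fml => Sat N φ e) :
    ComputablePred fun p : Fml × List ℕ => Sat N p.1 (e ∘ ext p.2) := by
  obtain ⟨f, hf, hf'⟩ := comp_decide h
  have h1 : Computable fun p : Fml × List ℕ => f (renc p.1 p.2) :=
    hf.comp (renc_primrec.comp Primrec.fst Primrec.snd).to_comp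
  exact compPred_of h1 fun p => by rw [hf', sat_renc]

end Pool.Agent.H97.EM
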