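import Pool.Agent.H97.EM.Conv

/-! Henkin sets: definitions. -/

namespace Pool.Agent.H97.EM

/-- A consistency predicate for formulas; the variables `x_0, .., x_(k-1)` are reserved. -/
structure ConP (M : Str) (k : ℕ) (Con : Fml → Prop) : Prop where
  top : Con top
  sat : ∀ δ, Con δ → ∃ v, Sat M δ v
  split : ∀ δ φ, Con δ → Con (δ.and φ) ∨ Con (δ.and φ.neg)
  hen : ∀ (δ φ : Fml) (i n : ℕ), k ≤ n → i < n → (∀ j ∈ δ.fv, j < n) → (∀ j ∈ φ.fv, j < n) →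
    Con δ → (∀ v, Sat M δ v → Sat M (.ex i φ) v) → Con (δ.and (.ex i (.and (.eq i n) φ)))

/-- Complete Henkin sets, finitely satisfiable in `M`. -/
structure Hen (M : Str) (Γ : Set Fml) : Prop where
  fin : ∀ F : List Fml, (∀ φ ∈ F, φ ∈ Γ) → ∃ v, ∀ φ ∈ F, Sat M φ v
  comp : ∀ φ : Fml, φ ∈ Γ ∨ φ.neg ∈ Γ
  wit : ∀ (i : ℕ) (φ : Fml), Fml.ex i φ ∈ Γ → ∃ j, j ≠ i ∧ Fml.ex i (.and (.eq i j) φ) ∈ Γ

/-- A Henkin set contains the consequences (in `M`) of its members. -/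
theorem Hen.cons {M : Str} {Γ : Set Fml} (h : Hen M Γ) {F : List Fml} (hF : ∀ φ ∈ F, φ ∈ Γ)
    {ψ : Fml} (hψ : ∀ v, (∀ φ ∈ F, Sat M φ v) → Sat M ψ v) : ψ ∈ Γ := by
  rcases h.comp ψ with h1 | h1
  · exact h1
  · exfalso
    obtain ⟨v, hv⟩ := h.fin (ψ.neg :: F) (by
      intro φ hφ
      rcases List.mem_cons.1 hφ with rfl | h2
      · exact h1
      · exact hF φ h2)
    exact hv ψ.neg List.mem_cons_self (hψ v fun φ hφ => hv φ (List.mem_cons_of_mem _ hφ))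

theorem Hen.neg_iff {M : Str} {Γ : Set Fml} (h : Hen M Γ) (φ : Fml) : φ.neg ∈ Γ ↔ φ ∉ Γ := by
  constructor
  · intro h1 h2
    obtain ⟨v, hv⟩ := h.fin [φ, φ.neg] (by
      intro ψ hψ
      rcases List.mem_cons.1 hψ with rfl | h3
      · exact h2
      · rw [List.mem_singleton.1 h3]
        exact h1)
    exact hv φ.neg (List.mem_cons_of_mem _ List.mem_cons_self) (hv φ List.mem_cons_self)
  · intro h1
    exact (h.comp φ).resolve_left h1

end Pool.Agent.H97.EM
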