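import Pool.Agent.H97.EM.Prim1

/-! The operations on Goedel numbers are primitive recursive, part 2. -/

namespace Pool.Agent.H97.EM

theorem exs_primrec : Primrec fun p : ℕ × ℕ × Fml => exs p.1 p.2.1 p.2.2 := by
  have h : Primrec₂ fun (p : ℕ × ℕ × Fml) (q : ℕ × Fml) => Fml.ex (p.1 + q.1) q.2 :=
    ex_primrec.comp (Primrec.nat_add.comp (Primrec.fst.comp Primrec.fst) (Primrec.fst.comp Primrec.snd))
      (Primrec.snd.comp Primrec.snd)
  exact Primrec.list_foldr (Primrec.list_range.comp (Primrec.fst.comp Primrec.snd))
    (Primrec.snd.comp Primrec.snd) h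

theorem conj_primrec : Primrec conj := by
  have h : Primrec₂ fun (_ : List Fml) (q : Fml × Fml) => Fml.and q.1 q.2 :=
    and_primrec.comp (Primrec.fst.comp Primrec.snd) (Primrec.snd.comp Primrec.snd)
  exact Primrec.list_foldr Primrec.id (Primrec.const top) h

theorem cs_primrec : Primrec cs := by
  have h : Primrec₂ fun (σ : List Bool) (q : ℕ × Fml) =>
      Fml.and (lit (σ.getD q.1 false) (Denumerable.ofNat Fml q.1)) q.2 :=
    and_primrec.comp
      (lit_primrec.comp ((Primrec.list_getD false).comp Primrec.fst (Primrec.fst.comp Primrec.snd))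
        ((Primrec.ofNat Fml).comp (Primrec.fst.comp Primrec.snd)))
      (Primrec.snd.comp Primrec.snd)
  exact Primrec.list_foldr (Primrec.list_range.comp Primrec.list_length) (Primrec.const top) h

theorem ext_primrec : Primrec₂ ext := by
  have h1 : Primrec fun a : List ℕ => a.headD 0 :=
    (Primrec.option_getD.comp Primrec.list_head? (Primrec.const 0)).of_eq fun a => by
      cases a <;> rfl
  have h2 : Primrec fun p : List ℕ × ℕ => (p.1[p.2]?).getD (p.1.headD 0) :=
    Primrec.option_getD.comp (Primrec.list_getElem?.comp Primrec.fst Primrec.snd)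
      (h1.comp Primrec.fst)
  exact h2.of_eq fun p => by
    unfold ext
    rw [List.getD_eq_getElem?_getD]

theorem pick_primrec : Primrec₂ pick := by
  have h : Primrec₂ fun (p : List ℕ × List ℕ) (i : ℕ) => p.1.getD i 0 :=
    (Primrec.list_getD 0).comp (Primrec.fst.comp Primrec.fst) Primrec.snd
  exact Primrec.list_map Primrec.snd h

theorem renc_primrec : Primrec₂ renc := by
  have hk : Primrec fun p : Fml × List ℕ => Encodable.encode p.1 + 1 :=
    Primrec.succ.comp (Primrec.encode.comp Primrec.fst)
  have hK : Primrec fun p : Fml × List ℕ => Encodable.encode p.1 + Encodable.encode p.2 + 1 :=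
    Primrec.succ.comp (Primrec.nat_add.comp (Primrec.encode.comp Primrec.fst)
      (Primrec.encode.comp Primrec.snd))
  have h1 : Primrec₂ fun (p : Fml × List ℕ) (j : ℕ) =>
      Fml.eq (Encodable.encode p.1 + Encodable.encode p.2 + 1 + j) (ext p.2 j) :=
    eq_primrec.comp (Primrec.nat_add.comp (hK.comp Primrec.fst) Primrec.snd)
      (ext_primrec.comp (Primrec.snd.comp Primrec.fst) Primrec.snd)
  have h2 : Primrec₂ fun (p : Fml × List ℕ) (j : ℕ) =>
      Fml.eq j (Encodable.encode p.1 + Encodable.encode p.2 + 1 + j) :=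
    eq_primrec.comp Primrec.snd (Primrec.nat_add.comp (hK.comp Primrec.fst) Primrec.snd)
  have h3 : Primrec fun p : Fml × List ℕ => (List.range (Encodable.encode p.1 + 1)).map fun j =>
      Fml.eq (Encodable.encode p.1 + Encodable.encode p.2 + 1 + j) (ext p.2 j) :=
    Primrec.list_map (Primrec.list_range.comp hk) h1
  have h4 : Primrec fun p : Fml × List ℕ => (List.range (Encodable.encode p.1 + 1)).map fun j =>
      Fml.eq j (Encodable.encode p.1 + Encodable.encode p.2 + 1 + j) :=
    Primrec.list_map (Primrec.list_range.comp hk) h2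
  have h5 : Primrec fun p : Fml × List ℕ => exs 0 (Encodable.encode p.1 + 1)
      (.and (conj ((List.range (Encodable.encode p.1 + 1)).map fun j =>
        Fml.eq j (Encodable.encode p.1 + Encodable.encode p.2 + 1 + j))) p.1) :=
    exs_primrec.comp (Primrec.pair (Primrec.const 0)
      (Primrec.pair hk (and_primrec.comp (conj_primrec.comp h4) Primrec.fst)))
  exact exs_primrec.comp (Primrec.pair hK
    (Primrec.pair hk (and_primrec.comp (conj_primrec.comp h3) h5)))

end Pool.Agent.H97.EM
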