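import Pool.Agent.H97.EM.Ka1

/-! Realisation of limits in full models. -/

namespace Pool.Agent.H97.EM

/-- Compactness for types: if `δ_s`, `s ∈ ℕ`, with variables below `Z.length + m`, are such that
every finite part is satisfiable in `K` at an assignment extending `Z`, then a full `K` has a
tuple `E` with `TE K (E.take Z.length) K Z` which satisfies all of them. -/
theorem Full.realize {T : Set Fml} {K : Str} (hT : ∀ φ ∈ T, φ.fv = ∅) (hK : IsModel K T)
    (hf : Full T K) {Z : List ℕ} (hZ : Z ≠ []) (m : ℕ) (δ : ℕ → Fml)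
    (hfv : ∀ s, ∀ i ∈ (δ s).fv, i < Z.length + m)
    (hfin : ∀ s, ∃ w : List ℕ, w.length = m ∧ ∀ t ≤ s, Ev K (δ t) (Z ++ w)) :
    ∃ E : List ℕ, E.length = Z.length + m ∧ TE K (E.take Z.length) K Z ∧
      ∀ s, Ev K (δ s) E := by
  have hn : 0 < Z.length := List.length_pos_iff.2 hZ
  obtain ⟨K', hK', e, -, he⟩ := compact hT hK (Z.length + m)
    ({φ | (∀ i ∈ φ.fv, i < Z.length) ∧ Ev K φ Z} ∪ Set.range δ) (by
      rintro φ (⟨h1, -⟩ | ⟨s, rfl⟩) i hi
      · have := h1 i hi
        omega
      · exact hfv s i hi) (by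
      intro F hF
      have hs : ∃ s, ∀ φ ∈ F, φ ∉ {φ | (∀ i ∈ φ.fv, i < Z.length) ∧ Ev K φ Z} →
          ∃ t ≤ s, δ t = φ := by
        induction F with
        | nil => exact ⟨0, by simp⟩
        | cons ψ F ih =>
          obtain ⟨s, hs⟩ := ih (fun φ hφ => hF φ (List.mem_cons_of_mem _ hφ))
          rcases hF ψ List.mem_cons_self with h1 | ⟨t, ht⟩
          · refine ⟨s, fun φ hφ hφ' => ?_⟩
            rcases List.mem_cons.1 hφ with rfl | h2
            · exact absurd h1 hφ'
            · exact hs φ h2 hφ'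
          · refine ⟨max s t, fun φ hφ hφ' => ?_⟩
            rcases List.mem_cons.1 hφ with rfl | h2
            · exact ⟨t, le_max_right _ _, ht⟩
            · obtain ⟨t', ht', h3⟩ := hs φ h2 hφ'
              exact ⟨t', ht'.trans (le_max_left _ _), h3⟩
      obtain ⟨s, hs⟩ := hs
      obtain ⟨w, -, hw⟩ := hfin s
      refine ⟨ext (Z ++ w), fun φ hφ => ?_⟩
      by_cases h1 : φ ∈ {φ | (∀ i ∈ φ.fv, i < Z.length) ∧ Ev K φ Z}
      · refine (ev_of_sat (fun i hi => ?_) h1.1).1 h1.2
        unfold ext
        rw [List.getD_append _ _ _ _ hi, List.getD_eq_getElem _ _ hi,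
          List.getD_eq_getElem _ _ hi]
      · obtain ⟨t, ht, rfl⟩ := hs φ hφ h1
        exact hw t ht)
  have hlen : ((List.range (Z.length + m)).map e).length = Z.length + m := by simp
  have hget : ∀ i < Z.length + m, e i = ((List.range (Z.length + m)).map e).getD i 0 := by
    intro i hi
    rw [List.getD_eq_getElem _ _ (by simpa using hi)]
    simp
  have ha : (List.range (Z.length + m)).map e ≠ [] := by
    intro h
    rw [h] at hlen
    simp at hlen
    omega
  obtain ⟨E, hE⟩ := hf K' hK' ((List.range (Z.length + m)).map e) ha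
  have hEl : E.length = Z.length + m := by rw [← hE.2.1, hlen]
  have hZa : TE K Z K' (((List.range (Z.length + m)).map e).take Z.length) := by
    refine te_of_holds hZ (by simp) (fun φ hφ h => ?_)
    have hl : (((List.range (Z.length + m)).map e).take Z.length).length = Z.length := by simp
    refine (ev_of_sat (v := e) (fun i hi => ?_) (fun i hi => ?_)).2 (he φ (Or.inl ⟨hφ, h⟩))
    · rw [hl] at hi
      rw [hget i (by omega), List.getD_eq_getElem _ _ (by simp; omega),
        List.getD_eq_getElem _ _ (by rw [hl]; exact hi), List.getElem_take]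
    · rw [hl]
      exact hφ i hi
  refine ⟨E, hEl, (hZa.trans (hE.take hn)).symm, fun s => ?_⟩
  refine (hE.2.2 (δ s)).1 ((ev_of_sat (v := e) (fun i hi => ?_) (fun i hi => ?_)).2
    (he (δ s) (Or.inr ⟨s, rfl⟩)))
  · rw [hlen] at hi
    exact hget i hi
  · rw [hlen]
    exact hfv s i hi

end Pool.Agent.H97.EM
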