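import Pool.Agent.H97.EM.HenD

/-! Completion of a consistency predicate. -/

namespace Pool.Agent.H97.EM

/-- One step of the completion. -/
private def hen1Step (c : Fml → Bool) (k L : ℕ) (δ : Fml) : Fml :=
  bif c (δ.and (Denumerable.ofNat Fml L)) then
    (Option.casesOn (exParts (Denumerable.ofNat Fml L)) (δ.and (Denumerable.ofNat Fml L))
      fun q => (δ.and (Denumerable.ofNat Fml L)).and
        (.ex q.1 (.and (.eq q.1 (k + L + 1)) q.2)) : Fml)
  else δ.and (Denumerable.ofNat Fml L).neg

/-- The sequence. -/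
private def hen1Seq (c : Fml → Bool) (k : ℕ) : ℕ → Fml
  | 0 => top
  | L + 1 => hen1Step c k L (hen1Seq c k L)

private theorem hen1Step_comp {c : Fml → Bool} (hc : Computable c) (k : ℕ) :
    Computable₂ fun (L : ℕ) (δ : Fml) => hen1Step c k L δ := by
  have h1 : Primrec fun p : ℕ × Fml => Denumerable.ofNat Fml p.1 :=
    (Primrec.ofNat Fml).comp Primrec.fst
  have h2 : Primrec fun p : ℕ × Fml => p.2.and (Denumerable.ofNat Fml p.1) :=
    and_primrec.comp Primrec.snd h1
  have h3 : Primrec fun p : ℕ × Fml =>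
      (Option.casesOn (exParts (Denumerable.ofNat Fml p.1)) (p.2.and (Denumerable.ofNat Fml p.1))
      fun q => (p.2.and (Denumerable.ofNat Fml p.1)).and
        (.ex q.1 (.and (.eq q.1 (k + p.1 + 1)) q.2)) : Fml) := by
    refine Primrec.option_casesOn (o := fun p : ℕ × Fml => exParts (Denumerable.ofNat Fml p.1))
      (f := fun p : ℕ × Fml => p.2.and (Denumerable.ofNat Fml p.1))
      (g := fun (p : ℕ × Fml) (q : ℕ × Fml) => (p.2.and (Denumerable.ofNat Fml p.1)).and
        (.ex q.1 (.and (.eq q.1 (k + p.1 + 1)) q.2))) (exParts_primrec.comp h1) h2 ?_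
    exact and_primrec.comp (h2.comp Primrec.fst)
      (ex_primrec.comp (Primrec.fst.comp Primrec.snd)
        (and_primrec.comp
          (eq_primrec.comp (Primrec.fst.comp Primrec.snd)
            (Primrec.succ.comp (Primrec.nat_add.comp (Primrec.const k)
              (Primrec.fst.comp Primrec.fst))))
          (Primrec.snd.comp Primrec.snd)))
  have h4 : Primrec fun p : ℕ × Fml => p.2.and (Denumerable.ofNat Fml p.1).neg :=
    and_primrec.comp Primrec.snd (neg_primrec.comp h1)
  exact Computable.cond (hc.comp h2.to_comp) h3.to_comp h4.to_comp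

private theorem hen1Seq_comp {c : Fml → Bool} (hc : Computable c) (k : ℕ) :
    Computable (hen1Seq c k) := by
  have h1 : Computable fun L : ℕ => (Nat.rec (motive := fun _ => Fml) top
      (fun L δ => hen1Step c k L δ) L : Fml) := by
    refine Computable.nat_rec (f := fun L : ℕ => L) (g := fun _ => top)
      (h := fun (_ : ℕ) (q : ℕ × Fml) => hen1Step c k q.1 q.2) Computable.id
      (Computable.const top) ?_
    exact (hen1Step_comp hc k).comp (Computable.fst.comp Computable.snd)
      (Computable.snd.comp Computable.snd)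
  refine h1.of_eq ?_
  intro L
  induction L with
  | zero => rfl
  | succ L ih =>
    have h2 : hen1Seq c k (L + 1) = hen1Step c k L (hen1Seq c k L) := rfl
    rw [h2, ← ih]

private theorem hen1_exParts {φ : Fml} {i : ℕ} {ψ : Fml} (h : exParts φ = some (i, ψ)) :
    φ = .ex i ψ := by
  cases φ with
  | ex j χ =>
    have h1 : some (j, χ) = some (i, ψ) := h
    simp only [Option.some.injEq, Prod.mk.injEq] at h1
    rw [h1.1, h1.2]
  | eq a b => exact absurd h (by simp [exParts])
  | rel a b => exact absurd h (by simp [exParts])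
  | neg a => exact absurd h (by simp [exParts])
  | and a b => exact absurd h (by simp [exParts])

private theorem hen1_encEx (i : ℕ) (ψ : Fml) :
    i ≤ Encodable.encode (Fml.ex i ψ) ∧ Encodable.encode ψ ≤ Encodable.encode (Fml.ex i ψ) := by
  have h0 : Encodable.encode (Fml.ex i ψ) = 5 * Nat.pair i (Encodable.encode ψ) + 4 := rfl
  have h1 := Nat.left_le_pair i (Encodable.encode ψ)
  have h2 := Nat.right_le_pair i (Encodable.encode ψ)
  omega

private theorem hen1_inv {M : Str} {k : ℕ} {Con : Fml → Prop} (h : ConP M k Con)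
    {c : Fml → Bool} (hc : ∀ φ, c φ = true ↔ Con φ) (L : ℕ) :
    Con (hen1Seq c k L) ∧ ∀ j ∈ (hen1Seq c k L).fv, j < k + L + 1 := by
  induction L with
  | zero =>
    refine ⟨h.top, fun j hj => ?_⟩
    have h1 : j ∈ ({0, 0} : Finset ℕ) := hj
    simp at h1
    omega
  | succ L ih =>
    obtain ⟨ih1, ih2⟩ := ih
    have h2 : hen1Seq c k (L + 1) = hen1Step c k L (hen1Seq c k L) := rfl
    rw [h2]
    generalize hen1Seq c k L = δ at ih1 ih2
    have hφ : ∀ j ∈ (Denumerable.ofNat Fml L).fv, j < k + L + 1 := by
      intro j hj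
      have h3 := fv_le _ j hj
      rw [Denumerable.encode_ofNat] at h3
      omega
    have hand : ∀ j ∈ (δ.and (Denumerable.ofNat Fml L)).fv, j < k + L + 1 := by
      intro j hj
      have h3 : j ∈ δ.fv ∪ (Denumerable.ofNat Fml L).fv := hj
      rw [Finset.mem_union] at h3
      rcases h3 with h3 | h3
      · exact ih2 j h3
      · exact hφ j h3
    unfold hen1Step
    cases hb : c (δ.and (Denumerable.ofNat Fml L)) with
    | false =>
      rw [cond_false]
      constructor
      · refine (h.split δ (Denumerable.ofNat Fml L) ih1).resolve_left fun h3 => ?_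
        rw [(hc _).2 h3] at hb
        exact Bool.noConfusion hb
      · intro j hj
        have h3 := hand j hj
        omega
    | true =>
      rw [cond_true]
      have hC := (hc _).1 hb
      cases hq : exParts (Denumerable.ofNat Fml L) with
      | none =>
        refine ⟨hC, fun j hj => ?_⟩
        have h3 := hand j hj
        omega
      | some q =>
        obtain ⟨i, ψ⟩ := q
        have he := hen1_exParts hq
        have hL : L = Encodable.encode (Fml.ex i ψ) := by
          rw [← he, Denumerable.encode_ofNat]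
        obtain ⟨hi, hψ⟩ := hen1_encEx i ψ
        rw [← hL] at hi hψ
        have hψ2 : ∀ j ∈ ψ.fv, j < k + L + 1 := by
          intro j hj
          have h3 := fv_le _ j hj
          omega
        constructor
        · refine h.hen _ ψ i (k + L + 1) (by omega) (by omega) hand hψ2 hC fun v hv => ?_
          rw [← he]
          exact hv.2
        · intro j hj
          have h3 : j ∈ (δ.and (Denumerable.ofNat Fml L)).fv ∪
            (({i, k + L + 1} : Finset ℕ) ∪ ψ.fv).erase i := hj
          rw [Finset.mem_union, Finset.mem_erase, Finset.mem_union, Finset.mem_insert,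
            Finset.mem_singleton] at h3
          rcases h3 with h3 | ⟨h3, (h4 | h4) | h4⟩
          · have := hand j h3
            omega
          · exact absurd h4 h3
          · omega
          · have := hψ2 j h4
            omega

private theorem hen1_mono (M : Str) (c : Fml → Bool) (k : ℕ) {L N : ℕ} (hLN : L ≤ N)
    (v : ℕ → ℕ) (hv : Sat M (hen1Seq c k N) v) : Sat M (hen1Seq c k L) v := by
  induction N, hLN using Nat.le_induction with
  | base => exact hv
  | succ N _ ih =>
    refine ih ?_
    have h2 : hen1Seq c k (N + 1) = hen1Step c k N (hen1Seq c k N) := rfl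
    rw [h2] at hv
    unfold hen1Step at hv
    cases hb : c ((hen1Seq c k N).and (Denumerable.ofNat Fml N)) with
    | false =>
      rw [hb, cond_false] at hv
      exact hv.1
    | true =>
      rw [hb, cond_true] at hv
      cases hq : exParts (Denumerable.ofNat Fml N) with
      | none =>
        rw [hq] at hv
        exact hv.1
      | some q =>
        rw [hq] at hv
        exact hv.1.1

private theorem hen1_pos (M : Str) (c : Fml → Bool) (k : ℕ) {φ : Fml} {N : ℕ}
    (hN : Encodable.encode φ < N)
    (hφ : c ((hen1Seq c k (Encodable.encode φ)).and φ) = true)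
    (v : ℕ → ℕ) (hv : Sat M (hen1Seq c k N) v) : Sat M φ v := by
  have h1 := hen1_mono M c k hN v hv
  have h2 : hen1Seq c k (Encodable.encode φ + 1) =
    hen1Step c k (Encodable.encode φ) (hen1Seq c k (Encodable.encode φ)) := rfl
  rw [Nat.succ_eq_add_one, h2] at h1
  unfold hen1Step at h1
  rw [Denumerable.ofNat_encode, hφ, cond_true] at h1
  cases hq : exParts φ with
  | none =>
    rw [hq] at h1
    exact h1.2
  | some q =>
    rw [hq] at h1
    exact h1.1.2

private theorem hen1_neg (M : Str) (c : Fml → Bool) (k : ℕ) {φ : Fml} {N : ℕ}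
    (hN : Encodable.encode φ < N)
    (hφ : ¬ c ((hen1Seq c k (Encodable.encode φ)).and φ) = true)
    (v : ℕ → ℕ) (hv : Sat M (hen1Seq c k N) v) : ¬ Sat M φ v := by
  have h1 := hen1_mono M c k hN v hv
  have h2 : hen1Seq c k (Encodable.encode φ + 1) =
    hen1Step c k (Encodable.encode φ) (hen1Seq c k (Encodable.encode φ)) := rfl
  rw [Nat.succ_eq_add_one, h2] at h1
  unfold hen1Step at h1
  have h3 : c ((hen1Seq c k (Encodable.encode φ)).and φ) = false := by simpa using hφ
  rw [Denumerable.ofNat_encode, h3, cond_false] at h1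
  exact h1.2

private theorem hen1_wit (M : Str) (c : Fml → Bool) (k : ℕ) {i : ℕ} {ψ : Fml} {N : ℕ}
    (hN : Encodable.encode (Fml.ex i ψ) < N)
    (hφ : c ((hen1Seq c k (Encodable.encode (Fml.ex i ψ))).and (Fml.ex i ψ)) = true)
    (v : ℕ → ℕ) (hv : Sat M (hen1Seq c k N) v) :
    Sat M (.ex i (.and (.eq i (k + Encodable.encode (Fml.ex i ψ) + 1)) ψ)) v := by
  have h1 := hen1_mono M c k hN v hv
  have h2 : hen1Seq c k (Encodable.encode (Fml.ex i ψ) + 1) =
    hen1Step c k (Encodable.encode (Fml.ex i ψ)) (hen1Seq c k (Encodable.encode (Fml.ex i ψ))) :=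
      rfl
  rw [Nat.succ_eq_add_one, h2] at h1
  unfold hen1Step at h1
  rw [Denumerable.ofNat_encode, hφ, cond_true] at h1
  exact h1.2

/-- The sequence `δ_0 = top`,
`δ_(L+1) = δ_L ∧ (± φ_L) ∧ (∃ x_i (x_i = x_w ∧ ψ))`, the sign is `+` iff `δ_L ∧ φ_L` is
consistent; the last part only if the sign is `+` and `φ_L = ∃ x_i ψ`; `w = k + L + 1` is larger
than all variables used so far. `Γ` = the formulas which got the sign `+`. If the predicate is
computable then the sequence is computable by primitive recursion.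
(j ≠ i in `wit`: `w > i` because `i ≤ encode φ_L = L`.) -/
theorem completion {M : Str} {k : ℕ} {Con : Fml → Prop} (h : ConP M k Con) :
    ∃ Γ : Set Fml, Hen M Γ ∧
      (∀ F : List Fml, (∀ φ ∈ F, φ ∈ Γ) →
        ∃ δ, Con δ ∧ ∀ v, Sat M δ v → ∀ φ ∈ F, Sat M φ v) ∧
      (ComputablePred Con → ComputablePred fun φ => φ ∈ Γ) := by
  classical
  obtain ⟨c, hc⟩ : ∃ c : Fml → Bool, ∀ φ, c φ = true ↔ Con φ :=
    ⟨fun φ => decide (Con φ), fun φ => by simp⟩
  have hinv := fun L => (hen1_inv h hc L).1
  have hmem : ∀ φ : Fml, φ ∈ {φ : Fml | c ((hen1Seq c k (Encodable.encode φ)).and φ) = true} ↔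
    c ((hen1Seq c k (Encodable.encode φ)).and φ) = true := fun φ => Iff.rfl
  have hF : ∀ F : List Fml,
      (∀ φ ∈ F, φ ∈ {φ : Fml | c ((hen1Seq c k (Encodable.encode φ)).and φ) = true}) →
        ∃ δ, Con δ ∧ ∀ v, Sat M δ v → ∀ φ ∈ F, Sat M φ v := by
    intro F hF
    obtain ⟨N, hN⟩ : ∃ N : ℕ, ∀ φ ∈ F, Encodable.encode φ < N := by
      clear hF
      induction F with
      | nil => exact ⟨0, fun φ hφ => absurd hφ List.not_mem_nil⟩
      | cons a F ih =>
        obtain ⟨N, hN⟩ := ih
        refine ⟨N + Encodable.encode a + 1, fun φ hφ => ?_⟩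
        rcases List.mem_cons.1 hφ with rfl | h1
        · omega
        · have := hN φ h1
          omega
    exact ⟨hen1Seq c k N, hinv N, fun v hv φ hφ => hen1_pos M c k (hN φ hφ) (hF φ hφ) v hv⟩
  refine ⟨{φ : Fml | c ((hen1Seq c k (Encodable.encode φ)).and φ) = true}, ⟨?_, ?_, ?_⟩, hF, ?_⟩
  · intro F hF1
    obtain ⟨δ, hδ, h1⟩ := hF F hF1
    obtain ⟨v, hv⟩ := h.sat δ hδ
    exact ⟨v, h1 v hv⟩
  · intro φ
    by_contra hcon
    rw [not_or, hmem, hmem] at hcon
    obtain ⟨v, hv⟩ := h.sat _ (hinv (Encodable.encode φ + Encodable.encode φ.neg + 1))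
    have h1 := hen1_neg M c k (by omega) hcon.1 v hv
    exact hen1_neg M c k (by omega) hcon.2 v hv h1
  · intro i ψ hφ
    rw [hmem] at hφ
    have hi := (hen1_encEx i ψ).1
    refine ⟨k + Encodable.encode (Fml.ex i ψ) + 1, by omega, ?_⟩
    by_contra hcon
    rw [hmem] at hcon
    obtain ⟨v, hv⟩ := h.sat _ (hinv (Encodable.encode (Fml.ex i ψ) + Encodable.encode
      (Fml.ex i (.and (.eq i (k + Encodable.encode (Fml.ex i ψ) + 1)) ψ)) + 1))
    exact hen1_neg M c k (by omega) hcon v hv (hen1_wit M c k (by omega) hφ v hv)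
  · intro hC
    obtain ⟨f, hf, hf2⟩ := comp_decide hC
    have hfc : f = c := by
      funext φ
      rw [Bool.eq_iff_iff, hf2, hc]
    rw [hfc] at hf
    refine compPred_of (f := fun φ => c ((hen1Seq c k (Encodable.encode φ)).and φ)) ?_
      fun φ => Iff.rfl
    exact hf.comp (and_primrec.to_comp.comp ((hen1Seq_comp hf k).comp Computable.encode)
      Computable.id)

end Pool.Agent.H97.EM
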