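import Pool.Agent.H97.EM.HenD

/-! The model of a Henkin set. -/

namespace Pool.Agent.H97.EM

private theorem hen2a_top (M : Str) (v : ℕ → ℕ) : Sat M top v := rfl

private theorem hen2a_conj (M : Str) (F : List Fml) (v : ℕ → ℕ) :
    Sat M (conj F) v ↔ ∀ φ ∈ F, Sat M φ v := by
  induction F with
  | nil => simp [conj, hen2a_top]
  | cons a F ih =>
    have h1 : conj (a :: F) = Fml.and a (conj F) := rfl
    rw [h1]
    simp only [Sat, ih, List.mem_cons, forall_eq_or_imp]

/-- Infinitely many classes: for every list of variables there is a variable which is different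
from all of them (`M` is infinite, so `∃ x_u (⋀ x_u ≠ x_(i_j))` is in `Γ`). -/
theorem Hen.inf {M : Str} {Γ : Set Fml} (h : Hen M Γ) (I : List ℕ) :
    ∃ j, ∀ i ∈ I, (Fml.eq j i).neg ∈ Γ := by
  classical
  obtain ⟨u, hu⟩ : ∃ u : ℕ, ∀ i ∈ I, i ≠ u := by
    obtain ⟨u, hu⟩ := Infinite.exists_notMem_finset I.toFinset
    exact ⟨u, fun i hi h1 => hu (by rw [← h1]; exact List.mem_toFinset.2 hi)⟩
  obtain ⟨φ, hφ⟩ : ∃ φ : Fml, ∀ v, Sat M φ v ↔ ∀ i ∈ I, v u ≠ v i := by
    refine ⟨conj (I.map fun i => (Fml.eq u i).neg), fun v => ?_⟩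
    rw [hen2a_conj]
    constructor
    · intro h1 i hi
      exact h1 _ (List.mem_map.2 ⟨i, hi, rfl⟩)
    · intro h1 ψ hψ
      obtain ⟨i, hi, rfl⟩ := List.mem_map.1 hψ
      exact h1 i hi
  have hup : ∀ (v : ℕ → ℕ) (a : ℕ), Sat M φ (Function.update v u a) ↔ ∀ i ∈ I, a ≠ v i := by
    intro v a
    rw [hφ]
    refine forall₂_congr fun i hi => ?_
    rw [Function.update_self, Function.update_of_ne (hu i hi)]
  have h1 : Fml.ex u φ ∈ Γ := by
    refine h.cons (F := []) (by simp) fun v _ => ?_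
    obtain ⟨a, ha⟩ := Infinite.exists_notMem_finset (I.map v).toFinset
    refine ⟨a, (hup v a).2 fun i hi h2 => ha ?_⟩
    rw [h2]
    exact List.mem_toFinset.2 (List.mem_map.2 ⟨i, hi, rfl⟩)
  obtain ⟨j, hj, h2⟩ := h.wit u φ h1
  refine ⟨j, fun i hi => h.cons (F := [.ex u (.and (.eq u j) φ)]) (by simpa using h2) fun v hv => ?_⟩
  obtain ⟨a, ha1, ha2⟩ := hv _ (List.mem_singleton.2 rfl)
  have ha3 : a = v j := by
    have h3 : Function.update v u a u = Function.update v u a j := ha1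
    rwa [Function.update_self, Function.update_of_ne hj] at h3
  intro h4
  have h5 : v j = v i := h4
  exact (hup v a).1 ha2 i hi (ha3.trans h5)

/-- Henkin property for all formulas and all renamings: let `φ'` be equivalent to
`φ(v ∘ ρ)`. -/
theorem Hen.wit' {M : Str} {Γ : Set Fml} (h : Hen M Γ) (i : ℕ) (φ : Fml) (ρ : ℕ → ℕ) {ψ : Fml}
    (hψ : ∀ v, Sat M ψ v ↔ Sat M (.ex i φ) (v ∘ ρ)) (hm : ψ ∈ Γ) :
    ∃ j, ∀ χ : Fml, (∀ v, Sat M χ v ↔ Sat M φ (v ∘ Function.update ρ i j)) → χ ∈ Γ := by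
  classical
  obtain ⟨u, hu⟩ : ∃ u : ℕ, ∀ l ∈ φ.fv, ρ l ≠ u := by
    obtain ⟨u, hu⟩ := Infinite.exists_notMem_finset (φ.fv.image ρ)
    exact ⟨u, fun l hl h1 => hu (by rw [← h1]; exact Finset.mem_image_of_mem _ hl)⟩
  obtain ⟨φ', hφ'⟩ := ren_exists φ (Function.update ρ i u)
  have hup : ∀ (v : ℕ → ℕ) (a : ℕ), Sat M φ' (Function.update v u a) ↔
      Sat M φ (Function.update (v ∘ ρ) i a) := by
    intro v a
    rw [hφ']
    refine sat_congr M φ _ _ fun l hl => ?_
    by_cases hli : l = i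
    · subst hli
      simp
    · rw [Function.comp_apply, Function.update_of_ne hli, Function.update_of_ne hli,
        Function.update_of_ne (hu l hl), Function.comp_apply]
  have h1 : Fml.ex u φ' ∈ Γ := by
    refine h.cons (F := [ψ]) (by simpa using hm) fun v hv => ?_
    obtain ⟨a, ha⟩ := (hψ v).1 (hv _ (List.mem_singleton.2 rfl))
    exact ⟨a, (hup v a).2 ha⟩
  obtain ⟨j, hj, h2⟩ := h.wit u φ' h1
  refine ⟨j, fun χ hχ => h.cons (F := [.ex u (.and (.eq u j) φ')]) (by simpa using h2) fun v hv => ?_⟩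
  obtain ⟨a, ha1, ha2⟩ := hv _ (List.mem_singleton.2 rfl)
  have ha3 : a = v j := by
    have h3 : Function.update v u a u = Function.update v u a j := ha1
    rwa [Function.update_self, Function.update_of_ne hj] at h3
  rw [hχ]
  refine (sat_congr M φ _ _ fun l _ => ?_).1 ((hup v a).1 ha2)
  by_cases hli : l = i
  · subst hli
    simp [ha3]
  · rw [Function.update_of_ne hli, Function.comp_apply, Function.comp_apply, Function.update_of_ne hli]

end Pool.Agent.H97.EM
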