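import Pool.Agent.H97.EM.Cmp
import Pool.Agent.H97.EM.Enu

/-! A computable type has a decidable model. -/

namespace Pool.Agent.H97.EM

/-- `Con δ` in terms of assignments. -/
private theorem kb2_con (M : Str) (a : List ℕ) (δ : Fml) :
    Holds M (exs a.length (Encodable.encode δ + 1) δ) a ↔
      ∃ v : ℕ → ℕ, (∀ i < a.length, v i = a.getD i 0) ∧ Sat M δ v := by
  have hfv : ∀ i ∈ (exs a.length (Encodable.encode δ + 1) δ).fv, i < a.length := by
    intro i hi
    rw [fv_exs] at hi
    have h1 := fv_le δ i hi.1
    have h2 := hi.2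
    omega
  unfold Holds
  rw [and_iff_right hfv, sat_exs]
  constructor
  · rintro ⟨w, -, hw⟩
    refine ⟨_, fun i hi => ?_, hw⟩
    show (if a.length ≤ i ∧ i < a.length + (Encodable.encode δ + 1) then
      w.getD (i - a.length) 0 else a.getD i 0) = a.getD i 0
    rw [if_neg (by omega)]
  · rintro ⟨v, hv, hs⟩
    refine ⟨(List.range (Encodable.encode δ + 1)).map fun j => v (a.length + j), by simp, ?_⟩
    refine (sat_congr M δ v _ fun i hi => ?_).1 hs
    have h1 := fv_le δ i hi
    by_cases h2 : a.length ≤ i
    · rw [if_pos (by omega), List.getD_eq_getElem _ _ (by simp; omega)]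
      rw [List.getElem_map, List.getElem_range]
      congr 1
      omega
    · rw [if_neg (by omega)]
      exact hv i (by omega)

/-- The consistency predicate. -/
private theorem kb2_conP (M : Str) (a : List ℕ) :
    ConP M a.length fun δ => Holds M (exs a.length (Encodable.encode δ + 1) δ) a where
  top := (kb2_con M a _).2 ⟨fun i => a.getD i 0, fun _ _ => rfl, sat_top M _⟩
  sat := by
    intro δ hδ
    obtain ⟨v, -, hv⟩ := (kb2_con M a δ).1 hδ
    exact ⟨v, hv⟩
  split := by
    intro δ φ hδ
    obtain ⟨v, hva, hv⟩ := (kb2_con M a δ).1 hδ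
    by_cases hφ : Sat M φ v
    · exact Or.inl ((kb2_con M a _).2 ⟨v, hva, hv, hφ⟩)
    · exact Or.inr ((kb2_con M a _).2 ⟨v, hva, hv, hφ⟩)
  hen := by
    intro δ φ i n hkn hin hδn hφn hδ himp
    obtain ⟨v, hva, hv⟩ := (kb2_con M a δ).1 hδ
    obtain ⟨b, hb⟩ := himp v hv
    refine (kb2_con M a _).2 ⟨Function.update v n b, ?_, ?_, b, ?_, ?_⟩
    · intro j hj
      rw [Function.update_of_ne (Nat.ne_of_lt (lt_of_lt_of_le hj hkn))]
      exact hva j hj
    · refine (sat_congr M δ v _ ?_).1 hv
      intro j hj
      rw [Function.update_of_ne (Nat.ne_of_lt (hδn j hj))]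
    · show Function.update (Function.update v n b) i b i
        = Function.update (Function.update v n b) i b n
      rw [Function.update_self, Function.update_of_ne (Nat.ne_of_gt hin), Function.update_self]
    · refine (sat_congr M φ (Function.update v i b) _ ?_).1 hb
      intro j hj
      by_cases hji : j = i
      · subst hji
        rw [Function.update_self, Function.update_self]
      · rw [Function.update_of_ne hji, Function.update_of_ne hji,
          Function.update_of_ne (Nat.ne_of_lt (hφn j hj))]

/-- The consistency predicate is computable. -/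
private theorem kb2_comp {M : Str} {a : List ℕ}
    (hcomp : ComputablePred fun φ : Fml => Holds M φ a) :
    ComputablePred fun δ : Fml => Holds M (exs a.length (Encodable.encode δ + 1) δ) a := by
  obtain ⟨f, hf, hff⟩ := comp_decide hcomp
  have h1 : Primrec fun δ : Fml => exs a.length (Encodable.encode δ + 1) δ :=
    exs_primrec.comp (Primrec.pair (Primrec.const a.length)
      (Primrec.pair (Primrec.succ.comp Primrec.encode) Primrec.id))
  exact compPred_of (f := fun δ => f (exs a.length (Encodable.encode δ + 1) δ))
    (hf.comp h1.to_comp) fun δ => hff _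

/-- A computable type has a decidable model: `completion` for
`Con δ := Holds M (exs a.length (encode δ + 1) δ) a` (`δ` is satisfiable at an assignment
extending `a`), `Hen.model`, `enum_dec`. -/
theorem exists_comp_of_type {T : Set Fml} (hT : ∀ φ ∈ T, φ.fv = ∅) {M : Str} (hM : IsModel M T)
    {a : List ℕ} (ha : a ≠ []) (hcomp : ComputablePred fun φ : Fml => Holds M φ a) :
    ∃ (K : Str) (Z : List ℕ), IsModel K T ∧ CompStr K ∧ TE M a K Z := by
  obtain ⟨Γ, hΓ, hcon, hc⟩ := completion (kb2_conP M a)
  have hΓc := hc (kb2_comp hcomp)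
  obtain ⟨K, e, he, hK⟩ := hΓ.model
  have hKm : IsModel K T := hΓ.isModel hT hM hK
  obtain ⟨N, hiso, hN⟩ := enum_dec (N := K) he (by
    have h1 : (fun φ : Fml => Sat K φ e) = fun φ => φ ∈ Γ := by
      funext φ
      exact propext (hK φ).symm
    rw [h1]
    exact hΓc)
  have hlen : ((List.range a.length).map e).length = a.length := by simp
  have hte : TE M a K ((List.range a.length).map e) := by
    refine te_of_holds ha hlen.symm fun φ hφ h1 => ?_
    have h2 : φ ∈ Γ := by
      rcases hΓ.comp φ with h | h
      · exact h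
      · exfalso
        obtain ⟨δ, hδ, himp⟩ := hcon [φ.neg] (by
          intro ψ hψ
          rw [List.mem_singleton.1 hψ]
          exact h)
        obtain ⟨v, hva, hv⟩ := (kb2_con M a δ).1 hδ
        exact himp v hv φ.neg (List.mem_singleton.2 rfl) ((ev_of_sat hva hφ).1 h1)
    refine (ev_of_sat (v := e) ?_ ?_).2 ((hK φ).1 h2)
    · intro i hi
      rw [List.getD_eq_getElem _ _ hi]
      simp
    · intro i hi
      rw [hlen]
      exact hφ i hi
  obtain ⟨σ, hσ⟩ := hiso
  refine ⟨N, ((List.range a.length).map e).map σ, isModel_iso ⟨σ, hσ⟩ hKm, hN, ?_⟩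
  exact hte.trans (te_iso hσ hte.symm.1)

end Pool.Agent.H97.EM
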