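import Pool.Agent.H97.EM.Kb1
import Pool.Agent.H97.EM.Kb2

/-! A decidable model which realises all types. -/

namespace Pool.Agent.H97.EM

theorem exists_full {T : Set Fml} (hc : IsComplete T) (hf : FinMany T) (ht : CompTypes T) :
    ∃ K, IsModel K T ∧ CompStr K ∧ Full T K := by
  obtain ⟨M, a, hM, ha, h⟩ := exists_powerful hc hf
  obtain ⟨K, Z, hK, hKc, hte⟩ := exists_comp_of_type hc.sent hM ha (ht M hM a)
  exact ⟨K, hK, hKc, h K Z hK hte⟩

end Pool.Agent.H97.EM
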