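import Pool.Agent.H97.EM.Cmp
import Pool.Agent.H97.EM.At1

/-! Types of `T` and powerful types. -/

namespace Pool.Agent.H97.EM

/-- `K` realises all types of `T`. -/
def Full (T : Set Fml) (K : Str) : Prop :=
  ∀ M, IsModel M T → ∀ a : List ℕ, a ≠ [] → ∃ Z : List ℕ, TE M a K Z

theorem Full.iso {T : Set Fml} {K K' : Str} (h : Full T K) (hi : Iso K K') : Full T K' := by
  intro M hM a ha
  obtain ⟨Z, hZ⟩ := h M hM a ha
  obtain ⟨σ, hσ⟩ := hi
  have hZ' : Z ≠ [] := by
    intro hn
    have h1 := hZ.2.1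
    rw [hn, List.length_nil] at h1
    exact ha (List.length_eq_zero_iff.1 h1)
  exact ⟨Z.map σ, TE.trans hZ (te_iso hσ hZ')⟩

private theorem fv_conj_aux (G : List Fml) :
    ∀ i ∈ (conj G).fv, i = 0 ∨ ∃ g ∈ G, i ∈ g.fv := by
  induction G with
  | nil =>
    intro i hi
    left
    have h1 : i ∈ (Fml.eq 0 0).fv := hi
    simpa [Fml.fv] using h1
  | cons g G ih =>
    intro i hi
    have h1 : i ∈ (Fml.and g (conj G)).fv := hi
    simp only [Fml.fv, Finset.mem_union] at h1
    rcases h1 with h1 | h1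
    · exact Or.inr ⟨g, List.mem_cons_self, h1⟩
    · rcases ih i h1 with h2 | ⟨g', hg', h2⟩
      · exact Or.inl h2
      · exact Or.inr ⟨g', List.mem_cons_of_mem _ hg', h2⟩

private theorem ext_shift (n m i : ℕ) (hi : i < m) :
    ext ((List.range m).map fun j => j + n) i = i + n := by
  unfold ext
  rw [List.getD_eq_getElem _ _ (by simpa using hi)]
  simp

/-- Two types are realised in one model (`compact` in `M1` with `Γ0` = the type of `a1` in the
first variables and the type of `a2` in the next ones; `T` is complete, so a formula of the type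
of `a2` is satisfiable in `M1`). -/
theorem joint {T : Set Fml} (hc : IsComplete T) {M1 M2 : Str} (h1 : IsModel M1 T)
    (h2 : IsModel M2 T) {a1 a2 : List ℕ} (ha1 : a1 ≠ []) (ha2 : a2 ≠ []) :
    ∃ (M : Str) (b1 b2 : List ℕ), IsModel M T ∧ TE M1 a1 M b1 ∧ TE M2 a2 M b2 := by
  have hn0 : 0 < a1.length := List.length_pos_iff.2 ha1
  have hm0 : 0 < a2.length := List.length_pos_iff.2 ha2
  set n := a1.length with hn
  set m := a2.length with hm
  set I : List ℕ := (List.range m).map fun j => j + n with hIdef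
  have hI : I ≠ [] := by
    intro hnil
    have h3 : I.length = m := by simp [hIdef]
    rw [hnil, List.length_nil] at h3
    omega
  set Γ0 : Set Fml := {φ | ((∀ i ∈ φ.fv, i < n) ∧ Ev M1 φ a1) ∨
    ∃ g : Fml, (∀ i ∈ g.fv, i < m) ∧ Ev M2 g a2 ∧ φ = renc g I} with hΓ
  have hfv : ∀ φ ∈ Γ0, ∀ i ∈ φ.fv, i < n + m := by
    rintro φ (⟨h3, -⟩ | ⟨g, -, -, rfl⟩) i hi
    · have := h3 i hi
      omega
    · rcases fv_renc g hI i hi with h4 | rfl
      swap
      · omega
      rw [hIdef, List.mem_map] at h4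
      obtain ⟨j, hj, rfl⟩ := h4
      have := List.mem_range.1 hj
      omega
  have hfin : ∀ F : List Fml, (∀ φ ∈ F, φ ∈ Γ0) → ∃ v, ∀ φ ∈ F, Sat M1 φ v := by
    intro F hF
    have hG : ∃ G : List Fml, (∀ g ∈ G, (∀ i ∈ g.fv, i < m) ∧ Ev M2 g a2) ∧
        ∀ φ ∈ F, ((∀ i ∈ φ.fv, i < n) ∧ Ev M1 φ a1) ∨ ∃ g ∈ G, φ = renc g I := by
      clear hfv
      induction F with
      | nil => exact ⟨[], by simp, by simp⟩
      | cons φ F ih =>
        obtain ⟨G, hG1, hG2⟩ := ih fun ψ hψ => hF ψ (List.mem_cons_of_mem _ hψ)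
        rcases hF φ List.mem_cons_self with h3 | ⟨g, hg1, hg2, hg3⟩
        · refine ⟨G, hG1, ?_⟩
          intro ψ hψ
          rcases List.mem_cons.1 hψ with rfl | hψ
          · exact Or.inl h3
          · exact hG2 ψ hψ
        · refine ⟨g :: G, ?_, ?_⟩
          · intro g' hg'
            rcases List.mem_cons.1 hg' with rfl | hg'
            · exact ⟨hg1, hg2⟩
            · exact hG1 g' hg'
          · intro ψ hψ
            rcases List.mem_cons.1 hψ with rfl | hψ
            · exact Or.inr ⟨g, List.mem_cons_self, hg3⟩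
            · rcases hG2 ψ hψ with h4 | ⟨g', hg', h4⟩
              · exact Or.inl h4
              · exact Or.inr ⟨g', List.mem_cons_of_mem _ hg', h4⟩
    obtain ⟨G, hG1, hG2⟩ := hG
    have hsent : (exs 0 m (conj G)).fv = ∅ := by
      apply Finset.eq_empty_of_forall_notMem
      intro i hi
      rw [fv_exs] at hi
      obtain ⟨hi1, hi2⟩ := hi
      rcases fv_conj_aux G i hi1 with rfl | ⟨g, hg, h3⟩
      · exact hi2 ⟨le_rfl, by omega⟩
      · have := (hG1 g hg).1 i h3
        exact hi2 ⟨Nat.zero_le _, by omega⟩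
    have hM2 : ∀ v, Sat M2 (exs 0 m (conj G)) v := by
      intro v
      rw [sat_exs]
      refine ⟨a2, rfl, ?_⟩
      rw [sat_conj]
      intro g hg
      refine (ev_of_sat (a := a2) ?_ (hG1 g hg).1).1 (hG1 g hg).2
      intro i hi
      have h3 : 0 ≤ i ∧ i < 0 + m := ⟨Nat.zero_le _, by omega⟩
      simp only [h3, and_self, if_true, Nat.sub_zero]
    have hT : exs 0 m (conj G) ∈ T := by
      rcases hc.comp _ hsent with h3 | h3
      · exact h3
      · exact absurd (hM2 id) (h2 _ h3 id)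
    have hM1 := h1 _ hT id
    rw [sat_exs] at hM1
    obtain ⟨w, hw, hM1⟩ := hM1
    rw [sat_conj] at hM1
    refine ⟨fun i => if i < n then a1.getD i 0 else w.getD (i - n) 0, ?_⟩
    intro φ hφ
    rcases hG2 φ hφ with ⟨h3, h4⟩ | ⟨g, hg, rfl⟩
    · refine (ev_of_sat (a := a1) ?_ h3).1 h4
      intro i hi
      have h5 : i < n := hi
      simp only [h5, if_true]
    · rw [sat_renc]
      refine (sat_congr M1 g _ _ ?_).1 (hM1 g hg)
      intro i hi
      have h5 := (hG1 g hg).1 i hi
      have h6 : 0 ≤ i ∧ i < 0 + m := ⟨Nat.zero_le _, by omega⟩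
      have h7 : ¬ (i + n < n) := by omega
      simp only [Function.comp_apply, hIdef, ext_shift n m i h5, h6, and_self, if_true,
        Nat.sub_zero, h7, if_false, Nat.add_sub_cancel]
  obtain ⟨K, hK, e, -, he⟩ := compact hc.sent h1 (n + m) Γ0 hfv hfin
  refine ⟨K, (List.range n).map e, (List.range m).map fun j => e (j + n), hK, ?_, ?_⟩
  · refine te_of_holds ha1 (by simp [hn]) ?_
    intro φ hφ hev
    have h3 := he φ (Or.inl ⟨hφ, hev⟩)
    refine (ev_of_sat (v := e) ?_ (by simpa using hφ)).2 h3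
    intro i hi
    rw [List.getD_eq_getElem _ _ hi]
    simp
  · refine te_of_holds ha2 (by simp [hm]) ?_
    intro φ hφ hev
    have h3 := he (renc φ I) (Or.inr ⟨φ, hφ, hev, rfl⟩)
    rw [sat_renc] at h3
    refine (ev_of_sat (v := e ∘ ext I) ?_ (by simpa using hφ)).2 h3
    intro i hi
    have h4 : i < m := by simpa using hi
    rw [List.getD_eq_getElem _ _ hi]
    simp only [Function.comp_apply, hIdef, ext_shift n m i h4]
    simp

end Pool.Agent.H97.EM
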