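import Pool.Agent.H97.EM.Ka1

/-! Joint realisation of finitely many types. -/

namespace Pool.Agent.H97.EM

private theorem pick_left2 (x y : List ℕ) {I : List ℕ} (h : ∀ i ∈ I, i < x.length) :
    pick (x ++ y) I = pick x I := by
  unfold pick
  refine List.map_congr_left fun i hi => ?_
  rw [List.getD_append _ _ _ _ (h i hi)]

private theorem pick_right2 (x y : List ℕ) :
    pick (x ++ y) ((List.range y.length).map fun i => x.length + i) = y := by
  unfold pick
  rw [List.map_map]
  refine List.ext_getElem (by simp) fun i h1 h2 => ?_
  rw [List.getElem_map, List.getElem_range, Function.comp]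
  have h3 : x.length + i < (x ++ y).length := by
    rw [List.length_append]
    omega
  rw [List.getD_eq_getElem _ _ h3, List.getElem_append_right (by omega)]
  simp

/-- Finitely many types are realised in one model, as parts of one tuple (induction with
`joint`). -/
theorem jointList {T : Set Fml} (hc : IsComplete T) (S : List (Str × List ℕ))
    (hS : ∀ s ∈ S, IsModel s.1 T ∧ s.2 ≠ []) :
    ∃ (M : Str) (a : List ℕ), IsModel M T ∧ a ≠ [] ∧
      ∀ s ∈ S, ∃ I : List ℕ, (∀ i ∈ I, i < a.length) ∧ TE s.1 s.2 M (pick a I) := by
  induction S with
  | nil =>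
    obtain ⟨M, hM⟩ := hc.cons
    exact ⟨M, [0], hM, List.cons_ne_nil _ _, fun s hs => absurd hs List.not_mem_nil⟩
  | cons s S ih =>
    obtain ⟨M, a, hM, ha, hI⟩ := ih fun t ht => hS t (List.mem_cons_of_mem _ ht)
    obtain ⟨hs1, hs2⟩ := hS s List.mem_cons_self
    obtain ⟨N, b1, b2, hN, h1, h2⟩ := joint hc hM hs1 ha hs2
    have hl1 : a.length = b1.length := h1.2.1
    refine ⟨N, b1 ++ b2, hN, ?_, ?_⟩
    · intro h0
      rw [List.append_eq_nil_iff] at h0
      rw [h0.1, List.length_nil] at hl1
      exact ha (List.length_eq_zero_iff.1 hl1)
    · intro t ht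
      rcases List.mem_cons.1 ht with rfl | ht
      · refine ⟨(List.range b2.length).map fun i => b1.length + i, ?_, ?_⟩
        · intro i hi
          rw [List.mem_map] at hi
          obtain ⟨j, hj, rfl⟩ := hi
          have := List.mem_range.1 hj
          rw [List.length_append]
          omega
        · rw [pick_right2]
          exact h2
      · obtain ⟨I, hlt, hte⟩ := hI t ht
        refine ⟨I, fun i hi => ?_, ?_⟩
        · have := hlt i hi
          rw [List.length_append]
          omega
        · rw [pick_left2 _ _ fun i hi => hl1 ▸ hlt i hi]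
          have hIne : I ≠ [] := by
            intro h0
            have h3 := hte.2.1
            rw [h0] at h3
            have h4 : t.2.length = 0 := by simpa [pick] using h3
            exact hte.1 (List.length_eq_zero_iff.1 h4)
          exact TE.trans hte (TE.pick h1 hIne hlt)

end Pool.Agent.H97.EM
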