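import Pool.Agent.H97.EM.Ka2

/-! Powerful types. -/

namespace Pool.Agent.H97.EM

private theorem om {T : Set Fml} (hc : IsComplete T) (N : Str) : ∃ s : Str × List ℕ, IsModel s.1 T ∧ s.2 ≠ [] ∧
    (¬ Full T N → ∀ Z, ¬ TE s.1 s.2 N Z) := by
  by_cases h : Full T N
  · obtain ⟨M, hM⟩ := hc.cons
    exact ⟨(M, [0]), hM, by simp, fun h' => absurd h h'⟩
  · have h1 := h
    unfold Full at h1
    push Not at h1
    obtain ⟨M, hM, a, ha, h2⟩ := h1
    exact ⟨(M, a), hM, ha, fun _ Z => h2 Z⟩

/-- Powerful types: for each member `N` of the finite list of models which is a model of `T` and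
not full choose `(M_N, a_N)`, a type which `N` omits; `jointList`; a model `K` which realises the
type of the big tuple is isomorphic to some member of the list, which must be full. -/
theorem exists_powerful {T : Set Fml} (hc : IsComplete T) (hf : FinMany T) :
    ∃ (M : Str) (a : List ℕ), IsModel M T ∧ a ≠ [] ∧
      ∀ (K : Str) (Z : List ℕ), IsModel K T → TE M a K Z → Full T K := by
  obtain ⟨F, hF⟩ := hf
  choose g g1 g2 g3 using fun N : Str => om hc N
  obtain ⟨M, a, hM, ha, hS⟩ := jointList hc (F.map g) (fun s hs => by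
    obtain ⟨N, -, rfl⟩ := List.mem_map.1 hs
    exact ⟨g1 N, g2 N⟩)
  refine ⟨M, a, hM, ha, fun K Z hK hT => ?_⟩
  obtain ⟨N, hN, hi⟩ := hF K hK
  by_contra hfull
  have h1 : ¬ Full T N := fun h2 => hfull (h2.iso (iso_symm hi))
  obtain ⟨I, hI, h2⟩ := hS (g N) (List.mem_map.2 ⟨N, hN, rfl⟩)
  have hI0 : I ≠ [] := by
    rintro rfl
    have h3 := h2.2.1
    have h4 : (g N).2 = [] := List.length_eq_zero_iff.1 (by rw [h3]; rfl)
    exact g2 N h4
  have h3 := h2.trans (hT.pick hI0 hI)
  obtain ⟨σ, hσ⟩ := hi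
  have h4 : pick Z I ≠ [] := by
    intro h5
    apply hI0
    unfold pick at h5
    exact List.map_eq_nil_iff.1 h5
  exact g3 N h1 _ (h3.trans (te_iso hσ h4))

end Pool.Agent.H97.EM
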