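import Pool.Agent.H97.EM.Ren

/-! Equality of types. -/

namespace Pool.Agent.H97.EM

theorem TE.refl (M : Str) {a : List ℕ} (ha : a ≠ []) : TE M a M a :=
  ⟨ha, rfl, fun _ => Iff.rfl⟩

theorem TE.symm {M N : Str} {a b : List ℕ} (h : TE M a N b) : TE N b M a := by
  obtain ⟨ha, hl, hφ⟩ := h
  refine ⟨?_, hl.symm, fun φ => (hφ φ).symm⟩
  intro hb
  apply ha
  rw [← List.length_eq_zero_iff, hl, hb, List.length_nil]

theorem TE.trans {M N P : Str} {a b c : List ℕ} (h : TE M a N b) (h' : TE N b P c) :
    TE M a P c :=
  ⟨h.1, h.2.1.trans h'.2.1, fun φ => (h.2.2 φ).trans (h'.2.2 φ)⟩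

private theorem ext_lt {a : List ℕ} {i : ℕ} (hi : i < a.length) : ext a i = a.getD i 0 := by
  unfold ext
  rw [List.getD_eq_getElem _ _ hi, List.getD_eq_getElem _ _ hi]

private theorem ext_ge {a : List ℕ} {i : ℕ} (hi : a.length ≤ i) : ext a i = a.headD 0 := by
  unfold ext
  exact List.getD_eq_default _ _ hi

private theorem headD_eq {a : List ℕ} (ha : a ≠ []) : a.headD 0 = a.getD 0 0 := by
  cases a with
  | nil => exact absurd rfl ha
  | cons x t => rfl

theorem ext_pick {a I : List ℕ} (hI : I ≠ []) (hlt : ∀ i ∈ I, i < a.length) :
    ext (pick a I) = ext a ∘ ext I := by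
  funext i
  have hpos : 0 < I.length := List.length_pos_iff.2 hI
  rw [Function.comp_apply]
  have key : ∀ j (hj : j < I.length), (pick a I).getD j 0 = ext a I[j] := by
    intro j hj
    rw [ext_lt (hlt _ (List.getElem_mem hj))]
    unfold pick
    rw [List.getD_eq_getElem _ _ (by simpa using hj)]
    simp
  have hl : (pick a I).length = I.length := by simp [pick]
  rcases Nat.lt_or_ge i I.length with hi | hi
  · rw [ext_lt (by rw [hl]; exact hi), key i hi, ext_lt hi, List.getD_eq_getElem _ _ hi]
  · rw [ext_ge (by rw [hl]; exact hi), ext_ge hi,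
      headD_eq (by rw [← List.length_pos_iff, hl]; exact hpos), key 0 hpos, headD_eq hI,
      List.getD_eq_getElem _ _ hpos]

/-- Sublists, permutations, repetitions (`sat_renc`, `ext_pick`). -/
theorem TE.pick {M N : Str} {a b : List ℕ} (h : TE M a N b) {I : List ℕ} (hI : I ≠ [])
    (hlt : ∀ i ∈ I, i < a.length) : TE M (pick a I) N (pick b I) := by
  refine ⟨?_, by simp [Pool.Agent.H97.EM.pick], fun φ => ?_⟩
  · intro h0
    apply hI
    unfold Pool.Agent.H97.EM.pick at h0
    exact List.map_eq_nil_iff.1 h0
  · unfold Ev
    rw [ext_pick hI hlt, ext_pick hI (fun i hi => by rw [← h.2.1]; exact hlt i hi),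
      ← sat_renc, ← sat_renc]
    exact h.2.2 _

private theorem pick_app (a I J : List ℕ) : pick a (I ++ J) = pick a I ++ pick a J := by
  simp [pick]

private theorem pick_mid (a b c : List ℕ) :
    pick (a ++ b ++ c) ((List.range b.length).map fun i => a.length + i) = b := by
  unfold pick
  rw [List.map_map]
  refine List.ext_getElem (by simp) fun i h1 h2 => ?_
  have h3 : a.length + i < (a ++ b ++ c).length := by
    simp only [List.length_append]
    omega
  rw [List.getElem_map, List.getElem_range, Function.comp_apply, List.getD_eq_getElem _ _ h3,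
    List.getElem_append_left (by rw [List.length_append]; omega),
    List.getElem_append_right (by omega)]
  congr 1
  omega

private theorem pick_fst (a b : List ℕ) :
    pick (a ++ b) ((List.range a.length).map fun i => 0 + i) = a := by
  have := pick_mid [] a b
  simpa using this

private theorem pick_snd (a b : List ℕ) :
    pick (a ++ b) ((List.range b.length).map fun i => a.length + i) = b := by
  have := pick_mid a b []
  simpa using this

private theorem ne_nil_map {n : ℕ} {f : ℕ → ℕ} (hn : n ≠ 0) : (List.range n).map f ≠ [] := by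
  intro h
  have h1 := congrArg List.length h
  rw [List.length_map, List.length_range, List.length_nil] at h1
  exact hn h1

theorem TE.left {M N : Str} {a a' b b' : List ℕ} (h : TE M (a ++ a') N (b ++ b'))
    (hl : a.length = b.length) (ha : a ≠ []) : TE M a N b := by
  have h1 := h.pick (I := (List.range a.length).map fun i => 0 + i)
    (ne_nil_map (fun h0 => ha (List.length_eq_zero_iff.1 h0))) (by
      intro i hi
      rw [List.mem_map] at hi
      obtain ⟨j, hj, rfl⟩ := hi
      rw [List.mem_range] at hj
      rw [List.length_append]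
      omega)
  rw [pick_fst, hl, pick_fst] at h1
  exact h1

theorem TE.right {M N : Str} {a a' b b' : List ℕ} (h : TE M (a ++ a') N (b ++ b'))
    (hl : a.length = b.length) (ha : a' ≠ []) : TE M a' N b' := by
  have hl' : a'.length = b'.length := by
    have := h.2.1
    rw [List.length_append, List.length_append] at this
    omega
  have h1 := h.pick (I := (List.range a'.length).map fun i => a.length + i)
    (ne_nil_map (fun h0 => ha (List.length_eq_zero_iff.1 h0))) (by
      intro i hi
      rw [List.mem_map] at hi
      obtain ⟨j, hj, rfl⟩ := hi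
      rw [List.mem_range] at hj
      rw [List.length_append]
      omega)
  rw [pick_snd, hl, hl', pick_snd] at h1
  exact h1

/-- The two first blocks of three are exchanged with the last one. -/
private theorem te_perm3 {M N : Str} {a b c a' b' c' : List ℕ}
    (h : TE M (a ++ b ++ c) N (a' ++ b' ++ c')) (ha : a.length = a'.length)
    (hb : b.length = b'.length) : TE M (a ++ c ++ b) N (a' ++ c' ++ b') := by
  have hc : c.length = c'.length := by
    have := h.2.1
    simp only [List.length_append] at this
    omega
  have hpos : (a ++ b ++ c).length ≠ 0 := fun h0 => h.1 (List.length_eq_zero_iff.1 h0)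
  have hI : ∀ x y z : List ℕ, pick (x ++ y ++ z)
      (((List.range x.length).map fun i => 0 + i) ++
        ((List.range z.length).map fun i => (x ++ y).length + i) ++
        ((List.range y.length).map fun i => x.length + i)) = x ++ z ++ y := by
    intro x y z
    rw [pick_app, pick_app, pick_mid, pick_snd, List.append_assoc x y z, pick_fst]
  have h1 := h.pick (I := ((List.range a.length).map fun i => 0 + i) ++
        ((List.range c.length).map fun i => (a ++ b).length + i) ++
        ((List.range b.length).map fun i => a.length + i)) (by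
      intro h0
      have h1 := congrArg List.length h0
      simp only [List.length_append, List.length_map, List.length_range, List.length_nil] at h1
      apply hpos
      simp only [List.length_append]
      omega) (by
      intro i hi
      simp only [List.mem_append, List.mem_map, List.mem_range, List.length_append] at hi ⊢
      rcases hi with (⟨j, hj, rfl⟩ | ⟨j, hj, rfl⟩) | ⟨j, hj, rfl⟩ <;> omega)
  rw [hI] at h1
  have hab : (a ++ b).length = (a' ++ b').length := by
    rw [List.length_append, List.length_append, ha, hb]
  rw [hab, ha, hb, hc, hI] at h1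
  exact h1

theorem TE.swap {M N : Str} {a a' b b' : List ℕ} (h : TE M (a ++ a') N (b ++ b'))
    (hl : a.length = b.length) : TE M (a' ++ a) N (b' ++ b) := by
  have h1 : TE M ([] ++ a ++ a') N ([] ++ b ++ b') := by simpa using h
  have h2 := te_perm3 h1 rfl hl
  simpa using h2

/-- Exchange of the two last blocks. -/
theorem TE.swap3 {M N : Str} {a b c a' b' c' : List ℕ}
    (h : TE M (a ++ b ++ c) N (a' ++ b' ++ c')) (ha : a.length = a'.length)
    (hb : b.length = b'.length) : TE M (a ++ c ++ b) N (a' ++ c' ++ b') :=
  te_perm3 h ha hb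

/-- Prefixes. -/
theorem TE.take {M N : Str} {a b : List ℕ} (h : TE M a N b) {m : ℕ} (hm : 0 < m) :
    TE M (a.take m) N (b.take m) := by
  refine TE.left (a' := a.drop m) (b' := b.drop m) ?_ ?_ ?_
  · rw [List.take_append_drop, List.take_append_drop]
    exact h
  · rw [List.length_take, List.length_take, h.2.1]
  · intro h0
    rw [List.take_eq_nil_iff] at h0
    rcases h0 with h0 | h0
    · omega
    · exact h.1 h0

private theorem ext_map {a : List ℕ} (ha : a ≠ []) (f : ℕ → ℕ) : ext (a.map f) = f ∘ ext a := by
  funext i
  have hpos : 0 < a.length := List.length_pos_iff.2 ha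
  have key : ∀ j (hj : j < a.length), (a.map f).getD j 0 = f a[j] := by
    intro j hj
    rw [List.getD_eq_getElem _ _ (by simpa using hj)]
    simp
  have hl : (a.map f).length = a.length := List.length_map _
  rw [Function.comp_apply]
  rcases Nat.lt_or_ge i a.length with hi | hi
  · rw [ext_lt (by rw [hl]; exact hi), key i hi, ext_lt hi, List.getD_eq_getElem _ _ hi]
  · rw [ext_ge (by rw [hl]; exact hi), ext_ge hi,
      headD_eq (by rw [← List.length_pos_iff, hl]; exact hpos), key 0 hpos, headD_eq ha,
      List.getD_eq_getElem _ _ hpos]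

/-- Isomorphisms. -/
theorem te_iso {M N : Str} {σ : Equiv.Perm ℕ} (h : ∀ r l, M r l ↔ N r (l.map σ)) {a : List ℕ}
    (ha : a ≠ []) : TE M a N (a.map σ) := by
  refine ⟨ha, (List.length_map _).symm, fun φ => ?_⟩
  unfold Ev
  rw [ext_map ha]
  exact sat_iso h φ _

/-- A formula with its variables below the length holds at every assignment which extends the
list. -/
theorem ev_of_sat {M : Str} {φ : Fml} {a : List ℕ} {v : ℕ → ℕ}
    (hv : ∀ i < a.length, v i = a.getD i 0) (hφ : ∀ i ∈ φ.fv, i < a.length) :
    Ev M φ a ↔ Sat M φ v := by
  unfold Ev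
  exact sat_congr M φ _ _ fun i hi => by rw [ext_lt (hφ i hi), hv i (hφ i hi)]

/-- It is enough to look at formulas whose variables are below the length
(`renc φ (List.range a.length)`), in one direction (negations). -/
theorem te_of_holds {M N : Str} {a b : List ℕ} (ha : a ≠ []) (hl : a.length = b.length)
    (h : ∀ φ : Fml, (∀ i ∈ φ.fv, i < a.length) → Ev M φ a → Ev N φ b) : TE M a N b := by
  have h1 : ∀ φ : Fml, (∀ i ∈ φ.fv, i < a.length) → (Ev M φ a ↔ Ev N φ b) := by
    intro φ hφ
    refine ⟨h φ hφ, fun h2 => ?_⟩
    by_contra h3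
    exact h (.neg φ) hφ h3 h2
  have hpos : a.length ≠ 0 := fun h0 => ha (List.length_eq_zero_iff.1 h0)
  have hr : List.range a.length ≠ [] := by
    intro h0
    have := congrArg List.length h0
    rw [List.length_range, List.length_nil] at this
    exact hpos this
  have hpick : ∀ c : List ℕ, pick c (List.range c.length) = c := by
    intro c
    have := pick_fst c []
    simpa using this
  refine ⟨ha, hl, fun φ => ?_⟩
  have h2 := h1 (renc φ (List.range a.length)) (fun i hi =>
    (fv_renc φ hr i hi).elim (fun h3 => List.mem_range.1 h3)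
      (fun h3 => by rw [h3]; exact Nat.pos_of_ne_zero hpos))
  unfold Ev at h2 ⊢
  rw [sat_renc, sat_renc, ← ext_pick hr (fun i hi => List.mem_range.1 hi),
    ← ext_pick hr (fun i hi => by rw [← hl]; exact List.mem_range.1 hi), hpick] at h2
  rw [hl, hpick] at h2
  exact h2

/-- The type of `(e 0, .., e (n-1))` from the truth of all formulas at two assignments. -/
theorem te_of_sat {M N : Str} {v e : ℕ → ℕ} (h : ∀ φ, Sat M φ v ↔ Sat N φ e) {I : List ℕ}
    (hI : I ≠ []) : TE M (I.map v) N (I.map e) := by
  refine ⟨fun h0 => hI (List.map_eq_nil_iff.1 h0), by simp, fun φ => ?_⟩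
  unfold Ev
  rw [ext_map hI, ext_map hI, ← sat_renc, ← sat_renc]
  exact h _

end Pool.Agent.H97.EM
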