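import Pool.Agent.H97.EM.Sem

/-! Semantics of the operations. -/

namespace Pool.Agent.H97.EM

theorem sat_lit (M : Str) (b : Bool) (φ : Fml) (v : ℕ → ℕ) :
    Sat M (lit b φ) v ↔ (b = true ↔ Sat M φ v) := by
  cases b
  · have h : Sat M (lit false φ) v ↔ ¬ Sat M φ v := Iff.rfl
    rw [h]
    simp
  · have h : Sat M (lit true φ) v ↔ Sat M φ v := Iff.rfl
    rw [h]
    simp

theorem sat_top (M : Str) (v : ℕ → ℕ) : Sat M top v := rfl

theorem sat_conj (M : Str) (F : List Fml) (v : ℕ → ℕ) :
    Sat M (conj F) v ↔ ∀ φ ∈ F, Sat M φ v := by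
  induction F with
  | nil => exact ⟨fun _ φ h => absurd h List.not_mem_nil, fun _ => sat_top M v⟩
  | cons φ F ih =>
    have h : Sat M (conj (φ :: F)) v ↔ Sat M φ v ∧ Sat M (conj F) v := Iff.rfl
    rw [h, ih, List.forall_mem_cons]

theorem sat_cs (M : Str) (σ : List Bool) (v : ℕ → ℕ) :
    Sat M (cs σ) v ↔
      ∀ c < σ.length, (σ.getD c false = true ↔ Sat M (Denumerable.ofNat Fml c) v) := by
  have key : ∀ L : List ℕ, Sat M (L.foldr
      (fun c ψ => Fml.and (lit (σ.getD c false) (Denumerable.ofNat Fml c)) ψ) top) v ↔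
      ∀ c ∈ L, (σ.getD c false = true ↔ Sat M (Denumerable.ofNat Fml c) v) := by
    intro L
    induction L with
    | nil => exact ⟨fun _ c h => absurd h List.not_mem_nil, fun _ => sat_top M v⟩
    | cons c L ih =>
      have h : Sat M ((c :: L).foldr
        (fun c ψ => Fml.and (lit (σ.getD c false) (Denumerable.ofNat Fml c)) ψ) top) v ↔
        Sat M (lit (σ.getD c false) (Denumerable.ofNat Fml c)) v ∧ Sat M (L.foldr
        (fun c ψ => Fml.and (lit (σ.getD c false) (Denumerable.ofNat Fml c)) ψ) top) v := Iff.rfl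
      rw [h, ih, sat_lit, List.forall_mem_cons]
  refine (key (List.range σ.length)).trans ?_
  simp only [List.mem_range]

private theorem exs_succ (m k : ℕ) (φ : Fml) : exs m (k + 1) φ = exs m k (Fml.ex (m + k) φ) := by
  unfold exs
  rw [List.range_succ, List.foldr_append]
  rfl

private theorem exs_zero (m : ℕ) (φ : Fml) : exs m 0 φ = φ := rfl

private theorem upd_eq (m k : ℕ) (w : List ℕ) (hw : w.length = k) (a : ℕ) (v : ℕ → ℕ) :
    Function.update (fun i => if m ≤ i ∧ i < m + k then w.getD (i - m) 0 else v i) (m + k) a =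
      fun i => if m ≤ i ∧ i < m + (k + 1) then (w ++ [a]).getD (i - m) 0 else v i := by
  funext i
  by_cases h1 : i = m + k
  · subst h1
    rw [Function.update_self, if_pos (by omega), Nat.add_sub_cancel_left]
    rw [List.getD_append_right _ _ _ _ (by omega), hw, Nat.sub_self]
    rfl
  · rw [Function.update_of_ne h1]
    by_cases h2 : m ≤ i ∧ i < m + k
    · rw [if_pos h2, if_pos (by omega), List.getD_append _ _ _ _ (by omega)]
    · rw [if_neg h2, if_neg (by omega)]

/-- `exs m k φ` quantifies the variables `x_m, .., x_(m+k-1)`. -/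
theorem sat_exs (M : Str) (m k : ℕ) (φ : Fml) (v : ℕ → ℕ) :
    Sat M (exs m k φ) v ↔ ∃ w : List ℕ, w.length = k ∧
      Sat M φ (fun i => if m ≤ i ∧ i < m + k then w.getD (i - m) 0 else v i) := by
  induction k generalizing φ with
  | zero =>
    rw [exs_zero]
    have h : (fun i => if m ≤ i ∧ i < m + 0 then ([] : List ℕ).getD (i - m) 0 else v i) = v := by
      funext i
      rw [if_neg (by omega)]
    constructor
    · intro h1
      exact ⟨[], rfl, by rw [h]; exact h1⟩
    · rintro ⟨w, hw, h1⟩
      rw [List.length_eq_zero_iff.1 hw, h] at h1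
      exact h1
  | succ k ih =>
    rw [exs_succ, ih]
    constructor
    · rintro ⟨w, hw, a, h1⟩
      rw [upd_eq m k w hw] at h1
      exact ⟨w ++ [a], by simp [hw], h1⟩
    · rintro ⟨w, hw, h1⟩
      have h2 : w = w.take k ++ [w.getD k 0] := by
        apply List.ext_getElem
        · simp [hw]
        · intro i h3 h4
          by_cases h5 : i < k
          · rw [List.getElem_append_left (by simp; omega)]
            simp
          · have h6 : i = k := by omega
            subst h6
            rw [List.getElem_append_right (by simp), ← List.getD_eq_getElem w 0 h3]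
            simp
      have h3 : (w.take k).length = k := by simp [hw]
      refine ⟨w.take k, h3, w.getD k 0, ?_⟩
      rw [upd_eq m k _ h3, ← h2]
      exact h1

/-- The form used all the time: at a nonempty list. -/
theorem ev_exs (M : Str) (a : List ℕ) (ha : a ≠ []) (k : ℕ) (φ : Fml) :
    Ev M (exs a.length k φ) a ↔ ∃ w : List ℕ, w.length = k ∧ Ev M φ (a ++ w) := by
  unfold Ev
  rw [sat_exs]
  refine exists_congr fun w => and_congr_right fun hw => ?_
  have h : (fun i => if a.length ≤ i ∧ i < a.length + k then w.getD (i - a.length) 0 else ext a i) =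
      ext (a ++ w) := by
    obtain ⟨x, b, rfl⟩ := List.exists_cons_of_ne_nil ha
    funext i
    unfold ext
    have h0 : (x :: b ++ w).headD 0 = (x :: b).headD 0 := rfl
    rw [h0]
    by_cases h1 : i < (x :: b).length
    · rw [if_neg (by omega), List.getD_append _ _ _ _ h1]
    · rw [List.getD_append_right _ _ _ _ (by omega)]
      by_cases h2 : i < (x :: b).length + k
      · rw [if_pos (by omega), List.getD_eq_getElem _ _ (by omega), List.getD_eq_getElem _ _ (by omega)]
      · rw [if_neg (by omega), List.getD_eq_default _ _ (by omega), List.getD_eq_default _ _ (by omega)]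
  rw [h]

/-- Free variables. -/
theorem fv_exs (m k : ℕ) (φ : Fml) :
    ∀ i, i ∈ (exs m k φ).fv ↔ i ∈ φ.fv ∧ ¬ (m ≤ i ∧ i < m + k) := by
  induction k generalizing φ with
  | zero =>
    intro i
    rw [exs_zero]
    exact ⟨fun h => ⟨h, by omega⟩, fun h => h.1⟩
  | succ k ih =>
    intro i
    rw [exs_succ, ih]
    have h : (Fml.ex (m + k) φ).fv = φ.fv.erase (m + k) := rfl
    rw [h, Finset.mem_erase]
    constructor
    · rintro ⟨⟨h1, h2⟩, h3⟩
      exact ⟨h2, by omega⟩
    · rintro ⟨h1, h2⟩
      exact ⟨⟨by omega, h1⟩, by omega⟩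

theorem fv_lit (b : Bool) (φ : Fml) : (lit b φ).fv = φ.fv := by
  cases b <;> rfl

theorem fv_cs (σ : List Bool) : ∀ i ∈ (cs σ).fv, i ≤ σ.length := by
  have key : ∀ L : List ℕ, (∀ c ∈ L, c < σ.length) → ∀ i ∈ (L.foldr
      (fun c ψ => Fml.and (lit (σ.getD c false) (Denumerable.ofNat Fml c)) ψ) top).fv,
      i ≤ σ.length := by
    intro L
    induction L with
    | nil =>
      intro _ i hi
      have h : i ∈ ({0, 0} : Finset ℕ) := hi
      simp at h
      omega
    | cons c L ih =>
      intro hL i hi
      have h : i ∈ (lit (σ.getD c false) (Denumerable.ofNat Fml c)).fv ∪ (L.foldr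
        (fun c ψ => Fml.and (lit (σ.getD c false) (Denumerable.ofNat Fml c)) ψ) top).fv := hi
      rw [Finset.mem_union, fv_lit] at h
      rcases h with h | h
      · have h1 := fv_le _ i h
        rw [Denumerable.encode_ofNat] at h1
        have h2 := hL c List.mem_cons_self
        omega
      · exact ih (fun c hc => hL c (List.mem_cons_of_mem _ hc)) i h
  exact key (List.range σ.length) fun c hc => List.mem_range.1 hc

end Pool.Agent.H97.EM
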