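import Pool.Agent.H97.EM.Ren

/-! The operations on Goedel numbers are primitive recursive. -/

namespace Pool.Agent.H97.EM

theorem eq_primrec : Primrec₂ Fml.eq := by
  have h : Primrec fun p : ℕ × ℕ => Encodable.encode (Fml.eq p.1 p.2) :=
    Primrec.nat_mul.comp (Primrec.const 5) (Primrec₂.natPair.comp Primrec.fst Primrec.snd)
  exact Primrec.encode_iff.1 h

theorem neg_primrec : Primrec Fml.neg := by
  have h : Primrec fun φ : Fml => Encodable.encode (Fml.neg φ) :=
    Primrec.nat_add.comp (Primrec.nat_mul.comp (Primrec.const 5) Primrec.encode) (Primrec.const 2)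
  exact Primrec.encode_iff.1 h

theorem and_primrec : Primrec₂ Fml.and := by
  have h : Primrec fun p : Fml × Fml => Encodable.encode (Fml.and p.1 p.2) :=
    Primrec.nat_add.comp (Primrec.nat_mul.comp (Primrec.const 5)
      (Primrec₂.natPair.comp (Primrec.encode.comp Primrec.fst) (Primrec.encode.comp Primrec.snd)))
      (Primrec.const 3)
  exact Primrec.encode_iff.1 h

theorem ex_primrec : Primrec₂ Fml.ex := by
  have h : Primrec fun p : ℕ × Fml => Encodable.encode (Fml.ex p.1 p.2) :=
    Primrec.nat_add.comp (Primrec.nat_mul.comp (Primrec.const 5)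
      (Primrec₂.natPair.comp Primrec.fst (Primrec.encode.comp Primrec.snd)))
      (Primrec.const 4)
  exact Primrec.encode_iff.1 h

theorem lit_primrec : Primrec₂ lit :=
  Primrec.cond Primrec.fst Primrec.snd (neg_primrec.comp Primrec.snd)

/-- The parts of an existential formula. -/
def exParts (φ : Fml) : Option (ℕ × Fml) :=
  match φ with
  | .ex i ψ => some (i, ψ)
  | _ => none

theorem exParts_primrec : Primrec exParts := by
  have h : ∀ φ : Fml, exParts φ = if Encodable.encode φ % 5 = 4 then
      some ((Encodable.encode φ / 5).unpair.1,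
        Denumerable.ofNat Fml (Encodable.encode φ / 5).unpair.2) else none := by
    intro φ
    cases φ with
    | eq i j =>
      have h0 : Encodable.encode (Fml.eq i j) = 5 * Nat.pair i j := rfl
      rw [if_neg (by omega)]
      rfl
    | rel r l =>
      have h0 : Encodable.encode (Fml.rel r l) = 5 * Nat.pair r (Encodable.encode l) + 1 := rfl
      rw [if_neg (by omega)]
      rfl
    | neg φ =>
      have h0 : Encodable.encode (Fml.neg φ) = 5 * φ.enc + 2 := rfl
      rw [if_neg (by omega)]
      rfl
    | and φ ψ =>
      have h0 : Encodable.encode (Fml.and φ ψ) = 5 * Nat.pair φ.enc ψ.enc + 3 := rfl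
      rw [if_neg (by omega)]
      rfl
    | ex i φ =>
      have h0 : Encodable.encode (Fml.ex i φ) = 5 * Nat.pair i (Encodable.encode φ) + 4 := rfl
      have h1 : Encodable.encode (Fml.ex i φ) / 5 = Nat.pair i (Encodable.encode φ) := by omega
      rw [if_pos (by omega), h1, Nat.unpair_pair]
      simp only [Denumerable.ofNat_encode]
      rfl
  have hd : Primrec fun φ : Fml => Encodable.encode φ / 5 :=
    Primrec.nat_div.comp Primrec.encode (Primrec.const 5)
  have hu : Primrec fun φ : Fml => (Encodable.encode φ / 5).unpair := Primrec.unpair.comp hd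
  have hc : PrimrecPred fun φ : Fml => Encodable.encode φ % 5 = 4 :=
    PrimrecRel.comp Primrec.eq (Primrec.nat_mod.comp Primrec.encode (Primrec.const 5))
      (Primrec.const 4)
  refine (Primrec.ite hc (Primrec.option_some.comp (Primrec.pair (Primrec.fst.comp hu)
    ((Primrec.ofNat Fml).comp (Primrec.snd.comp hu)))) (Primrec.const none)).of_eq ?_
  exact fun φ => (h φ).symm

end Pool.Agent.H97.EM
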