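import Pool.Agent.H97.EM.Ops

/-! Renaming of variables without substitution. -/

namespace Pool.Agent.H97.EM

/-- `φ(x_(I_0), x_(I_1), ..)`: with `k = encode φ + 1` (all variables of `φ` are below `k`) and
fresh variables `x_K, .., x_(K+k-1)`:
`∃ x_K .. (⋀_j x_(K+j) = x_(I_j)) ∧ ∃ x_0 .. x_(k-1) (⋀_j x_j = x_(K+j)) ∧ φ`. -/
def renc (φ : Fml) (I : List ℕ) : Fml :=
  exs (Encodable.encode φ + Encodable.encode I + 1) (Encodable.encode φ + 1)
    (.and (conj ((List.range (Encodable.encode φ + 1)).map fun j =>
        Fml.eq (Encodable.encode φ + Encodable.encode I + 1 + j) (ext I j)))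
      (exs 0 (Encodable.encode φ + 1)
        (.and (conj ((List.range (Encodable.encode φ + 1)).map fun j =>
          Fml.eq j (Encodable.encode φ + Encodable.encode I + 1 + j))) φ)))

private theorem ren_le_encode : ∀ (l : List ℕ) (i : ℕ), i ∈ l → i ≤ Encodable.encode l := by
  intro l
  induction l with
  | nil => intro i hi; simp at hi
  | cons a l ih =>
    intro i hi
    rw [Encodable.encode_list_cons]
    rcases List.mem_cons.1 hi with h | h
    · subst h
      have := Nat.left_le_pair (Encodable.encode i) (Encodable.encode l)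
      simp only [Encodable.encode_nat] at this ⊢
      omega
    · have h1 := ih i h
      have := Nat.right_le_pair (Encodable.encode a) (Encodable.encode l)
      omega

private theorem ren_ext_mem (I : List ℕ) (j : ℕ) : ext I j ∈ I ∨ ext I j = 0 := by
  unfold ext
  rcases I with _ | ⟨a, l⟩
  · right
    simp
  · left
    by_cases h : j < (a :: l).length
    · rw [List.getD_eq_getElem _ _ h]
      exact List.getElem_mem h
    · rw [List.getD_eq_default _ _ (by omega)]
      exact List.mem_cons_self

private theorem ren_ext_le (I : List ℕ) (j : ℕ) : ext I j ≤ Encodable.encode I := by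
  rcases ren_ext_mem I j with h | h
  · exact ren_le_encode I _ h
  · rw [h]
    exact Nat.zero_le _

/-- The meaning of `renc` (entries of `I` are at most `encode I`, so the variables
`x_K, ..` are fresh). -/
theorem sat_renc (M : Str) (φ : Fml) (I : List ℕ) (v : ℕ → ℕ) :
    Sat M (renc φ I) v ↔ Sat M φ (v ∘ ext I) := by
  have hext := ren_ext_le I
  have hfv : ∀ i ∈ φ.fv, i < Encodable.encode φ + 1 := fun i hi => by
    have := fv_le φ i hi
    omega
  have hkK : Encodable.encode φ + 1 ≤ Encodable.encode φ + Encodable.encode I + 1 := by omega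
  have hIK : ∀ j, ext I j < Encodable.encode φ + Encodable.encode I + 1 := fun j => by
    have := hext j
    omega
  unfold renc
  generalize Encodable.encode φ + Encodable.encode I + 1 = K at hkK hIK ⊢
  generalize Encodable.encode φ + 1 = k at hfv hkK ⊢
  rw [sat_exs]
  constructor
  · rintro ⟨w, hw, h1, h2⟩
    rw [sat_conj] at h1
    rw [sat_exs] at h2
    obtain ⟨w', hw', h3, h4⟩ := h2
    rw [sat_conj] at h3
    have h5 : ∀ j < k, w.getD j 0 = v (ext I j) := by
      intro j hj
      have h6 := h1 (Fml.eq (K + j) (ext I j)) (List.mem_map.2 ⟨j, List.mem_range.2 hj, rfl⟩)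
      have hI := hIK j
      simp only [Sat] at h6
      rw [if_pos (by omega), if_neg (by omega), Nat.add_sub_cancel_left] at h6
      exact h6
    have h7 : ∀ j < k, w'.getD j 0 = w.getD j 0 := by
      intro j hj
      have h6 := h3 (Fml.eq j (K + j)) (List.mem_map.2 ⟨j, List.mem_range.2 hj, rfl⟩)
      simp only [Sat] at h6
      rw [if_pos (by omega), if_neg (by omega), if_pos (by omega), Nat.add_sub_cancel_left,
        Nat.sub_zero] at h6
      exact h6
    refine (sat_congr M φ _ _ fun i hi => ?_).1 h4
    have hi' := hfv i hi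
    simp only [Function.comp_apply]
    rw [if_pos (by omega), Nat.sub_zero, h7 i hi', h5 i hi']
  · intro h
    have hw : ((List.range k).map fun j => v (ext I j)).length = k := by simp
    have hget : ∀ j < k, ((List.range k).map fun j => v (ext I j)).getD j 0 = v (ext I j) := by
      intro j hj
      rw [List.getD_eq_getElem _ _ (by rw [hw]; exact hj)]
      simp
    refine ⟨(List.range k).map fun j => v (ext I j), hw, ?_⟩
    refine ⟨?_, ?_⟩
    · rw [sat_conj]
      intro ψ hψ
      obtain ⟨j, hj, rfl⟩ := List.mem_map.1 hψ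
      have hj' := List.mem_range.1 hj
      have hI := hIK j
      simp only [Sat]
      rw [if_pos (by omega), if_neg (by omega), Nat.add_sub_cancel_left, hget j hj']
    · rw [sat_exs]
      refine ⟨(List.range k).map fun j => v (ext I j), hw, ?_, ?_⟩
      · rw [sat_conj]
        intro ψ hψ
        obtain ⟨j, hj, rfl⟩ := List.mem_map.1 hψ
        have hj' := List.mem_range.1 hj
        simp only [Sat]
        rw [if_pos (by omega), if_neg (by omega), if_pos (by omega), Nat.add_sub_cancel_left,
          Nat.sub_zero]
      · refine (sat_congr M φ _ _ fun i hi => ?_).1 h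
        have hi' := hfv i hi
        simp only [Function.comp_apply]
        rw [if_pos (by omega), Nat.sub_zero, hget i hi']

private theorem ren_fv_conj (G : List Fml) :
    ∀ i ∈ (conj G).fv, i = 0 ∨ ∃ g ∈ G, i ∈ g.fv := by
  induction G with
  | nil =>
    intro i hi
    left
    have h1 : i ∈ (Fml.eq 0 0).fv := hi
    simpa [Fml.fv] using h1
  | cons g G ih =>
    intro i hi
    have h1 : i ∈ (Fml.and g (conj G)).fv := hi
    simp only [Fml.fv, Finset.mem_union] at h1
    rcases h1 with h1 | h1
    · exact Or.inr ⟨g, List.mem_cons_self, h1⟩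
    · rcases ih i h1 with h2 | ⟨g', hg', h2⟩
      · exact Or.inl h2
      · exact Or.inr ⟨g', List.mem_cons_of_mem _ hg', h2⟩

/-- The free variables of `renc φ I` are entries of `I`, or `x_0` (which occurs in `top`). -/
theorem fv_renc (φ : Fml) {I : List ℕ} (_hI : I ≠ []) : ∀ i ∈ (renc φ I).fv, i ∈ I ∨ i = 0 := by
  intro i hi
  have hfv : ∀ i ∈ φ.fv, i < Encodable.encode φ + 1 := fun i hi => by
    have := fv_le φ i hi
    omega
  unfold renc at hi
  generalize Encodable.encode φ + Encodable.encode I + 1 = K at hi
  generalize Encodable.encode φ + 1 = k at hfv hi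
  rw [fv_exs] at hi
  obtain ⟨h1, h2⟩ := hi
  simp only [Fml.fv, Finset.mem_union] at h1
  rcases h1 with h1 | h1
  · rcases ren_fv_conj _ i h1 with h3 | ⟨g, hg, h3⟩
    · exact Or.inr h3
    · obtain ⟨j, hj, rfl⟩ := List.mem_map.1 hg
      have hj' := List.mem_range.1 hj
      simp only [Fml.fv, Finset.mem_insert, Finset.mem_singleton] at h3
      rcases h3 with h3 | h3
      · exact absurd (show K ≤ i ∧ i < K + k by omega) h2
      · rw [h3]
        exact ren_ext_mem I j
  · rw [fv_exs] at h1
    obtain ⟨h3, h4⟩ := h1
    simp only [Fml.fv, Finset.mem_union] at h3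
    rcases h3 with h3 | h3
    · rcases ren_fv_conj _ i h3 with h5 | ⟨g, hg, h5⟩
      · exact Or.inr h5
      · obtain ⟨j, hj, rfl⟩ := List.mem_map.1 hg
        have hj' := List.mem_range.1 hj
        simp only [Fml.fv, Finset.mem_insert, Finset.mem_singleton] at h5
        rcases h5 with h5 | h5
        · exact absurd (show 0 ≤ i ∧ i < 0 + k by omega) h4
        · exact absurd (show K ≤ i ∧ i < K + k by omega) h2
    · have := hfv i h3
      exact absurd (show 0 ≤ i ∧ i < 0 + k by omega) h4

/-- Renaming by an arbitrary map: use `I = (List.range (encode φ + 1)).map ρ`. -/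
theorem ren_exists (φ : Fml) (ρ : ℕ → ℕ) :
    ∃ φ' : Fml, ∀ (M : Str) (v : ℕ → ℕ), Sat M φ' v ↔ Sat M φ (v ∘ ρ) := by
  refine ⟨renc φ ((List.range (Encodable.encode φ + 1)).map ρ), fun M v => ?_⟩
  rw [sat_renc]
  refine sat_congr M φ _ _ fun i hi => ?_
  have hi' : i < Encodable.encode φ + 1 := by
    have := fv_le φ i hi
    omega
  simp only [Function.comp_apply]
  unfold ext
  rw [List.getD_eq_getElem _ _ (by simpa using hi')]
  simp

end Pool.Agent.H97.EM
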