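import Pool.Agent.H97.EM.Defs

/-! Basic semantics. -/

namespace Pool.Agent.H97.EM

/-- Only the free variables matter (induction on `φ`). -/
theorem sat_congr (M : Str) (φ : Fml) : ∀ (v w : ℕ → ℕ), (∀ i ∈ φ.fv, v i = w i) →
    (Sat M φ v ↔ Sat M φ w) := by
  induction φ with
  | eq i j =>
    intro v w h
    simp only [Sat]
    rw [h i (by simp [Fml.fv]), h j (by simp [Fml.fv])]
  | rel r l =>
    intro v w h
    simp only [Sat]
    have : l.map v = l.map w := by
      apply List.map_congr_left
      intro i hi
      exact h i (by simpa [Fml.fv] using hi)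
    rw [this]
  | neg φ ih =>
    intro v w h
    simp only [Sat]
    exact not_congr (ih v w h)
  | and φ ψ ih1 ih2 =>
    intro v w h
    simp only [Sat]
    exact and_congr (ih1 v w fun i hi => h i (by simp [Fml.fv, hi]))
      (ih2 v w fun i hi => h i (by simp [Fml.fv, hi]))
  | ex i φ ih =>
    intro v w h
    simp only [Sat]
    refine exists_congr fun a => ih _ _ fun j hj => ?_
    by_cases hji : j = i
    · subst hji; simp
    · rw [Function.update_of_ne hji, Function.update_of_ne hji]
      exact h j (by simp [Fml.fv, hj, hji])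

private theorem le_encode_list : ∀ (l : List ℕ) (i : ℕ), i ∈ l → i ≤ Encodable.encode l := by
  intro l
  induction l with
  | nil => intro i hi; simp at hi
  | cons a l ih =>
    intro i hi
    rw [Encodable.encode_list_cons]
    rcases List.mem_cons.1 hi with h | h
    · subst h
      have := Nat.left_le_pair (Encodable.encode i) (Encodable.encode l)
      simp only [Encodable.encode_nat] at this ⊢
      omega
    · have h1 := ih i h
      have := Nat.right_le_pair (Encodable.encode a) (Encodable.encode l)
      omega

/-- Free variables are at most the Goedel number (induction; `Nat.left_le_pair`,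
`Nat.right_le_pair`; members of a list are at most its code). -/
theorem fv_le (φ : Fml) : ∀ i ∈ φ.fv, i ≤ Encodable.encode φ := by
  rw [encode_eq]
  induction φ with
  | eq a b =>
    intro i hi
    simp only [Fml.enc]
    have h1 := Nat.left_le_pair a b
    have h2 := Nat.right_le_pair a b
    simp only [Fml.fv, Finset.mem_insert, Finset.mem_singleton] at hi
    rcases hi with h | h <;> omega
  | rel r l =>
    intro i hi
    simp only [Fml.enc]
    have h1 := le_encode_list l i (by simpa [Fml.fv] using hi)
    have h2 := Nat.right_le_pair r (Encodable.encode l)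
    omega
  | neg φ ih =>
    intro i hi
    simp only [Fml.enc]
    have := ih i hi
    omega
  | and φ ψ ih1 ih2 =>
    intro i hi
    simp only [Fml.enc]
    have h1 := Nat.left_le_pair φ.enc ψ.enc
    have h2 := Nat.right_le_pair φ.enc ψ.enc
    simp only [Fml.fv, Finset.mem_union] at hi
    rcases hi with h | h
    · have := ih1 i h; omega
    · have := ih2 i h; omega
  | ex j φ ih =>
    intro i hi
    simp only [Fml.enc]
    have h2 := Nat.right_le_pair j φ.enc
    simp only [Fml.fv, Finset.mem_erase] at hi
    have := ih i hi.2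
    omega

/-- Satisfaction is invariant under isomorphisms. -/
theorem sat_iso {M N : Str} {σ : Equiv.Perm ℕ} (h : ∀ r l, M r l ↔ N r (l.map σ)) (φ : Fml) :
    ∀ v : ℕ → ℕ, Sat M φ v ↔ Sat N φ (σ ∘ v) := by
  induction φ with
  | eq i j => intro v; simp [Sat]
  | rel r l =>
    intro v
    simp only [Sat]
    rw [h r (l.map v), List.map_map]
  | neg φ ih => intro v; simp only [Sat]; exact not_congr (ih v)
  | and φ ψ ih1 ih2 => intro v; simp only [Sat]; exact and_congr (ih1 v) (ih2 v)
  | ex i φ ih =>
    intro v
    simp only [Sat]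
    constructor
    · rintro ⟨a, ha⟩
      refine ⟨σ a, ?_⟩
      have := (ih _).1 ha
      rwa [Function.comp_update] at this
    · rintro ⟨b, hb⟩
      refine ⟨σ.symm b, (ih _).2 ?_⟩
      rw [Function.comp_update]
      simpa using hb

theorem iso_refl (M : Str) : Iso M M :=
  ⟨Equiv.refl ℕ, fun r l => by simp⟩

theorem iso_symm {M N : Str} (h : Iso M N) : Iso N M := by
  obtain ⟨σ, h⟩ := h
  refine ⟨σ.symm, fun r l => ?_⟩
  rw [h r (l.map σ.symm), List.map_map]
  have : (σ : ℕ → ℕ) ∘ σ.symm = id := by funext x; simp
  rw [this, List.map_id]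

theorem iso_trans {M N P : Str} (h : Iso M N) (h' : Iso N P) : Iso M P := by
  obtain ⟨σ, h⟩ := h
  obtain ⟨τ, h'⟩ := h'
  refine ⟨σ.trans τ, fun r l => ?_⟩
  rw [h r l, h' r (l.map σ), List.map_map]
  rfl

theorem isModel_iso {M N : Str} {T : Set Fml} (h : Iso M N) (hM : IsModel M T) : IsModel N T := by
  obtain ⟨σ, h⟩ := h
  intro φ hφ v
  have h1 := hM φ hφ (σ.symm ∘ v)
  rw [sat_iso h φ] at h1
  have : (σ : ℕ → ℕ) ∘ (σ.symm ∘ v) = v := by funext x; simp
  rwa [this] at h1

/-- A bijection onto `N` which preserves all formulas is an isomorphism. -/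
theorem iso_of_sat {M N : Str} (e : ℕ → ℕ) (he : Function.Bijective e)
    (h : ∀ (φ : Fml) (v : ℕ → ℕ), Sat M φ v ↔ Sat N φ (e ∘ v)) : Iso M N := by
  refine ⟨Equiv.ofBijective e he, fun r l => ?_⟩
  have h1 := h (.rel r (List.range l.length)) (fun i => l.getD i 0)
  simp only [Sat] at h1
  have h2 : (List.range l.length).map (fun i => l.getD i 0) = l := by
    apply List.ext_getElem
    · simp
    · intro i h1 h2
      simp [List.getD_eq_getElem?_getD, h2]
  have h3 : (List.range l.length).map (e ∘ fun i => l.getD i 0) = l.map e := by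
    rw [← List.map_map, h2]
  rw [h2, h3] at h1
  exact h1

end Pool.Agent.H97.EM
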